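import Mathlib

/-!
# Canonical commutation relations in an inner product space: Bessel, lower bound

MP_791321_mp (helper660)
-/

set_option autoImplicit false

namespace Pool.Agent.Y660.FB

open scoped InnerProductSpace ComplexConjugate

variable {E : Type*} [SeminormedAddCommGroup E] [InnerProductSpace ℂ E]
variable {M : Type*} [Fintype M]

lemma re_self (u : E) : (⟪u, u⟫_ℂ).re = ‖u‖ ^ 2 := inner_self_eq_norm_sq (𝕜 := ℂ) u

/-- Bessel's inequality for real orthogonal rows of equal norm -/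
lemma bessel (r : Fin 3 → M → ℝ) (G : ℝ) (hG : 0 < G)
    (hr : ∀ i j, ∑ m, r i m * r j m = if i = j then G else 0) (y : M → E) :
    ∑ i, ‖∑ m, (r i m : ℂ) • y m‖ ^ 2 ≤ G * ∑ m, ‖y m‖ ^ 2 := by
  obtain ⟨D, hD⟩ : ∃ D : Fin 3 → E, ∀ i, D i = ∑ m, (r i m : ℂ) • y m := ⟨_, fun _ => rfl⟩
  have h1 : 0 ≤ ∑ m, ‖y m - ((1 / G : ℝ) : ℂ) • ∑ i, (r i m : ℂ) • D i‖ ^ 2 :=
    Finset.sum_nonneg fun _ _ => by positivity
  have h2 : ∀ m, ‖y m - ((1 / G : ℝ) : ℂ) • ∑ i, (r i m : ℂ) • D i‖ ^ 2 =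
      ‖y m‖ ^ 2 - 2 * (1 / G) * ∑ i, r i m * (⟪y m, D i⟫_ℂ).re +
        (1 / G) ^ 2 * ∑ i, ∑ j, r i m * r j m * (⟪D i, D j⟫_ℂ).re := by
    intro m
    rw [@norm_sub_sq ℂ, norm_smul, mul_pow, inner_smul_right, inner_sum]
    have e1 : ‖∑ i, (r i m : ℂ) • D i‖ ^ 2 = ∑ i, ∑ j, r i m * r j m * (⟪D i, D j⟫_ℂ).re := by
      rw [← @inner_self_eq_norm_sq ℂ, sum_inner]
      simp_rw [inner_sum, inner_smul_left, inner_smul_right]
      simp only [Complex.conj_ofReal, map_sum]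
      refine Finset.sum_congr rfl fun i _ => Finset.sum_congr rfl fun j _ => ?_
      rw [← mul_assoc, ← Complex.ofReal_mul]
      exact Complex.re_ofReal_mul _ _
    rw [e1]
    simp_rw [inner_smul_right]
    have e2 : RCLike.re (((1 / G : ℝ) : ℂ) * ∑ i, (r i m : ℂ) * ⟪y m, D i⟫_ℂ) =
        1 / G * ∑ i, r i m * (⟪y m, D i⟫_ℂ).re := by
      have : RCLike.re (((1 / G : ℝ) : ℂ) * ∑ i, (r i m : ℂ) * ⟪y m, D i⟫_ℂ) =
        (((1 / G : ℝ) : ℂ) * ∑ i, (r i m : ℂ) * ⟪y m, D i⟫_ℂ).re := rfl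
      rw [this, Complex.re_ofReal_mul, Complex.re_sum]
      simp only [Complex.re_ofReal_mul]
    rw [e2, Complex.norm_real, Real.norm_eq_abs, sq_abs]
    ring
  simp_rw [h2] at h1
  rw [Finset.sum_add_distrib, Finset.sum_sub_distrib, ← Finset.mul_sum, ← Finset.mul_sum] at h1
  have h3 : ∑ m, ∑ i, r i m * (⟪y m, D i⟫_ℂ).re = ∑ i, ‖D i‖ ^ 2 := by
    rw [Finset.sum_comm]
    refine Finset.sum_congr rfl fun i _ => ?_
    rw [← @inner_self_eq_norm_sq ℂ]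
    conv_rhs => rw [hD i]
    rw [sum_inner]
    have : RCLike.re (∑ m, ⟪(r i m : ℂ) • y m, ∑ m, (r i m : ℂ) • y m⟫_ℂ) =
      (∑ m, ⟪(r i m : ℂ) • y m, ∑ m, (r i m : ℂ) • y m⟫_ℂ).re := rfl
    rw [this, Complex.re_sum, ← hD i]
    refine Finset.sum_congr rfl fun m _ => ?_
    rw [inner_smul_left, Complex.conj_ofReal, Complex.re_ofReal_mul]
  have h4 : ∑ m, ∑ i, ∑ j, r i m * r j m * (⟪D i, D j⟫_ℂ).re = G * ∑ i, ‖D i‖ ^ 2 := by
    rw [Finset.sum_comm, Finset.mul_sum]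
    refine Finset.sum_congr rfl fun i _ => ?_
    rw [Finset.sum_comm]
    have : ∀ j, ∑ m, r i m * r j m * (⟪D i, D j⟫_ℂ).re = (if i = j then G else 0) *
        (⟪D i, D j⟫_ℂ).re := fun j => by rw [← Finset.sum_mul, hr]
    simp_rw [this]
    rw [Finset.sum_eq_single i]
    · rw [if_pos rfl, ← @inner_self_eq_norm_sq ℂ]
      rfl
    · intro j _ hj
      rw [if_neg (Ne.symm hj), zero_mul]
    · intro h
      exact absurd (Finset.mem_univ i) h
  rw [h3, h4] at h1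
  have h5 : ∑ i, ‖D i‖ ^ 2 = ∑ i, ‖∑ m, (r i m : ℂ) • y m‖ ^ 2 :=
    Finset.sum_congr rfl fun i _ => by rw [hD i]
  rw [← h5]
  have h6 : (1 / G) ^ 2 * (G * ∑ i, ‖D i‖ ^ 2) = 1 / G * ∑ i, ‖D i‖ ^ 2 := by
    field_simp
  rw [h6] at h1
  have h7 : 1 / G * ∑ i, ‖D i‖ ^ 2 ≤ ∑ m, ‖y m‖ ^ 2 := by linarith
  rw [one_div, inv_mul_le_iff₀ hG] at h7
  exact h7

variable [DecidableEq M]

/-- annihilation and creation operators on an inner product space -/
structure CCR (b bd : M → E →ₗ[ℂ] E) : Prop where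
  adj : ∀ m u v, ⟪b m u, v⟫_ℂ = ⟪u, bd m v⟫_ℂ
  com : ∀ m m' u, b m (bd m' u) = bd m' (b m u) + if m = m' then u else 0
  comb : ∀ m m' u, b m (b m' u) = b m' (b m u)
  comd : ∀ m m' u, bd m (bd m' u) = bd m' (bd m u)

/-- the annihilation operator of the vector `f` -/
noncomputable def bs (b : M → E →ₗ[ℂ] E) (f : M → ℂ) (u : E) : E := ∑ m, conj (f m) • b m u

/-- the creation operator of the vector `f` -/
noncomputable def bc (bd : M → E →ₗ[ℂ] E) (f : M → ℂ) (u : E) : E := ∑ m, f m • bd m u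

omit [DecidableEq M] in
lemma bs_add (b : M → E →ₗ[ℂ] E) (f : M → ℂ) (u v : E) : bs b f (u + v) = bs b f u + bs b f v := by
  unfold bs
  simp only [map_add, smul_add, Finset.sum_add_distrib]

omit [DecidableEq M] in
lemma bc_add (b : M → E →ₗ[ℂ] E) (f : M → ℂ) (u v : E) : bc b f (u + v) = bc b f u + bc b f v := by
  unfold bc
  simp only [map_add, smul_add, Finset.sum_add_distrib]

omit [DecidableEq M] in
lemma bs_smul (b : M → E →ₗ[ℂ] E) (f : M → ℂ) (c : ℂ) (u : E) :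
    bs b f (c • u) = c • bs b f u := by
  unfold bs
  rw [Finset.smul_sum]
  refine Finset.sum_congr rfl fun m _ => ?_
  rw [map_smul, smul_comm]

omit [DecidableEq M] in
lemma bc_smul (b : M → E →ₗ[ℂ] E) (f : M → ℂ) (c : ℂ) (u : E) :
    bc b f (c • u) = c • bc b f u := by
  unfold bc
  rw [Finset.smul_sum]
  refine Finset.sum_congr rfl fun m _ => ?_
  rw [map_smul, smul_comm]

omit [DecidableEq M] in
lemma bs_sum {ι : Type*} (s : Finset ι) (b : M → E →ₗ[ℂ] E) (f : M → ℂ) (u : ι → E) :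
    bs b f (∑ i ∈ s, u i) = ∑ i ∈ s, bs b f (u i) := by
  unfold bs
  simp only [map_sum, Finset.smul_sum]
  rw [Finset.sum_comm]

omit [DecidableEq M] in
lemma bc_sum {ι : Type*} (s : Finset ι) (b : M → E →ₗ[ℂ] E) (f : M → ℂ) (u : ι → E) :
    bc b f (∑ i ∈ s, u i) = ∑ i ∈ s, bc b f (u i) := by
  unfold bc
  simp only [map_sum, Finset.smul_sum]
  rw [Finset.sum_comm]

variable {b bd : M → E →ₗ[ℂ] E}

lemma CCR.adj' (h : CCR b bd) (f : M → ℂ) (u v : E) : ⟪bs b f u, v⟫_ℂ = ⟪u, bc bd f v⟫_ℂ := by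
  unfold bs bc
  rw [sum_inner, inner_sum]
  refine Finset.sum_congr rfl fun m _ => ?_
  rw [inner_smul_left, inner_smul_right, h.adj, Complex.conj_conj]

lemma CCR.adj2 (h : CCR b bd) (f : M → ℂ) (u v : E) : ⟪bc bd f u, v⟫_ℂ = ⟪u, bs b f v⟫_ℂ := by
  rw [← inner_conj_symm, ← h.adj', inner_conj_symm]

lemma CCR.com' (h : CCR b bd) (f g : M → ℂ) (u : E) :
    bs b f (bc bd g u) = bc bd g (bs b f u) + (∑ m, conj (f m) * g m) • u := by
  unfold bs bc
  simp only [map_sum, map_smul, Finset.smul_sum, h.com, smul_add]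
  simp only [Finset.sum_add_distrib]
  congr 1
  · rw [Finset.sum_comm]
    refine Finset.sum_congr rfl fun m _ => Finset.sum_congr rfl fun m' _ => ?_
    rw [smul_comm]
  · rw [Finset.sum_smul]
    refine Finset.sum_congr rfl fun m _ => ?_
    rw [Finset.sum_eq_single m]
    · rw [if_pos rfl, smul_smul]
    · intro m' _ hm
      rw [if_neg (Ne.symm hm), smul_zero, smul_zero]
    · intro hm
      exact absurd (Finset.mem_univ m) hm

lemma CCR.comb' (h : CCR b bd) (f g : M → ℂ) (u : E) :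
    bs b f (bs b g u) = bs b g (bs b f u) := by
  unfold bs
  simp only [map_sum, map_smul, Finset.smul_sum]
  rw [Finset.sum_comm]
  refine Finset.sum_congr rfl fun m _ => Finset.sum_congr rfl fun m' _ => ?_
  rw [smul_comm, h.comb]

lemma CCR.comd' (h : CCR b bd) (f g : M → ℂ) (u : E) :
    bc bd f (bc bd g u) = bc bd g (bc bd f u) := by
  unfold bc
  simp only [map_sum, map_smul, Finset.smul_sum]
  rw [Finset.sum_comm]
  refine Finset.sum_congr rfl fun m _ => Finset.sum_congr rfl fun m' _ => ?_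
  rw [smul_comm, h.comd]

/-- `‖a* u‖² = ‖a u‖² + ‖f‖² ‖u‖²` -/
lemma CCR.norm_bc (h : CCR b bd) (f : M → ℂ) (u : E) :
    ‖bc bd f u‖ ^ 2 = ‖bs b f u‖ ^ 2 + (∑ m, ‖f m‖ ^ 2) * ‖u‖ ^ 2 := by
  have h1 : ⟪bc bd f u, bc bd f u⟫_ℂ = ⟪bs b f u, bs b f u⟫_ℂ +
      ((∑ m, ‖f m‖ ^ 2 : ℝ) : ℂ) * ⟪u, u⟫_ℂ := by
    rw [h.adj2, h.com', inner_add_right, inner_smul_right, h.adj']
    congr 2
    push_cast
    refine Finset.sum_congr rfl fun m _ => ?_
    rw [← Complex.normSq_eq_conj_mul_self, Complex.normSq_eq_norm_sq]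
    push_cast
    rfl
  have h2 := congrArg Complex.re h1
  rw [Complex.add_re, Complex.re_ofReal_mul, re_self, re_self, re_self] at h2
  exact h2

/-- the lower bound for one particle -/
theorem lower (h : CCR b bd) (p : Fin 3 → E →ₗ[ℂ] E) (hp : ∀ i u v, ⟪p i u, v⟫_ℂ = ⟪u, p i v⟫_ℂ)
    (k e : M → Fin 3 → ℝ)
    (hpb : ∀ i m u, p i (b m u) = b m (p i u) + (k m i : ℂ) • b m u)
    (hpd : ∀ i m u, p i (bd m u) = bd m (p i u) - (k m i : ℂ) • bd m u)
    (w : M → ℝ) (hw : ∀ m, 0 < w m) (Λ : ℝ) (hΛ : ∀ m, w m ≤ Λ) (V G α : ℝ) (hV : 0 < V)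
    (hG : 0 < G) (hα : 0 ≤ α) (he : ∀ i j, ∑ m, e m i * e m j = if i = j then G else 0)
    (he1 : ∀ m, ∑ i, e m i ^ 2 = 1) (hek : ∀ m, ∑ i, e m i * k m i = 0) (u : E) :
    (3 / 2 * √(α * (G / V)) - 3 / 2 * Λ) * ‖u‖ ^ 2 ≤ ∑ m, w m * ‖b m u‖ ^ 2 +
      1 / 2 * ∑ i, ‖p i u + (√α : ℂ) • (bs b (fun m => ((e m i / √(2 * V * w m) : ℝ) : ℂ)) u +
        bc bd (fun m => ((e m i / √(2 * V * w m) : ℝ) : ℂ)) u)‖ ^ 2 := by
  obtain ⟨g, hg⟩ : ∃ g : Fin 3 → M → ℂ, ∀ i,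
    g i = fun m => ((e m i / √(2 * V * w m) : ℝ) : ℂ) := ⟨_, fun _ => rfl⟩
  obtain ⟨c, hc⟩ : ∃ c : Fin 3 → M → ℂ, ∀ i,
    c i = fun m => ((e m i * √(w m) : ℝ) : ℂ) := ⟨_, fun _ => rfl⟩
  simp_rw [← hg]
  -- the operators
  obtain ⟨P, hP⟩ : ∃ P : Fin 3 → E → E, ∀ i u, P i u = p i u + (√α : ℂ) •
    (bs b (g i) u + bc bd (g i) u) := ⟨_, fun _ _ => rfl⟩
  obtain ⟨Q, hQ⟩ : ∃ Q : Fin 3 → E → E, ∀ i u, Q i u =
    (-Complex.I * ((1 / √(2 * V) : ℝ) : ℂ)) • (bs b (c i) u - bc bd (c i) u) := ⟨_, fun _ _ => rfl⟩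
  have hgr : ∀ i m, conj (g i m) = g i m := fun i m => by rw [hg]; exact Complex.conj_ofReal _
  have hcr : ∀ i m, conj (c i m) = c i m := fun i m => by rw [hc]; exact Complex.conj_ofReal _
  have hPs : ∀ i u v, ⟪P i u, v⟫_ℂ = ⟪u, P i v⟫_ℂ := by
    intro i u v
    rw [hP, hP, inner_add_left, inner_add_right, inner_smul_left, inner_smul_right,
      Complex.conj_ofReal, inner_add_left, inner_add_right, h.adj', h.adj2, hp]
    ring
  have hQs : ∀ i u v, ⟪Q i u, v⟫_ℂ = ⟪u, Q i v⟫_ℂ := by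
    intro i u v
    rw [hQ, hQ, inner_smul_left, inner_smul_right, inner_sub_left, inner_sub_right, h.adj', h.adj2]
    simp only [map_mul, map_neg, Complex.conj_I, Complex.conj_ofReal]
    ring
  have hGm : (Fintype.card M : ℝ) = 3 * G := by
    have h1 : ∑ i : Fin 3, ∑ m, e m i * e m i = 3 * G := by
      simp_rw [he]
      simp
    rw [Finset.sum_comm] at h1
    rw [← h1]
    have h2 : ∀ m, ∑ i, e m i * e m i = 1 := fun m => by
      rw [← he1 m]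
      exact Finset.sum_congr rfl fun i _ => by ring
    simp_rw [h2]
    simp
  have hgc : ∑ i, ∑ m, conj (g i m) * c i m = ((3 * G / √(2 * V) : ℝ) : ℂ) := by
    rw [Finset.sum_comm, ← hGm]
    have h1 : ∀ m, ∑ i, conj (g i m) * c i m = ((1 / √(2 * V) : ℝ) : ℂ) := by
      intro m
      have h2 : ∀ i, conj (g i m) * c i m = ((e m i ^ 2 * (1 / √(2 * V)) : ℝ) : ℂ) := by
        intro i
        rw [hgr, hg, hc, ← Complex.ofReal_mul]
        congr 1
        have hw1 : 0 < √(w m) := Real.sqrt_pos.2 (hw m)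
        have hV1 : 0 < √(2 * V) := Real.sqrt_pos.2 (by positivity)
        rw [Real.sqrt_mul (by positivity)]
        field_simp
      simp_rw [h2]
      rw [← Complex.ofReal_sum, ← Finset.sum_mul, he1, one_mul]
    simp_rw [h1]
    rw [Finset.sum_const, Finset.card_univ, nsmul_eq_mul, ← Complex.ofReal_natCast,
      ← Complex.ofReal_mul]
    congr 1
    ring
  have hcg : ∑ i, ∑ m, conj (c i m) * g i m = ((3 * G / √(2 * V) : ℝ) : ℂ) := by
    rw [← hgc]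
    refine Finset.sum_congr rfl fun i _ => Finset.sum_congr rfl fun m _ => ?_
    rw [hgr, hcr, mul_comm]
  have hps : ∀ i u, p i (bs b (c i) u) = bs b (c i) (p i u) +
      ∑ m, (c i m * k m i) • b m u := by
    intro i u
    unfold bs
    rw [map_sum, ← Finset.sum_add_distrib]
    refine Finset.sum_congr rfl fun m _ => ?_
    rw [map_smul, hpb, smul_add, smul_smul, hcr]
  have hpc : ∀ i u, p i (bc bd (c i) u) = bc bd (c i) (p i u) -
      ∑ m, (c i m * k m i) • bd m u := by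
    intro i u
    unfold bc
    rw [map_sum, ← Finset.sum_sub_distrib]
    refine Finset.sum_congr rfl fun m _ => ?_
    rw [map_smul, hpd, smul_sub, smul_smul]
  have hck : ∀ m, ∑ i, c i m * (k m i : ℂ) = 0 := by
    intro m
    have : ∀ i, c i m * (k m i : ℂ) = ((√(w m) * (e m i * k m i) : ℝ) : ℂ) := fun i => by
      rw [hc]
      push_cast
      ring
    simp_rw [this]
    rw [← Complex.ofReal_sum, ← Finset.mul_sum, hek, mul_zero, Complex.ofReal_zero]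
  obtain ⟨B, hB⟩ : ∃ B : Fin 3 → E → E, ∀ i u, B i u = bs b (c i) u - bc bd (c i) u :=
    ⟨_, fun _ _ => rfl⟩
  have hQB : ∀ i u, Q i u = (-Complex.I * ((1 / √(2 * V) : ℝ) : ℂ)) • B i u := fun i u => by
    rw [hQ, hB]
  have hPl : ∀ i (z : ℂ) u, P i (z • u) = z • P i u := by
    intro i z u
    rw [hP, hP, map_smul, bs_smul, bc_smul]
    module
  have hcomm1 : ∀ i, P i (B i u) - B i (P i u) = ∑ m, (c i m * k m i) • b m u +
      ∑ m, (c i m * k m i) • bd m u - (√α : ℂ) • ((∑ m, conj (g i m) * c i m) • u +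
        (∑ m, conj (c i m) * g i m) • u) := by
    intro i
    have e1 : P i (B i u) = p i (bs b (c i) u) - p i (bc bd (c i) u) + (√α : ℂ) •
        (bs b (g i) (bs b (c i) u) - bs b (g i) (bc bd (c i) u) + bc bd (g i) (bs b (c i) u) -
          bc bd (g i) (bc bd (c i) u)) := by
      rw [hP, hB, map_sub, sub_eq_add_neg (bs b (c i) u), bs_add, bc_add,
        ← neg_one_smul ℂ (bc bd (c i) u), bs_smul, bc_smul]
      module
    have e2 : B i (P i u) = bs b (c i) (p i u) - bc bd (c i) (p i u) + (√α : ℂ) •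
        (bs b (c i) (bs b (g i) u) + bs b (c i) (bc bd (g i) u) - bc bd (c i) (bs b (g i) u) -
          bc bd (c i) (bc bd (g i) u)) := by
      rw [hP, hB, bs_add, bc_add, bs_smul, bc_smul, bs_add, bc_add]
      module
    rw [e1, e2, hps, hpc, h.com' (g i) (c i), h.com' (c i) (g i), h.comb' (g i) (c i),
      h.comd' (g i) (c i)]
    module
  have hcomm : ∑ i, (P i (Q i u) - Q i (P i u)) =
      (Complex.I * ((√α * (3 * G / V) : ℝ) : ℂ)) • u := by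
    have e1 : ∀ i, P i (Q i u) - Q i (P i u) = (-Complex.I * ((1 / √(2 * V) : ℝ) : ℂ)) •
        (P i (B i u) - B i (P i u)) := by
      intro i
      rw [hQB, hQB, hPl, smul_sub]
    simp_rw [e1]
    rw [← Finset.smul_sum]
    simp_rw [hcomm1]
    rw [Finset.sum_sub_distrib, Finset.sum_add_distrib]
    have e2 : ∀ d : M → E →ₗ[ℂ] E, ∑ i, ∑ m, (c i m * k m i) • d m u = 0 := by
      intro d
      rw [Finset.sum_comm]
      simp_rw [← Finset.sum_smul, hck, zero_smul]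
      exact Finset.sum_const_zero
    rw [e2, e2, ← Finset.smul_sum, Finset.sum_add_distrib, ← Finset.sum_smul, ← Finset.sum_smul,
      hgc, hcg, add_zero, zero_sub, ← add_smul, smul_smul, ← neg_smul, smul_smul]
    congr 1
    have hV2 : √(2 * V) * √(2 * V) = 2 * V := Real.mul_self_sqrt (by positivity)
    have hV1 : 0 < √(2 * V) := Real.sqrt_pos.2 (by positivity)
    have e3 : (1 / √(2 * V)) * (√α * (3 * G / √(2 * V) + 3 * G / √(2 * V))) =
        √α * (3 * G / V) := by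
      have : (1 / √(2 * V)) * (√α * (3 * G / √(2 * V) + 3 * G / √(2 * V))) =
        √α * (6 * G) / (√(2 * V) * √(2 * V)) := by
        field_simp
        ring
      rw [this, hV2]
      field_simp
      ring
    rw [← e3]
    push_cast
    ring
  have hIm : ∑ i, (⟪P i u, Q i u⟫_ℂ).im = √α * (3 / 2 * (G / V)) * ‖u‖ ^ 2 := by
    have e1 : ⟪u, ∑ i, (P i (Q i u) - Q i (P i u))⟫_ℂ =
        ∑ i, (⟪P i u, Q i u⟫_ℂ - ⟪Q i u, P i u⟫_ℂ) := by
      rw [inner_sum]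
      refine Finset.sum_congr rfl fun i _ => ?_
      rw [inner_sub_right, hPs i u (Q i u), hQs i u (P i u)]
    rw [hcomm, inner_smul_right] at e1
    have e2 := congrArg Complex.im e1
    rw [Complex.im_sum] at e2
    have e3 : ∀ i, (⟪P i u, Q i u⟫_ℂ - ⟪Q i u, P i u⟫_ℂ).im = 2 * (⟪P i u, Q i u⟫_ℂ).im := by
      intro i
      rw [← inner_conj_symm (Q i u) (P i u), Complex.sub_im, Complex.conj_im]
      ring
    simp_rw [e3] at e2
    rw [← Finset.mul_sum] at e2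
    have e4 : (Complex.I * ((√α * (3 * G / V) : ℝ) : ℂ) * ⟪u, u⟫_ℂ).im =
        √α * (3 * G / V) * ‖u‖ ^ 2 := by
      rw [mul_assoc, Complex.I_mul_im, Complex.re_ofReal_mul, re_self]
    have e5 : √α * (3 * G / V) * ‖u‖ ^ 2 = 2 * (√α * (3 / 2 * (G / V)) * ‖u‖ ^ 2) := by ring
    rw [e4, e5] at e2
    linarith
  have hν : 0 < G / V := by positivity
  have hsν : 0 < √(G / V) := Real.sqrt_pos.2 hν
  have hPQ : ∀ i, 1 / √(G / V) * (⟪P i u, Q i u⟫_ℂ).im ≤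
      1 / 2 * ‖P i u‖ ^ 2 + V / (2 * G) * ‖Q i u‖ ^ 2 := by
    intro i
    have e1 : (⟪P i u, Q i u⟫_ℂ).im ≤ ‖P i u‖ * ‖Q i u‖ :=
      (Complex.abs_im_le_norm _ |> (le_abs_self _).trans).trans (norm_inner_le_norm _ _)
    have e2 : 1 / √(G / V) * (⟪P i u, Q i u⟫_ℂ).im ≤ 1 / √(G / V) * (‖P i u‖ * ‖Q i u‖) :=
      mul_le_mul_of_nonneg_left e1 (by positivity)
    refine e2.trans ?_
    have e3 : 0 ≤ (‖P i u‖ - 1 / √(G / V) * ‖Q i u‖) ^ 2 := sq_nonneg _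
    have e4 : (1 / √(G / V)) ^ 2 = V / G := by
      rw [div_pow, one_pow, Real.sq_sqrt hν.le, one_div_div]
    have e5 : V / (2 * G) = 1 / 2 * (V / G) := by
      field_simp
    rw [e5, ← e4]
    nlinarith
  have hQn : ∀ i, ‖Q i u‖ ^ 2 ≤ 1 / V * (2 * ‖bs b (c i) u‖ ^ 2 +
      (∑ m, ‖c i m‖ ^ 2) * ‖u‖ ^ 2) := by
    intro i
    rw [hQ, norm_smul, mul_pow, norm_mul, norm_neg, Complex.norm_I, one_mul, Complex.norm_real,
      Real.norm_eq_abs, sq_abs, div_pow, one_pow, Real.sq_sqrt (by positivity)]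
    have e1 := h.norm_bc (c i) u
    have e2 : ‖bs b (c i) u - bc bd (c i) u‖ ^ 2 ≤ 2 * ‖bs b (c i) u‖ ^ 2 +
        2 * ‖bc bd (c i) u‖ ^ 2 := by
      have e3 : ‖bs b (c i) u - bc bd (c i) u‖ ≤ ‖bs b (c i) u‖ + ‖bc bd (c i) u‖ :=
        norm_sub_le _ _
      have e4 : 0 ≤ (‖bs b (c i) u‖ - ‖bc bd (c i) u‖) ^ 2 := sq_nonneg _
      have e5 : ‖bs b (c i) u - bc bd (c i) u‖ ^ 2 ≤ (‖bs b (c i) u‖ + ‖bc bd (c i) u‖) ^ 2 :=
        pow_le_pow_left₀ (norm_nonneg _) e3 2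
      nlinarith
    rw [e1] at e2
    have e6 : 1 / (2 * V) * ‖bs b (c i) u - bc bd (c i) u‖ ^ 2 ≤ 1 / (2 * V) *
        (2 * ‖bs b (c i) u‖ ^ 2 + 2 * (‖bs b (c i) u‖ ^ 2 + (∑ m, ‖c i m‖ ^ 2) * ‖u‖ ^ 2)) :=
      mul_le_mul_of_nonneg_left e2 (by positivity)
    refine e6.trans (le_of_eq ?_)
    field_simp
    ring
  have hcs : ∑ i, ∑ m, ‖c i m‖ ^ 2 ≤ 3 * G * Λ := by
    rw [Finset.sum_comm, ← hGm]
    have e1 : ∀ m, ∑ i, ‖c i m‖ ^ 2 = w m := by
      intro m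
      have e2 : ∀ i, ‖c i m‖ ^ 2 = e m i ^ 2 * w m := by
        intro i
        rw [hc, Complex.norm_real, Real.norm_eq_abs, sq_abs, mul_pow, Real.sq_sqrt (hw m).le]
      simp_rw [e2]
      rw [← Finset.sum_mul, he1, one_mul]
    simp_rw [e1]
    calc ∑ m, w m ≤ ∑ _m : M, Λ := Finset.sum_le_sum fun m _ => hΛ m
      _ = Fintype.card M * Λ := by rw [Finset.sum_const, Finset.card_univ, nsmul_eq_mul]
  have hbes : ∑ i, ‖bs b (c i) u‖ ^ 2 ≤ G * ∑ m, w m * ‖b m u‖ ^ 2 := by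
    have e1 := bessel (fun i m => e m i) G hG he (fun m => ((√(w m) : ℝ) : ℂ) • b m u)
    have e2 : ∀ m, ‖((√(w m) : ℝ) : ℂ) • b m u‖ ^ 2 = w m * ‖b m u‖ ^ 2 := by
      intro m
      rw [norm_smul, mul_pow, Complex.norm_real, Real.norm_eq_abs, sq_abs, Real.sq_sqrt (hw m).le]
    simp_rw [e2] at e1
    refine le_trans (le_of_eq ?_) e1
    refine Finset.sum_congr rfl fun i _ => ?_
    unfold bs
    congr 2
    refine Finset.sum_congr rfl fun m _ => ?_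
    rw [hcr, hc, smul_smul, ← Complex.ofReal_mul]
  have hu : 0 ≤ ‖u‖ ^ 2 := by positivity
  have h1 : 1 / √(G / V) * (√α * (3 / 2 * (G / V)) * ‖u‖ ^ 2) ≤
      1 / 2 * ∑ i, ‖P i u‖ ^ 2 + V / (2 * G) * ∑ i, ‖Q i u‖ ^ 2 := by
    rw [← hIm, Finset.mul_sum, Finset.mul_sum, Finset.mul_sum, ← Finset.sum_add_distrib]
    exact Finset.sum_le_sum fun i _ => hPQ i
  have h2 : ∑ i, ‖Q i u‖ ^ 2 ≤ 1 / V * (2 * ∑ i, ‖bs b (c i) u‖ ^ 2 +
      (∑ i, ∑ m, ‖c i m‖ ^ 2) * ‖u‖ ^ 2) := by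
    refine (Finset.sum_le_sum fun i _ => hQn i).trans (le_of_eq ?_)
    rw [← Finset.mul_sum, Finset.sum_add_distrib, ← Finset.mul_sum, Finset.sum_mul]
  have h3 : V / (2 * G) * ∑ i, ‖Q i u‖ ^ 2 ≤ ∑ m, w m * ‖b m u‖ ^ 2 + 3 / 2 * Λ * ‖u‖ ^ 2 := by
    have e1 : ∑ i, ‖Q i u‖ ^ 2 ≤ 1 / V * (2 * (G * ∑ m, w m * ‖b m u‖ ^ 2) +
        (3 * G * Λ) * ‖u‖ ^ 2) := by
      refine h2.trans (mul_le_mul_of_nonneg_left ?_ (by positivity))
      have := mul_le_mul_of_nonneg_right hcs hu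
      linarith
    refine (mul_le_mul_of_nonneg_left e1 (by positivity)).trans (le_of_eq ?_)
    field_simp
  have h4 : 1 / √(G / V) * (√α * (3 / 2 * (G / V)) * ‖u‖ ^ 2) =
      3 / 2 * √(α * (G / V)) * ‖u‖ ^ 2 := by
    have e1 : G / V = √(G / V) * √(G / V) := (Real.mul_self_sqrt hν.le).symm
    rw [Real.sqrt_mul hα]
    have e2 : 1 / √(G / V) * (√α * (3 / 2 * (G / V)) * ‖u‖ ^ 2) =
      3 / 2 * √α * ((G / V) / √(G / V)) * ‖u‖ ^ 2 := by ring
    have e3 : (G / V) / √(G / V) = √(G / V) := Real.div_sqrt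
    rw [e2, e3]
    ring
  rw [h4] at h1
  simp_rw [← hP]
  linarith

end Pool.Agent.Y660.FB
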