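import Pool.Agent.Y660.FB.Lat

/-!
# The field in the cube

MP_791321_mp (helper660)
-/

set_option autoImplicit false

namespace Pool.Agent.Y660.FB

open MeasureTheory

variable {Λ L : ℝ} [Fintype (KK Λ L)]

/-- the sum over the modes -/
lemma sum_mode {ε : (Fin 3 → ℤ) → Fin 2 → Fin 3 → ℝ} (hL : 0 < L) (hε : IsPol L ε)
    (w : (Fin 3 → ℤ) → ℝ) (i j : Fin 3) :
    ∑ m : Mode Λ L, w m.1 * (ε m.1 m.2 i * ε m.1 m.2 j) =
      ∑ n : KK Λ L, w n * ((if i = j then 1 else 0) - un L n i * un L n j) := by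
  rw [Fintype.sum_prod_type]
  refine Finset.sum_congr rfl fun n _ => ?_
  rw [← pol_sum hL hε n.2.1 i j, Finset.mul_sum]

/-- the constant `G` -/
noncomputable def GG (Λ L : ℝ) [Fintype (KK Λ L)] : ℝ := 2 / 3 * Fintype.card (KK Λ L)

/-- the constant `κ` -/
noncomputable def kk (Λ L : ℝ) [Fintype (KK Λ L)] : ℝ :=
  2 / 3 * ∑ n : KK Λ L, 1 / (2 * L ^ 3 * len (wv L n))

/-- the properties of the modes of the cube -/
theorem box_iso {ε : (Fin 3 → ℤ) → Fin 2 → Fin 3 → ℝ} (hL : 0 < L) (hε : IsPol L ε)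
    (hc : 0 < Fintype.card (KK Λ L)) : Iso (boxF Λ L ε) Λ (GG Λ L) (kk Λ L) where
  hV := by
    show 0 < L ^ 3
    positivity
  hG := by
    unfold GG
    positivity
  hκ0 := by
    unfold kk
    obtain ⟨n⟩ := Fintype.card_pos_iff.1 hc
    have : 0 < ∑ n : KK Λ L, 1 / (2 * L ^ 3 * len (wv L n)) := by
      refine Finset.sum_pos (fun n _ => ?_) ⟨n, Finset.mem_univ n⟩
      have := wv_ne hL n.2.1
      positivity
    positivity
  he i j := by
    have h1 := sum_mode (Λ := Λ) hL hε (fun _ => 1) i j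
    have h2 := iso_sum (Λ := Λ) hL (fun _ => 1) i j
    simp only [one_mul] at h1 h2
    show ∑ m : Mode Λ L, ε m.1 m.2 i * ε m.1 m.2 j = _
    rw [h1, h2]
    unfold GG
    simp
  he1 m := by
    have h1 := (hε m.1 m.1.2.1).1 m.2 m.2
    rw [if_pos rfl] at h1
    rw [← h1]
    unfold dot
    exact Finset.sum_congr rfl fun i _ => sq _
  hek m := (hε m.1 m.1.2.1).2 m.2
  hw m := wv_ne hL m.1.2.1
  hΛ m := m.1.2.2.le
  hκ i j := by
    have h0 : ∀ m : Mode Λ L, gc (boxF Λ L ε) i m * gc (boxF Λ L ε) j m =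
        1 / (2 * L ^ 3 * len (wv L m.1)) * (ε m.1 m.2 i * ε m.1 m.2 j) := by
      intro m
      have h3 := wv_ne hL m.1.2.1
      unfold gc boxF
      have h4 : √(2 * L ^ 3 * len (wv L m.1)) * √(2 * L ^ 3 * len (wv L m.1)) =
        2 * L ^ 3 * len (wv L m.1) := Real.mul_self_sqrt (by positivity)
      show ε m.1 m.2 i / √(2 * L ^ 3 * len (wv L m.1)) *
        (ε m.1 m.2 j / √(2 * L ^ 3 * len (wv L m.1))) = _
      rw [div_mul_div_comm, h4]
      ring
    simp_rw [h0]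
    rw [sum_mode hL hε (fun n => 1 / (2 * L ^ 3 * len (wv L n))) i j,
      iso_sum hL (fun r => 1 / (2 * L ^ 3 * r)) i j]
    rfl
  hodd y i j := by
    have h0 : ∀ m : Mode Λ L, gc (boxF Λ L ε) i m * gc (boxF Λ L ε) j m *
        Real.sin (dot ((boxF Λ L ε).k m) y) =
        1 / (2 * L ^ 3 * len (wv L m.1)) * Real.sin (dot (wv L m.1) y) *
          (ε m.1 m.2 i * ε m.1 m.2 j) := by
      intro m
      have h3 := wv_ne hL m.1.2.1
      unfold gc boxF
      have h4 : √(2 * L ^ 3 * len (wv L m.1)) * √(2 * L ^ 3 * len (wv L m.1)) =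
        2 * L ^ 3 * len (wv L m.1) := Real.mul_self_sqrt (by positivity)
      show ε m.1 m.2 i / √(2 * L ^ 3 * len (wv L m.1)) *
        (ε m.1 m.2 j / √(2 * L ^ 3 * len (wv L m.1))) * Real.sin (dot (wv L m.1) y) = _
      rw [div_mul_div_comm, h4]
      ring
    simp_rw [h0]
    rw [sum_mode hL hε (fun n => 1 / (2 * L ^ 3 * len (wv L n)) * Real.sin (dot (wv L n) y)) i j]
    refine Eq.trans ?_ (odd_sum (Λ := Λ) (L := L) (fun r => 1 / (2 * L ^ 3 * r)) i j y)
    refine Finset.sum_congr rfl fun n _ => ?_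
    ring

/-- `κ ≥ ν / (2 Λ)` -/
lemma kk_ge (hL : 0 < L) (hΛ : 0 < Λ) : GG Λ L / L ^ 3 / (2 * Λ) ≤ kk Λ L := by
  unfold GG kk
  have h1 : ∑ n : KK Λ L, 1 / (2 * L ^ 3 * Λ) ≤ ∑ n : KK Λ L, 1 / (2 * L ^ 3 * len (wv L n)) := by
    refine Finset.sum_le_sum fun n _ => ?_
    have h2 := wv_ne hL n.2.1
    have h3 := n.2.2.le
    refine one_div_le_one_div_of_le (by positivity) ?_
    exact mul_le_mul_of_nonneg_left h3 (by positivity)
  rw [Finset.sum_const, Finset.card_univ, nsmul_eq_mul] at h1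
  have h4 : 2 / 3 * (Fintype.card (KK Λ L) : ℝ) / L ^ 3 / (2 * Λ) =
      2 / 3 * (Fintype.card (KK Λ L) * (1 / (2 * L ^ 3 * Λ))) := by
    field_simp
  rw [h4]
  exact mul_le_mul_of_nonneg_left h1 (by norm_num)

/-- many modes -/
lemma card_ge (hL : 0 < L) (hΛ : 0 < Λ) (hΛL : 8 * Real.pi ≤ Λ * L) :
    (Λ * L / (8 * Real.pi)) ^ 3 ≤ Fintype.card (KK Λ L) := by
  have hpi := Real.pi_pos
  obtain ⟨B, hB⟩ : ∃ B : ℕ, B = ⌊Λ * L / (4 * Real.pi)⌋₊ := ⟨_, rfl⟩
  have hB1 : (B : ℝ) ≤ Λ * L / (4 * Real.pi) := by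
    rw [hB]
    exact Nat.floor_le (by positivity)
  have hB2 : Λ * L / (8 * Real.pi) ≤ B := by
    have h1 : Λ * L / (4 * Real.pi) < B + 1 := by
      rw [hB]
      exact Nat.lt_floor_add_one _
    have h2 : 1 ≤ Λ * L / (8 * Real.pi) := by
      rw [le_div_iff₀ (by positivity)]
      linarith
    have h3 : Λ * L / (4 * Real.pi) = 2 * (Λ * L / (8 * Real.pi)) := by
      field_simp
      norm_num
    linarith
  have hcard : B ^ 3 ≤ Fintype.card (KK Λ L) := by
    obtain ⟨S, hS⟩ : ∃ S : Finset (Fin 3 → ℤ), S = Fintype.piFinset (fun _ => Finset.Icc (1 : ℤ) B) :=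
      ⟨_, rfl⟩
    have hScard : S.card = B ^ 3 := by
      rw [hS, Fintype.card_piFinset]
      simp
    have hSK : ∀ n ∈ S, n ∈ KK Λ L := by
      intro n hn
      rw [hS, Fintype.mem_piFinset] at hn
      have hn' : ∀ i, 1 ≤ n i ∧ n i ≤ B := fun i => Finset.mem_Icc.1 (hn i)
      have hn0 : n ≠ 0 := by
        intro h0
        have := (hn' 0).1
        rw [h0] at this
        simp at this
      have hB0 : (1 : ℝ) ≤ B := by
        have h1 := (hn' 0).1.trans (hn' 0).2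
        exact_mod_cast h1
      refine ⟨hn0, ?_⟩
      unfold len
      rw [Real.sqrt_lt' hΛ]
      have h1 : dot (wv L n) (wv L n) ≤ 3 * (2 * Real.pi / L * B) ^ 2 := by
        unfold dot
        have h2 : ∀ i, wv L n i * wv L n i ≤ (2 * Real.pi / L * B) ^ 2 := by
          intro i
          have h3 : (1 : ℝ) ≤ n i := by exact_mod_cast (hn' i).1
          have h4 : (n i : ℝ) ≤ B := by exact_mod_cast (hn' i).2
          unfold wv
          rw [sq]
          have h5 : 2 * Real.pi / L * (n i : ℝ) ≤ 2 * Real.pi / L * B :=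
            mul_le_mul_of_nonneg_left h4 (by positivity)
          exact mul_le_mul h5 h5 (by positivity) (by positivity)
        calc ∑ i, wv L n i * wv L n i ≤ ∑ _i : Fin 3, (2 * Real.pi / L * B) ^ 2 :=
              Finset.sum_le_sum fun i _ => h2 i
          _ = 3 * (2 * Real.pi / L * B) ^ 2 := by
              rw [Finset.sum_const, Finset.card_univ, Fintype.card_fin, nsmul_eq_mul]
              norm_num
      refine h1.trans_lt ?_
      have h6 : 2 * Real.pi / L * B ≤ Λ / 2 := by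
        calc 2 * Real.pi / L * B ≤ 2 * Real.pi / L * (Λ * L / (4 * Real.pi)) :=
              mul_le_mul_of_nonneg_left hB1 (by positivity)
          _ = Λ / 2 := by
              field_simp
              norm_num
      have h7 : (2 * Real.pi / L * B) ^ 2 ≤ (Λ / 2) ^ 2 := pow_le_pow_left₀ (by positivity) h6 2
      have h8 : 0 < Λ ^ 2 := by positivity
      nlinarith
    have h9 : S.card ≤ (Finset.univ : Finset (KK Λ L)).card := by
      refine Finset.card_le_card_of_surjOn (fun n : KK Λ L => (n : Fin 3 → ℤ)) ?_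
      intro n hn
      exact ⟨⟨n, hSK n hn⟩, Finset.mem_coe.2 (Finset.mem_univ _), rfl⟩
    rw [hScard, Finset.card_univ] at h9
    exact h9
  calc (Λ * L / (8 * Real.pi)) ^ 3 ≤ (B : ℝ) ^ 3 := pow_le_pow_left₀ (by positivity) hB2 3
    _ ≤ Fintype.card (KK Λ L) := by exact_mod_cast hcard

/-- the constant `ν = G / V` -/
lemma nu_ge (hL : 0 < L) (hΛ : 0 < Λ) (hΛL : 8 * Real.pi ≤ Λ * L) :
    2 / 3 * (Λ / (8 * Real.pi)) ^ 3 ≤ GG Λ L / L ^ 3 := by
  have hpi := Real.pi_pos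
  have h1 := card_ge hL hΛ hΛL
  unfold GG
  rw [le_div_iff₀ (by positivity)]
  have h2 : 2 / 3 * (Λ / (8 * Real.pi)) ^ 3 * L ^ 3 = 2 / 3 * (Λ * L / (8 * Real.pi)) ^ 3 := by
    ring
  rw [h2]
  exact mul_le_mul_of_nonneg_left h1 (by norm_num)

end Pool.Agent.Y660.FB
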