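import Pool.Agent.Y660.FB.Up

/-!
# Localised antisymmetric wave functions of `N` particles

MP_791321_mp (helper660)
-/

set_option autoImplicit false

namespace Pool.Agent.Y660.FB

open MeasureTheory

/-- localised functions with controlled derivatives -/
theorem exists_bump (N : ℕ) : ∃ C : ℝ, 0 < C ∧ ∀ R : ℝ, 0 < R →
    ∃ Φ : (Fin N → Fin 3 → ℝ) → ℝ, ContDiff ℝ (⊤ : ℕ∞) Φ ∧ HasCompactSupport Φ ∧
    (∀ (σ : Equiv.Perm (Fin N)) x, Φ (x ∘ σ) = ((Equiv.Perm.sign σ : ℤ) : ℝ) * Φ x) ∧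
    (∀ x, Φ x ≠ 0 → ∀ j, dot (x j) (x j) ≤ R ^ 2) ∧ 0 < ∫ x, Φ x ^ 2 ∧
    (∫ x, gr Φ x) ≤ C / R ^ 2 * ∫ x, Φ x ^ 2 := by
  obtain ⟨f, hf, hf'⟩ : ∃ f : ContDiffBump (0 : Fin 3 → ℝ), f.rOut = 1 / 2 ∧ f.rIn = 1 / 4 :=
    ⟨⟨1 / 4, 1 / 2, by norm_num, by norm_num⟩, rfl, rfl⟩
  obtain ⟨D, hD⟩ : ∃ D : (Fin N → Fin 3 → ℝ) → ℝ, ∀ x, D x =
    (Matrix.vandermonde (fun j => x j 0)).det := ⟨_, fun _ => rfl⟩
  obtain ⟨P, hP⟩ : ∃ P : (Fin N → Fin 3 → ℝ) → ℝ, ∀ x, P x = (∏ j, f (x j)) * D x :=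
    ⟨_, fun _ => rfl⟩
  have hP' : P = fun x => (∏ j, f (x j)) * D x := funext hP
  have hDs : ContDiff ℝ (⊤ : ℕ∞) D := by
    have hD' : D = fun x => (Matrix.vandermonde (fun j => x j 0)).det := funext hD
    rw [hD']
    simp_rw [Matrix.det_apply]
    refine ContDiff.sum fun σ _ => ?_
    refine ContDiff.const_smul _ ?_
    refine contDiff_prod fun j _ => ?_
    simp only [Matrix.vandermonde_apply]
    refine ContDiff.pow ?_ _
    exact (contDiff_apply ℝ ℝ (0 : Fin 3)).comp (contDiff_apply ℝ (Fin 3 → ℝ) (σ j))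
  have hDa : ∀ (σ : Equiv.Perm (Fin N)) x, D (x ∘ σ) = ((Equiv.Perm.sign σ : ℤ) : ℝ) * D x := by
    intro σ x
    rw [hD, hD, ← Matrix.det_permute]
    rfl
  have hPs : ContDiff ℝ (⊤ : ℕ∞) P := by
    rw [hP']
    refine (contDiff_prod fun j _ => ?_).mul hDs
    exact f.contDiff.comp (contDiff_apply ℝ (Fin 3 → ℝ) j)
  have hsupp : ∀ x, P x ≠ 0 → ∀ j, ‖x j‖ < 1 / 2 := by
    intro x hx j
    rw [hP] at hx
    have h1 := Finset.prod_ne_zero_iff.1 (left_ne_zero_of_mul hx) j (Finset.mem_univ j)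
    by_contra hcon
    apply h1
    apply f.zero_of_le_dist
    rw [hf, dist_zero_right]
    linarith
  have hPc : HasCompactSupport P := by
    refine HasCompactSupport.intro (isCompact_closedBall (0 : Fin N → Fin 3 → ℝ) (1 / 2)) ?_
    intro x hx
    by_contra hcon
    apply hx
    rw [Metric.mem_closedBall, dist_zero_right, pi_norm_le_iff_of_nonneg (by norm_num)]
    exact fun j => (hsupp x hcon j).le
  obtain ⟨x0, hx0⟩ : ∃ x0 : Fin N → Fin 3 → ℝ, ∀ j, x0 j = fun _ => (j : ℝ) / (8 * (N + 1)) :=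
    ⟨fun j _ => (j : ℝ) / (8 * (N + 1)), fun _ => rfl⟩
  have hP0 : P x0 ≠ 0 := by
    rw [hP]
    refine mul_ne_zero (Finset.prod_ne_zero_iff.2 fun j _ => ?_) ?_
    · have h1 : f (x0 j) = 1 := by
        apply f.one_of_mem_closedBall
        rw [hf', Metric.mem_closedBall, dist_zero_right, hx0,
          pi_norm_le_iff_of_nonneg (by norm_num)]
        intro i
        rw [Real.norm_eq_abs, abs_of_nonneg (by positivity), div_le_iff₀ (by positivity)]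
        have h2 : ((j : ℕ) : ℝ) < N := by exact_mod_cast j.2
        linarith
      rw [h1]
      exact one_ne_zero
    · rw [hD, Matrix.det_vandermonde_ne_zero_iff]
      intro a b hab
      simp only [hx0] at hab
      have h1 : (8 * ((N : ℝ) + 1)) ≠ 0 := by positivity
      rw [div_left_inj' h1] at hab
      have h2 : (a : ℕ) = b := by exact_mod_cast hab
      exact Fin.ext h2
  have hI : 0 < ∫ x, P x ^ 2 := by
    refine Continuous.integral_pos_of_hasCompactSupport_nonneg_nonzero (x := x0)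
      (hPs.continuous.pow 2) (hPc.comp_left (g := fun t : ℝ => t ^ 2) (by norm_num))
      (fun x => sq_nonneg _) ?_
    exact pow_ne_zero 2 hP0
  have hgn : 0 ≤ ∫ x, gr P x := by
    refine integral_nonneg fun x => ?_
    exact Finset.sum_nonneg fun j _ => Finset.sum_nonneg fun i _ => sq_nonneg _
  refine ⟨(∫ x, gr P x) / (∫ x, P x ^ 2) + 1, by positivity, fun R hR => ?_⟩
  obtain ⟨Φ, hΦ⟩ : ∃ Φ : (Fin N → Fin 3 → ℝ) → ℝ, ∀ x, Φ x = P (R⁻¹ • x) := ⟨_, fun _ => rfl⟩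
  have hΦ' : Φ = fun x => P (R⁻¹ • x) := funext hΦ
  have hnz : ∀ x, Φ x ≠ 0 → ∀ j, ‖x j‖ < R / 2 := by
    intro x hx j
    rw [hΦ] at hx
    have h1 := hsupp _ hx j
    rw [Pi.smul_apply, norm_smul, norm_inv, Real.norm_eq_abs, abs_of_pos hR] at h1
    rw [inv_mul_lt_iff₀ hR] at h1
    linarith
  have hgr : ∀ x, gr Φ x = (R⁻¹) ^ 2 * gr P (R⁻¹ • x) := by
    intro x
    unfold gr
    rw [Finset.mul_sum]
    refine Finset.sum_congr rfl fun j _ => ?_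
    rw [Finset.mul_sum]
    refine Finset.sum_congr rfl fun i _ => ?_
    rw [hΦ', fderiv_comp_smul]
    exact mul_pow R⁻¹ _ 2
  have hI2 : ∫ x, Φ x ^ 2 = R ^ Module.finrank ℝ (Fin N → Fin 3 → ℝ) * ∫ x, P x ^ 2 := by
    simp_rw [hΦ]
    rw [Measure.integral_comp_inv_smul_of_nonneg volume (fun x => P x ^ 2) hR.le]
    rfl
  have hT : ∫ x, gr Φ x = (R⁻¹) ^ 2 * (R ^ Module.finrank ℝ (Fin N → Fin 3 → ℝ) *
      ∫ x, gr P x) := by
    simp_rw [hgr]
    rw [integral_const_mul, Measure.integral_comp_inv_smul_of_nonneg volume (fun x => gr P x) hR.le]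
    rfl
  refine ⟨Φ, ?_, ?_, ?_, ?_, ?_, ?_⟩
  · rw [hΦ']
    exact hPs.comp (contDiff_const_smul R⁻¹)
  · refine HasCompactSupport.intro (isCompact_closedBall (0 : Fin N → Fin 3 → ℝ) (R / 2)) ?_
    intro x hx
    by_contra hcon
    apply hx
    rw [Metric.mem_closedBall, dist_zero_right, pi_norm_le_iff_of_nonneg (by positivity)]
    exact fun j => (hnz x hcon j).le
  · intro σ x
    have h1 : R⁻¹ • (x ∘ σ) = (R⁻¹ • x) ∘ σ := rfl
    have h2 : ∏ j, f (((R⁻¹ • x) ∘ σ) j) = ∏ j, f ((R⁻¹ • x) j) :=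
      Equiv.prod_comp σ (fun j => f ((R⁻¹ • x) j))
    rw [hΦ, hΦ, h1, hP, hP, hDa, h2]
    ring
  · intro x hx j
    have h1 := hnz x hx j
    have h2 : ∀ i, x j i * x j i ≤ (R / 2) ^ 2 := by
      intro i
      have h3 : |x j i| ≤ R / 2 := (norm_le_pi_norm (x j) i).trans h1.le
      have h4 : |x j i| * |x j i| ≤ (R / 2) * (R / 2) :=
        mul_le_mul h3 h3 (abs_nonneg _) (by positivity)
      rw [abs_mul_abs_self] at h4
      linarith
    unfold dot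
    calc ∑ i, x j i * x j i ≤ ∑ _i : Fin 3, (R / 2) ^ 2 := Finset.sum_le_sum fun i _ => h2 i
      _ = 3 * (R / 2) ^ 2 := by
        rw [Finset.sum_const, Finset.card_univ, Fintype.card_fin, nsmul_eq_mul]
        norm_num
      _ ≤ R ^ 2 := by nlinarith
  · rw [hI2]
    positivity
  · rw [hI2, hT]
    have h1 : (∫ x, gr P x) ≤ ((∫ x, gr P x) / (∫ x, P x ^ 2) + 1) * ∫ x, P x ^ 2 := by
      rw [add_mul, div_mul_cancel₀ _ hI.ne']
      linarith
    have h2 : 0 ≤ (R⁻¹) ^ 2 * R ^ Module.finrank ℝ (Fin N → Fin 3 → ℝ) := by positivity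
    calc (R⁻¹) ^ 2 * (R ^ Module.finrank ℝ (Fin N → Fin 3 → ℝ) * ∫ x, gr P x)
        = ((R⁻¹) ^ 2 * R ^ Module.finrank ℝ (Fin N → Fin 3 → ℝ)) * ∫ x, gr P x := by ring
      _ ≤ ((R⁻¹) ^ 2 * R ^ Module.finrank ℝ (Fin N → Fin 3 → ℝ)) *
          (((∫ x, gr P x) / (∫ x, P x ^ 2) + 1) * ∫ x, P x ^ 2) := mul_le_mul_of_nonneg_left h1 h2
      _ = _ := by
        rw [inv_pow]
        ring

end Pool.Agent.Y660.FB
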