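import Pool.Agent.Y660.FB.Defs
import Pool.Agent.Y660.FB.Abs

/-!
# The inner product space of the nice wave functions

MP_791321_mp (helper660)
-/

set_option autoImplicit false

namespace Pool.Agent.Y660.FB

open scoped InnerProductSpace ComplexConjugate
open MeasureTheory

variable {N : ℕ} {M : Type}

lemma Nice.cont {Ψ : WF N M} (h : Nice Ψ) (s : Fin N → Fin 2) (n : M → ℕ) :
    Continuous (fun x => Ψ x s n) := (h.smooth s n).continuous

lemma Nice.integrable {Ψ Φ : WF N M} (h : Nice Ψ) (h' : Nice Φ) (s : Fin N → Fin 2) (n : M → ℕ) :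
    Integrable (fun x => conj (Ψ x s n) * Φ x s n) := by
  refine Continuous.integrable_of_hasCompactSupport ?_ ?_
  · exact (Complex.continuous_conj.comp (h.cont s n)).mul (h'.cont s n)
  · exact (h'.supp s n).mul_left

lemma Nice.summable {Ψ : WF N M} (h : Nice Ψ) (s : Fin N → Fin 2) (c : (M → ℕ) → ℂ)
    (hc : ∀ n, (∀ x, Ψ x s n = 0) → c n = 0) : Summable c := by
  refine summable_of_hasFiniteSupport (h.fin.subset ?_)
  intro n hn
  by_contra hcon
  apply hn
  apply hc
  intro x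
  by_contra hx
  exact hcon ⟨x, s, hx⟩

lemma Nice.add {Ψ Φ : WF N M} (h : Nice Ψ) (h' : Nice Φ) : Nice (Ψ + Φ) where
  smooth s n := (h.smooth s n).add (h'.smooth s n)
  supp s n := (h.supp s n).add (h'.supp s n)
  fin := by
    refine (h.fin.union h'.fin).subset ?_
    rintro n ⟨x, s, hx⟩
    by_contra hcon
    simp only [Set.mem_union, Set.mem_setOf_eq, not_or, not_exists, not_not] at hcon
    apply hx
    show Ψ x s n + Φ x s n = 0
    rw [hcon.1 x s, hcon.2 x s, add_zero]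

lemma Nice.smul {Ψ : WF N M} (h : Nice Ψ) (c : ℂ) : Nice (c • Ψ) where
  smooth s n := contDiff_const.mul (h.smooth s n)
  supp s n := (h.supp s n).mul_left
  fin := by
    refine h.fin.subset ?_
    rintro n ⟨x, s, hx⟩
    refine ⟨x, s, fun h0 => hx ?_⟩
    show c • Ψ x s n = 0
    rw [h0, smul_zero]

lemma Nice.zero : Nice (0 : WF N M) where
  smooth s n := contDiff_const
  supp s n := HasCompactSupport.zero
  fin := by
    refine Set.finite_empty.subset ?_
    rintro n ⟨x, s, hx⟩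
    exact absurd rfl hx

/-- multiplication by a smooth function of the positions -/
lemma Nice.mulc {Ψ : WF N M} (h : Nice Ψ) {c : (Fin N → Fin 3 → ℝ) → ℂ}
    (hc : ContDiff ℝ (⊤ : ℕ∞) c) : Nice (fun x s n => c x * Ψ x s n) where
  smooth s n := hc.mul (h.smooth s n)
  supp s n := (h.supp s n).mul_left
  fin := by
    refine h.fin.subset ?_
    rintro n ⟨x, s, hx⟩
    refine ⟨x, s, fun h0 => hx ?_⟩
    simp only [h0, mul_zero]

lemma Nice.an [DecidableEq M] {Ψ : WF N M} (h : Nice Ψ) (m : M) : Nice (an m Ψ) where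
  smooth s n := contDiff_const.mul (h.smooth s _)
  supp s n := (h.supp s _).mul_left
  fin := by
    have hinj : Function.Injective (fun n : M → ℕ => n + Pi.single m 1) :=
      fun a b hab => add_right_cancel hab
    refine (h.fin.preimage hinj.injOn).subset ?_
    rintro n ⟨x, s, hx⟩
    refine ⟨x, s, fun h0 => hx ?_⟩
    show ((√(n m + 1 : ℝ) : ℝ) : ℂ) * Ψ x s (n + Pi.single m 1) = 0
    rw [h0, mul_zero]

lemma Nice.cr [DecidableEq M] {Ψ : WF N M} (h : Nice Ψ) (m : M) : Nice (cr m Ψ) where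
  smooth s n := contDiff_const.mul (h.smooth s _)
  supp s n := (h.supp s _).mul_left
  fin := by
    refine (h.fin.image (fun n : M → ℕ => n + Pi.single m 1)).subset ?_
    rintro n ⟨x, s, hx⟩
    have hn : n m ≠ 0 := by
      intro h0
      apply hx
      show ((√(n m : ℝ) : ℝ) : ℂ) * Ψ x s (n - Pi.single m 1) = 0
      rw [h0]
      simp
    refine ⟨n - Pi.single m 1, ⟨x, s, fun h0 => hx ?_⟩, ?_⟩
    · show ((√(n m : ℝ) : ℝ) : ℂ) * Ψ x s (n - Pi.single m 1) = 0
      rw [h0, mul_zero]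
    · funext m'
      simp only [Pi.add_apply, Pi.sub_apply]
      by_cases hm : m' = m
      · subst hm
        simp only [Pi.single_eq_same]
        omega
      · simp [Pi.single_eq_of_ne hm]

lemma Nice.diff {Ψ : WF N M} (h : Nice Ψ) (v : Fin N → Fin 3 → ℝ) :
    Nice (fun x s n => fderiv ℝ (fun y => Ψ y s n) x v : WF N M) where
  smooth s n := by
    have h1 : ContDiff ℝ (⊤ : ℕ∞) (fderiv ℝ (fun y => Ψ y s n)) :=
      (h.smooth s n).fderiv_right (by simp)
    exact h1.clm_apply contDiff_const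
  supp s n := (h.supp s n).fderiv_apply ℝ v
  fin := by
    refine h.fin.subset ?_
    rintro n ⟨x, s, hx⟩
    by_contra hcon
    apply hx
    have : (fun y => Ψ y s n) = fun _ => (0 : ℂ) := by
      funext y
      by_contra hy
      exact hcon ⟨y, s, hy⟩
    rw [this]
    simp

lemma Nice.mom {Ψ : WF N M} (h : Nice Ψ) (j : Fin N) (i : Fin 3) : Nice (mom j i Ψ) := by
  have := (h.diff (Pi.single j (Pi.single i 1))).smul (-Complex.I)
  exact this

variable (N M) in
/-- the space of the nice wave functions -/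
def Nc : Submodule ℂ (WF N M) where
  carrier := {Ψ | Nice Ψ}
  add_mem' := fun h h' => h.add h'
  zero_mem' := Nice.zero
  smul_mem' := fun c _ h => h.smul c

variable (N M) in
/-- the space of the nice wave functions -/
def Sp : Type := Nc N M

instance : AddCommGroup (Sp N M) := inferInstanceAs (AddCommGroup (Nc N M))

instance : Module ℂ (Sp N M) := inferInstanceAs (Module ℂ (Nc N M))

lemma Sp.nice (Ψ : Sp N M) : Nice Ψ.1 := Ψ.2

lemma ip_add {Ψ Ψ' Φ : WF N M} (h : Nice Ψ) (h' : Nice Ψ') (hΦ : Nice Φ) :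
    ip (Ψ + Ψ') Φ = ip Ψ Φ + ip Ψ' Φ := by
  unfold ip
  rw [← Finset.sum_add_distrib]
  refine Finset.sum_congr rfl fun s _ => ?_
  rw [← Summable.tsum_add]
  · congr 1
    funext n
    rw [← integral_add (h.integrable hΦ s n) (h'.integrable hΦ s n)]
    congr 1
    funext x
    simp only [Pi.add_apply, map_add]
    ring
  · refine hΦ.summable s _ fun n hn => ?_
    simp [hn]
  · refine hΦ.summable s _ fun n hn => ?_
    simp [hn]

lemma ip_smul (c : ℂ) (Ψ Φ : WF N M) : ip (c • Ψ) Φ = conj c * ip Ψ Φ := by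
  unfold ip
  rw [Finset.mul_sum]
  refine Finset.sum_congr rfl fun s _ => ?_
  rw [← tsum_mul_left]
  congr 1
  funext n
  rw [← integral_const_mul]
  congr 1
  funext x
  simp only [Pi.smul_apply, smul_eq_mul, map_mul]
  ring

lemma ip_conj (Ψ Φ : WF N M) : conj (ip Φ Ψ) = ip Ψ Φ := by
  unfold ip
  rw [map_sum]
  refine Finset.sum_congr rfl fun s _ => ?_
  rw [Complex.conj_tsum]
  congr 1
  funext n
  rw [← integral_conj]
  congr 1
  funext x
  rw [map_mul, Complex.conj_conj, mul_comm]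

/-- the norm -/
lemma ip_self {Ψ : WF N M} (h : Nice Ψ) : (ip Ψ Ψ).re =
    ∑ s, ∑' n, ∫ x, ‖Ψ x s n‖ ^ 2 := by
  unfold ip
  rw [Complex.re_sum]
  refine Finset.sum_congr rfl fun s _ => ?_
  rw [Complex.re_tsum]
  · congr 1
    funext n
    have e1 : ∀ x, conj (Ψ x s n) * Ψ x s n = ((‖Ψ x s n‖ ^ 2 : ℝ) : ℂ) := by
      intro x
      rw [← Complex.normSq_eq_conj_mul_self, Complex.normSq_eq_norm_sq]
    simp_rw [e1]
    rw [integral_complex_ofReal, Complex.ofReal_re]
  · refine h.summable s _ fun n hn => ?_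
    simp [hn]

lemma ip_nonneg {Ψ : WF N M} (h : Nice Ψ) : 0 ≤ (ip Ψ Ψ).re := by
  rw [ip_self h]
  exact Finset.sum_nonneg fun s _ => tsum_nonneg fun n => integral_nonneg fun x => by positivity

lemma ip_pos {Ψ : WF N M} (h : Nice Ψ) (h0 : Ψ ≠ 0) : 0 < (ip Ψ Ψ).re := by
  obtain ⟨x0, s0, n0, hx0⟩ : ∃ x s n, Ψ x s n ≠ 0 := by
    by_contra hcon
    apply h0
    funext x s n
    by_contra hx
    exact hcon ⟨x, s, n, hx⟩
  rw [ip_self h]
  have hnn : ∀ s n, 0 ≤ ∫ x, ‖Ψ x s n‖ ^ 2 := fun s n => integral_nonneg fun x => by positivity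
  refine Finset.sum_pos' (fun s _ => tsum_nonneg fun n => hnn s n) ⟨s0, Finset.mem_univ _, ?_⟩
  have hs : Summable fun n => ∫ x, ‖Ψ x s0 n‖ ^ 2 := by
    refine summable_of_hasFiniteSupport (h.fin.subset ?_)
    intro n hn
    by_contra hcon
    apply hn
    have : ∀ x, Ψ x s0 n = 0 := by
      intro x
      by_contra hx
      exact hcon ⟨x, s0, hx⟩
    simp [this]
  refine hs.tsum_pos (fun n => hnn s0 n) n0 ?_
  refine Continuous.integral_pos_of_hasCompactSupport_nonneg_nonzero (x := x0) ?_ ?_ ?_ ?_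
  · exact (h.cont s0 n0).norm.pow 2
  · have := (h.supp s0 n0).norm
    exact this.comp_left (g := fun t : ℝ => t ^ 2) (by norm_num)
  · intro x
    positivity
  · exact pow_ne_zero 2 (norm_ne_zero_iff.2 hx0)

noncomputable instance : InnerProductSpace.Core ℂ (Sp N M) where
  inner Ψ Φ := ip Ψ.1 Φ.1
  conj_inner_symm Ψ Φ := ip_conj Ψ.1 Φ.1
  re_inner_nonneg Ψ := ip_nonneg Ψ.2
  add_left Ψ Ψ' Φ := ip_add Ψ.2 Ψ'.2 Φ.2
  smul_left Ψ Φ c := ip_smul c Ψ.1 Φ.1
  definite Ψ h := by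
    by_contra h0
    have h1 : Ψ.1 ≠ 0 := fun h2 => h0 (Subtype.ext h2)
    have h2 := ip_pos Ψ.2 h1
    have h3 : (ip Ψ.1 Ψ.1).re = 0 := by
      have : ip Ψ.1 Ψ.1 = 0 := h
      rw [this, Complex.zero_re]
    linarith

noncomputable instance : NormedAddCommGroup (Sp N M) :=
  @InnerProductSpace.Core.toNormedAddCommGroup ℂ (Sp N M) _ _ _ inferInstance

noncomputable instance : InnerProductSpace ℂ (Sp N M) := InnerProductSpace.ofCore _

lemma inner_def (Ψ Φ : Sp N M) : ⟪Ψ, Φ⟫_ℂ = ip Ψ.1 Φ.1 := rfl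

lemma norm_def (Ψ : Sp N M) : ‖Ψ‖ ^ 2 = (ip Ψ.1 Ψ.1).re := by
  rw [← re_self, inner_def]

section ops

variable [DecidableEq M]

/-- annihilation operator -/
noncomputable def anL (m : M) : Sp N M →ₗ[ℂ] Sp N M where
  toFun Ψ := ⟨an m Ψ.1, Nice.an Ψ.2 m⟩
  map_add' Ψ Φ := by
    apply Subtype.ext
    funext x s n
    exact mul_add _ _ _
  map_smul' c Ψ := by
    apply Subtype.ext
    funext x s n
    exact mul_left_comm _ _ _

/-- creation operator -/
noncomputable def crL (m : M) : Sp N M →ₗ[ℂ] Sp N M where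
  toFun Ψ := ⟨cr m Ψ.1, Nice.cr Ψ.2 m⟩
  map_add' Ψ Φ := by
    apply Subtype.ext
    funext x s n
    exact mul_add _ _ _
  map_smul' c Ψ := by
    apply Subtype.ext
    funext x s n
    exact mul_left_comm _ _ _

/-- adjointness -/
lemma ip_an (m : M) (Ψ Φ : WF N M) : ip (an m Ψ) Φ = ip Ψ (cr m Φ) := by
  unfold ip
  refine Finset.sum_congr rfl fun s _ => ?_
  have hinj : Function.Injective (fun n : M → ℕ => n + Pi.single m 1) :=
    fun a b hab => add_right_cancel hab
  have h1 := hinj.tsum_eq (f := fun n => ∫ x, conj (Ψ x s n) * cr m Φ x s n) (by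
    intro n hn
    have hn0 : n m ≠ 0 := by
      intro h0
      apply hn
      have : ∀ x, cr m Φ x s n = 0 := by
        intro x
        show ((√(n m : ℝ) : ℝ) : ℂ) * Φ x s (n - Pi.single m 1) = 0
        rw [h0]
        simp
      simp [this]
    refine ⟨n - Pi.single m 1, ?_⟩
    funext m'
    simp only [Pi.add_apply, Pi.sub_apply]
    by_cases hm : m' = m
    · subst hm
      simp only [Pi.single_eq_same]
      omega
    · simp [Pi.single_eq_of_ne hm])
  rw [← h1]
  congr 1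
  funext n
  congr 1
  funext x
  show conj (((√(n m + 1 : ℝ) : ℝ) : ℂ) * Ψ x s (n + Pi.single m 1)) * Φ x s n =
    conj (Ψ x s (n + Pi.single m 1)) * (((√((n + Pi.single m 1 : M → ℕ) m : ℕ) : ℝ) : ℂ) *
      Φ x s (n + Pi.single m 1 - Pi.single m 1))
  rw [add_tsub_cancel_right, map_mul, Complex.conj_ofReal]
  simp only [Pi.add_apply, Pi.single_eq_same]
  push_cast
  ring

lemma sub_add_s (m : M) (n : M → ℕ) (h : n m ≠ 0) : n - Pi.single m 1 + Pi.single m 1 = n := by
  funext m'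
  simp only [Pi.add_apply, Pi.sub_apply]
  by_cases hm : m' = m
  · subst hm
    simp only [Pi.single_eq_same]
    omega
  · simp [Pi.single_eq_of_ne hm]

lemma an_cr (m m' : M) (Ψ : WF N M) : an m (cr m' Ψ) = cr m' (an m Ψ) + if m = m' then Ψ else 0 := by
  funext x s n
  by_cases hm : m = m'
  · subst hm
    rw [if_pos rfl]
    show ((√(n m + 1 : ℝ) : ℝ) : ℂ) * (((√((n + Pi.single m 1 : M → ℕ) m : ℕ) : ℝ) : ℂ) *
      Ψ x s (n + Pi.single m 1 - Pi.single m 1)) = ((√(n m : ℝ) : ℝ) : ℂ) *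
      (((√(((n - Pi.single m 1 : M → ℕ) m : ℕ) + 1 : ℝ) : ℝ) : ℂ) *
        Ψ x s (n - Pi.single m 1 + Pi.single m 1)) + Ψ x s n
    rw [add_tsub_cancel_right]
    have e1 : ((√((n + Pi.single m 1 : M → ℕ) m : ℕ) : ℝ) : ℂ) = ((√(n m + 1 : ℝ) : ℝ) : ℂ) := by
      simp only [Pi.add_apply, Pi.single_eq_same]
      push_cast
      rfl
    rw [e1, ← mul_assoc, ← Complex.ofReal_mul, Real.mul_self_sqrt (by positivity)]
    by_cases h0 : n m = 0
    · rw [h0]
      simp
    · rw [sub_add_s m n h0]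
      have e2 : (((n - Pi.single m 1 : M → ℕ) m : ℕ) + 1 : ℝ) = n m := by
        simp only [Pi.sub_apply, Pi.single_eq_same]
        have : 1 ≤ n m := Nat.one_le_iff_ne_zero.2 h0
        rw [Nat.cast_sub this]
        simp
      rw [e2, ← mul_assoc, ← Complex.ofReal_mul, Real.mul_self_sqrt (by positivity)]
      push_cast
      ring
  · rw [if_neg hm, add_zero]
    show ((√(n m + 1 : ℝ) : ℝ) : ℂ) * (((√((n + Pi.single m 1 : M → ℕ) m' : ℕ) : ℝ) : ℂ) *
      Ψ x s (n + Pi.single m 1 - Pi.single m' 1)) = ((√(n m' : ℝ) : ℝ) : ℂ) *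
      (((√(((n - Pi.single m' 1 : M → ℕ) m : ℕ) + 1 : ℝ) : ℝ) : ℂ) *
        Ψ x s (n - Pi.single m' 1 + Pi.single m 1))
    have e1 : n + Pi.single m 1 - Pi.single m' 1 = n - Pi.single m' 1 + Pi.single m 1 := by
      funext l
      simp only [Pi.add_apply, Pi.sub_apply]
      by_cases h1 : l = m
      · subst h1
        rw [Pi.single_eq_of_ne hm]
        simp
      · rw [Pi.single_eq_of_ne h1]
        simp
    have e2 : (n + Pi.single m 1 : M → ℕ) m' = n m' := by
      simp [Pi.single_eq_of_ne (Ne.symm hm)]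
    have e3 : (n - Pi.single m' 1 : M → ℕ) m = n m := by
      simp [Pi.single_eq_of_ne hm]
    rw [e1, e2, e3]
    ring

lemma an_an (m m' : M) (Ψ : WF N M) : an m (an m' Ψ) = an m' (an m Ψ) := by
  funext x s n
  by_cases hm : m = m'
  · rw [hm]
  · show ((√(n m + 1 : ℝ) : ℝ) : ℂ) * (((√(((n + Pi.single m 1 : M → ℕ) m' : ℕ) + 1 : ℝ) : ℝ) : ℂ) *
      Ψ x s (n + Pi.single m 1 + Pi.single m' 1)) = ((√(n m' + 1 : ℝ) : ℝ) : ℂ) *
      (((√(((n + Pi.single m' 1 : M → ℕ) m : ℕ) + 1 : ℝ) : ℝ) : ℂ) *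
        Ψ x s (n + Pi.single m' 1 + Pi.single m 1))
    have e2 : (n + Pi.single m 1 : M → ℕ) m' = n m' := by
      simp [Pi.single_eq_of_ne (Ne.symm hm)]
    have e3 : (n + Pi.single m' 1 : M → ℕ) m = n m := by
      simp [Pi.single_eq_of_ne hm]
    rw [add_right_comm, e2, e3]
    ring

lemma cr_cr (m m' : M) (Ψ : WF N M) : cr m (cr m' Ψ) = cr m' (cr m Ψ) := by
  funext x s n
  by_cases hm : m = m'
  · rw [hm]
  · show ((√(n m : ℝ) : ℝ) : ℂ) * (((√((n - Pi.single m 1 : M → ℕ) m' : ℕ) : ℝ) : ℂ) *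
      Ψ x s (n - Pi.single m 1 - Pi.single m' 1)) = ((√(n m' : ℝ) : ℝ) : ℂ) *
      (((√((n - Pi.single m' 1 : M → ℕ) m : ℕ) : ℝ) : ℂ) *
        Ψ x s (n - Pi.single m' 1 - Pi.single m 1))
    have e2 : (n - Pi.single m 1 : M → ℕ) m' = n m' := by
      simp [Pi.single_eq_of_ne (Ne.symm hm)]
    have e3 : (n - Pi.single m' 1 : M → ℕ) m = n m := by
      simp [Pi.single_eq_of_ne hm]
    rw [tsub_right_comm, e2, e3]
    ring

/-- the canonical commutation relations -/
lemma ccr : CCR (anL (N := N) (M := M)) crL where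
  adj m Ψ Φ := ip_an m Ψ.1 Φ.1
  com m m' Ψ := by
    apply Subtype.ext
    refine (an_cr m m' Ψ.1).trans ?_
    show _ = (cr m' (an m Ψ.1)) + (if m = m' then Ψ else 0 : Sp N M).1
    congr 1
    split_ifs <;> rfl
  comb m m' Ψ := Subtype.ext (an_an m m' Ψ.1)
  comd m m' Ψ := Subtype.ext (cr_cr m m' Ψ.1)

end ops

end Pool.Agent.Y660.FB
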