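import Mathlib

/-!
# Charged particles coupled to a quantized radiation field: definitions

MP_791321_mp (helper660). Units `ħ = c = m = 1`.
-/

set_option autoImplicit false

namespace Pool.Agent.Y660.FB

open scoped ComplexConjugate

/-- the scalar product of `ℝ³` -/
def dot (k x : Fin 3 → ℝ) : ℝ := ∑ i, k i * x i

/-- the Euclidean length -/
noncomputable def len (k : Fin 3 → ℝ) : ℝ := √(dot k k)

/-- the data of a radiation field with the set of modes `M`: the volume of the cube, the wave vector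
and the polarisation vector of each mode -/
structure Fld (M : Type) where
  /-- the volume -/
  V : ℝ
  /-- the wave vectors -/
  k : M → Fin 3 → ℝ
  /-- the polarisation vectors -/
  e : M → Fin 3 → ℝ

/-- the wave functions of `N` particles with spin 1/2 and the photons: a wave function depends on the
positions `x`, the spins `s` and the numbers `n m` of the photons in the modes `m` -/
abbrev WF (N : ℕ) (M : Type) : Type :=
  (Fin N → Fin 3 → ℝ) → (Fin N → Fin 2) → (M → ℕ) → ℂ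

variable {N : ℕ} {M : Type} [DecidableEq M]

/-- the annihilation operator of the mode `m`:
`(a_m Ψ)(n) = √(n_m + 1) Ψ(n + e_m)` -/
noncomputable def an (m : M) (Ψ : WF N M) : WF N M := fun x s n =>
  ((√(n m + 1 : ℝ) : ℝ) : ℂ) * Ψ x s (n + Pi.single m 1)

/-- the creation operator of the mode `m`:
`(a*_m Ψ)(n) = √n_m Ψ(n - e_m)` -/
noncomputable def cr (m : M) (Ψ : WF N M) : WF N M := fun x s n =>
  ((√(n m : ℝ) : ℝ) : ℂ) * Ψ x s (n - Pi.single m 1)

/-- the component `i` of the vector potential at the position of the particle `j`: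
`A_i(x_j) = ∑ m, e_i(m) / √(2 V |k|) (exp (i k x_j) a_m + exp (- i k x_j) a*_m)` -/
noncomputable def vp (F : Fld M) (j : Fin N) (i : Fin 3) (Ψ : WF N M) : WF N M := fun x s n =>
  ∑ᶠ m : M, ((F.e m i / √(2 * F.V * len (F.k m)) : ℝ) : ℂ) *
    (Complex.exp (Complex.I * dot (F.k m) (x j)) * an m Ψ x s n +
      Complex.exp (-(Complex.I * dot (F.k m) (x j))) * cr m Ψ x s n)

/-- the energy of the field: `∑ m, |k| a*_m a_m` -/
noncomputable def Hf (F : Fld M) (Ψ : WF N M) : WF N M := fun x s n =>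
  ∑ᶠ m : M, (len (F.k m) : ℂ) * cr m (an m Ψ) x s n

/-- the component `i` of the momentum of the particle `j`: `-i ∂ / ∂ x_{j,i}` -/
noncomputable def mom (j : Fin N) (i : Fin 3) (Ψ : WF N M) : WF N M := fun x s n =>
  -Complex.I * fderiv ℝ (fun y => Ψ y s n) x (Pi.single j (Pi.single i 1))

/-- the component `i` of `p_j + √α A(x_j)` -/
noncomputable def kin (F : Fld M) (α : ℝ) (j : Fin N) (i : Fin 3) (Ψ : WF N M) : WF N M :=
  mom j i Ψ + ((√α : ℝ) : ℂ) • vp F j i Ψ

/-- the Hamiltonian `H(N) = H_f + (1 / 2) ∑ j, (p_j + √α A(x_j)) ^ 2` -/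
noncomputable def Ham (F : Fld M) (α : ℝ) (Ψ : WF N M) : WF N M :=
  Hf F Ψ + (1 / 2 : ℂ) • ∑ j, ∑ i, kin F α j i (kin F α j i Ψ)

/-- the inner product (antilinear in the first argument) -/
noncomputable def ip (Ψ Φ : WF N M) : ℂ :=
  ∑ s, ∑' n, ∫ x, conj (Ψ x s n) * Φ x s n

/-- the wave functions with finitely many photons, smooth and compactly supported in the positions -/
structure Nice (Ψ : WF N M) : Prop where
  smooth : ∀ s n, ContDiff ℝ (⊤ : ℕ∞) (fun x => Ψ x s n)
  supp : ∀ s n, HasCompactSupport (fun x => Ψ x s n)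
  fin : {n | ∃ x s, Ψ x s n ≠ 0}.Finite

/-- fermions: antisymmetry under the exchange of the particles (position and spin together) -/
def Anti (Ψ : WF N M) : Prop := ∀ (σ : Equiv.Perm (Fin N)) x s n,
  Ψ (x ∘ σ) (s ∘ σ) n = ((Equiv.Perm.sign σ : ℤ) : ℂ) * Ψ x s n

/-- the ground state energy `E_0(N)`: the infimum of `⟨Ψ, H(N) Ψ⟩ / ‖Ψ‖ ^ 2` -/
noncomputable def E0 (F : Fld M) (α : ℝ) (N : ℕ) : ℝ :=
  sInf {E : ℝ | ∃ Ψ : WF N M, Nice Ψ ∧ Anti Ψ ∧ Ψ ≠ 0 ∧ E = (ip Ψ (Ham F α Ψ)).re / (ip Ψ Ψ).re}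

/-! ## The field in the cube of side `L` with the cutoff `Λ` -/

/-- the wave vector `(2 π / L) n` -/
noncomputable def wv (L : ℝ) (n : Fin 3 → ℤ) : Fin 3 → ℝ := fun i => 2 * Real.pi / L * n i

/-- the nonzero wave vectors of length less than `Λ` -/
def KK (Λ L : ℝ) : Set (Fin 3 → ℤ) := {n | n ≠ 0 ∧ len (wv L n) < Λ}

/-- the modes: a wave vector and one of two polarisations -/
abbrev Mode (Λ L : ℝ) : Type := KK Λ L × Fin 2

/-- the polarisation vectors `ε n μ`, `μ = 0, 1`, are orthonormal and orthogonal to the wave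
vector -/
def IsPol (L : ℝ) (ε : (Fin 3 → ℤ) → Fin 2 → Fin 3 → ℝ) : Prop := ∀ n : Fin 3 → ℤ, n ≠ 0 →
  (∀ μ ν, dot (ε n μ) (ε n ν) = if μ = ν then 1 else 0) ∧ ∀ μ, dot (ε n μ) (wv L n) = 0

/-- the field in the cube of side `L` -/
noncomputable def boxF (Λ L : ℝ) (ε : (Fin 3 → ℤ) → Fin 2 → Fin 3 → ℝ) : Fld (Mode Λ L) where
  V := L ^ 3
  k m := wv L m.1
  e m := ε m.1 m.2

end Pool.Agent.Y660.FB
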