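import Pool.Agent.Y660.FB.Sq

/-!
# The field at a point near the origin in a squeezed state

MP_791321_mp (helper660)
-/

set_option autoImplicit false

namespace Pool.Agent.Y660.FB

open scoped InnerProductSpace ComplexConjugate

variable {E : Type*} [SeminormedAddCommGroup E] [InnerProductSpace ℂ E]
variable {M : Type*} [Fintype M] [DecidableEq M]
variable {b bd : M → E →ₗ[ℂ] E}

omit [DecidableEq M] in
/-- a matrix of inner products with an orthonormal system -/
lemma sum_y (v : Fin 3 → M → ℂ)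
    (hv : ∀ i j, ∑ m, conj (v i m) * v j m = if i = j then 1 else 0) (Y : Fin 3 → E) :
    ∑ m, ‖∑ j, v j m • Y j‖ ^ 2 = ∑ j, ‖Y j‖ ^ 2 := by
  have e1 : ∀ m, ‖∑ j, v j m • Y j‖ ^ 2 = (∑ i, ∑ j, conj (v i m) * v j m * ⟪Y i, Y j⟫_ℂ).re := by
    intro m
    rw [← re_self, sum_inner]
    congr 1
    refine Finset.sum_congr rfl fun i _ => ?_
    rw [inner_smul_left, inner_sum, Finset.mul_sum]
    refine Finset.sum_congr rfl fun j _ => ?_
    rw [inner_smul_right]
    ring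
  simp_rw [e1]
  rw [← Complex.re_sum, Finset.sum_comm, Complex.re_sum]
  refine Finset.sum_congr rfl fun i _ => ?_
  rw [Finset.sum_comm]
  simp_rw [← Finset.sum_mul, hv]
  rw [Finset.sum_eq_single i]
  · rw [if_pos rfl, one_mul, re_self]
  · intro j _ hj
    rw [if_neg (Ne.symm hj), zero_mul]
  · intro hi
    exact absurd (Finset.mem_univ i) hi

omit [DecidableEq M] in
lemma sum_orth (v : Fin 3 → M → ℂ) (h f : M → ℂ) (d : Fin 3 → ℝ)
    (hh : ∀ j, ∑ m, conj (v j m) * h m = 0) (hf : ∀ m, f m = h m + ∑ j, (d j : ℂ) * v j m) :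
    ∑ m, ‖h m‖ ^ 2 ≤ ∑ m, ‖f m‖ ^ 2 := by
  have e1 : ∀ m, ‖h m‖ ^ 2 + 2 * (conj (∑ j, (d j : ℂ) * v j m) * h m).re ≤ ‖f m‖ ^ 2 := by
    intro m
    rw [hf m]
    have e2 : ‖h m + ∑ j, (d j : ℂ) * v j m‖ ^ 2 = ‖h m‖ ^ 2 +
        2 * (conj (∑ j, (d j : ℂ) * v j m) * h m).re + ‖∑ j, (d j : ℂ) * v j m‖ ^ 2 := by
      obtain ⟨y, hy⟩ : ∃ y, y = ∑ j, (d j : ℂ) * v j m := ⟨_, rfl⟩
      rw [← hy, ← Complex.normSq_eq_norm_sq, ← Complex.normSq_eq_norm_sq,
        ← Complex.normSq_eq_norm_sq, Complex.normSq_add]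
      have : (h m * conj y).re = (conj y * h m).re := by rw [mul_comm]
      rw [this]
      ring
    rw [e2]
    have : 0 ≤ ‖∑ j, (d j : ℂ) * v j m‖ ^ 2 := by positivity
    linarith
  have e3 : ∑ m, (conj (∑ j, (d j : ℂ) * v j m) * h m).re = 0 := by
    rw [← Complex.re_sum]
    have e4 : ∑ m, conj (∑ j, (d j : ℂ) * v j m) * h m = ∑ j, (d j : ℂ) * ∑ m, conj (v j m) * h m := by
      simp_rw [map_sum, Finset.sum_mul, Finset.mul_sum]
      rw [Finset.sum_comm]
      refine Finset.sum_congr rfl fun j _ => Finset.sum_congr rfl fun m _ => ?_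
      rw [map_mul, Complex.conj_ofReal]
      ring
    rw [e4]
    simp [hh]
  have e5 := Finset.sum_le_sum fun m (_ : m ∈ Finset.univ) => e1 m
  rw [Finset.sum_add_distrib, ← Finset.mul_sum, e3] at e5
  linarith

/-- the field at a point -/
theorem field_bound (h : CCR b bd) (g : Fin 3 → M → ℝ) (κ : ℝ) (hκ : 0 < κ)
    (hg : ∀ i j, ∑ m, g i m * g j m = if i = j then κ else 0) (θ : M → ℝ)
    (hθ : ∀ i j, ∑ m, g i m * g j m * Real.sin (θ m) = 0) (v : Fin 3 → M → ℂ)
    (hvg : ∀ i m, v i m = ((g i m / √κ : ℝ) : ℂ)) (Ω : E)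
    (hΩ : ∀ m, b m Ω = ∑ i, v i m • bs b (v i) Ω) :
    ∑ i, ‖∑ m, ((g i m : ℝ) : ℂ) • (Complex.exp (Complex.I * θ m) • b m Ω +
      Complex.exp (-(Complex.I * θ m)) • bd m Ω)‖ ^ 2 ≤
      κ * ∑ j, ‖bs b (v j) Ω + bc bd (v j) Ω‖ ^ 2 + (∑ i, ∑ m, g i m ^ 2 * θ m ^ 2) * ‖Ω‖ ^ 2 := by
  have hsκ : 0 < √κ := Real.sqrt_pos.2 hκ
  have hκ2 : √κ * √κ = κ := Real.mul_self_sqrt hκ.le
  have hvr : ∀ i m, conj (v i m) = v i m := fun i m => by rw [hvg, Complex.conj_ofReal]
  have hv : ∀ i j, ∑ m, conj (v i m) * v j m = if i = j then 1 else 0 := by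
    intro i j
    have e1 : ∀ m, conj (v i m) * v j m = ((1 / κ * (g i m * g j m) : ℝ) : ℂ) := by
      intro m
      rw [hvr, hvg, hvg, ← Complex.ofReal_mul]
      congr 1
      rw [div_mul_div_comm, hκ2]
      ring
    simp_rw [e1]
    rw [← Complex.ofReal_sum, ← Finset.mul_sum, hg]
    split_ifs
    · rw [one_div, inv_mul_cancel₀ hκ.ne', Complex.ofReal_one]
    · rw [mul_zero, Complex.ofReal_zero]
  obtain ⟨Y, hY⟩ : ∃ Y : Fin 3 → E, ∀ j, Y j = bs b (v j) Ω + bc bd (v j) Ω := ⟨_, fun _ => rfl⟩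
  obtain ⟨f, hf⟩ : ∃ f : Fin 3 → M → ℂ, ∀ i m, f i m = (g i m : ℂ) *
    Complex.exp (-(Complex.I * θ m)) := ⟨_, fun _ _ => rfl⟩
  obtain ⟨c, hc⟩ : ∃ c : Fin 3 → Fin 3 → ℝ, ∀ i j, c i j = ∑ m, g j m / √κ * (g i m *
    Real.cos (θ m)) := ⟨_, fun _ _ => rfl⟩
  obtain ⟨r, hr⟩ : ∃ r : Fin 3 → M → ℂ, ∀ i m, r i m = f i m - ∑ j, (c i j : ℂ) * v j m :=
    ⟨_, fun _ _ => rfl⟩
  have hvf : ∀ i j, ∑ m, conj (v j m) * f i m = c i j := by
    intro i j
    have e1 : ∀ m, conj (v j m) * f i m = ((g j m / √κ * (g i m * Real.cos (θ m)) : ℝ) : ℂ) -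
        Complex.I * ((1 / √κ * (g j m * g i m * Real.sin (θ m)) : ℝ) : ℂ) := by
      intro m
      have e2 : Complex.exp (-(Complex.I * θ m)) = Real.cos (θ m) - Complex.I * Real.sin (θ m) := by
        have e3 : -(Complex.I * (θ m : ℂ)) = (-(θ m : ℂ)) * Complex.I := by ring
        rw [e3, Complex.exp_mul_I, Complex.cos_neg, Complex.sin_neg, Complex.ofReal_cos,
          Complex.ofReal_sin]
        ring
      rw [hvr, hvg, hf, e2]
      push_cast
      ring
    simp_rw [e1]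
    rw [Finset.sum_sub_distrib, ← Finset.mul_sum, ← Complex.ofReal_sum, ← Complex.ofReal_sum,
      ← Finset.mul_sum, hθ, mul_zero, Complex.ofReal_zero, mul_zero, sub_zero, hc]
  have hvr0 : ∀ i j, ∑ m, conj (v j m) * r i m = 0 := by
    intro i j
    have e1 : ∀ m, conj (v j m) * r i m = conj (v j m) * f i m -
        ∑ l, (c i l : ℂ) * (conj (v j m) * v l m) := by
      intro m
      rw [hr, mul_sub, Finset.mul_sum]
      congr 1
      refine Finset.sum_congr rfl fun l _ => ?_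
      ring
    simp_rw [e1]
    rw [Finset.sum_sub_distrib, hvf, Finset.sum_comm]
    simp_rw [← Finset.mul_sum, hv]
    rw [Finset.sum_eq_single j]
    · rw [if_pos rfl, mul_one, sub_self]
    · intro l _ hl
      rw [if_neg (Ne.symm hl), mul_zero]
    · intro hj
      exact absurd (Finset.mem_univ j) hj
  have hrv0 : ∀ i j, ∑ m, conj (r i m) * v j m = 0 := by
    intro i j
    have e1 := congrArg conj (hvr0 i j)
    rw [map_sum, map_zero] at e1
    rw [← e1]
    refine Finset.sum_congr rfl fun m _ => ?_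
    rw [map_mul, Complex.conj_conj]
    ring
  have hrΩ : ∀ i, bs b (r i) Ω = 0 := by
    intro i
    unfold bs
    simp_rw [hΩ, Finset.smul_sum, smul_smul]
    rw [Finset.sum_comm]
    simp_rw [← Finset.sum_smul, hrv0, zero_smul]
    exact Finset.sum_const_zero
  have hrY : ∀ i j, bs b (r i) (Y j) = 0 := by
    intro i j
    have e0 : bs b (v j) (0 : E) = 0 := by unfold bs; simp
    have e0' : bc bd (v j) (0 : E) = 0 := by unfold bc; simp
    rw [hY, bs_add, h.comb', hrΩ, e0, h.com', hrΩ, e0', hrv0, zero_smul]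
    simp
  have hdec : ∀ i, ∑ m, ((g i m : ℝ) : ℂ) • (Complex.exp (Complex.I * θ m) • b m Ω +
      Complex.exp (-(Complex.I * θ m)) • bd m Ω) = ∑ j, (c i j : ℂ) • Y j + bc bd (r i) Ω := by
    intro i
    have e1 : ∑ m, ((g i m : ℝ) : ℂ) • (Complex.exp (Complex.I * θ m) • b m Ω +
      Complex.exp (-(Complex.I * θ m)) • bd m Ω) = bs b (f i) Ω + bc bd (f i) Ω := by
      unfold bs bc
      rw [← Finset.sum_add_distrib]
      refine Finset.sum_congr rfl fun m _ => ?_
      rw [smul_add, smul_smul, smul_smul, hf, map_mul, Complex.conj_ofReal, ← Complex.exp_conj,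
        map_neg, map_mul, Complex.conj_I, Complex.conj_ofReal, neg_mul, neg_neg]
    have e2 : bs b (f i) Ω = ∑ j, (c i j : ℂ) • bs b (v j) Ω + bs b (r i) Ω := by
      unfold bs
      simp_rw [Finset.smul_sum]
      rw [Finset.sum_comm, ← Finset.sum_add_distrib]
      refine Finset.sum_congr rfl fun m _ => ?_
      simp_rw [smul_smul]
      rw [← Finset.sum_smul, ← add_smul]
      congr 1
      rw [hr, map_sub, map_sum]
      simp only [map_mul, Complex.conj_ofReal]
      ring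
    have e3 : bc bd (f i) Ω = ∑ j, (c i j : ℂ) • bc bd (v j) Ω + bc bd (r i) Ω := by
      unfold bc
      simp_rw [Finset.smul_sum]
      rw [Finset.sum_comm, ← Finset.sum_add_distrib]
      refine Finset.sum_congr rfl fun m _ => ?_
      simp_rw [smul_smul]
      rw [← Finset.sum_smul, ← add_smul]
      congr 1
      rw [hr]
      ring
    rw [e1, e2, e3, hrΩ, add_zero]
    simp_rw [hY, smul_add]
    rw [Finset.sum_add_distrib]
    abel
  have hnorm : ∀ i, ‖∑ j, (c i j : ℂ) • Y j + bc bd (r i) Ω‖ ^ 2 = ‖∑ j, (c i j : ℂ) • Y j‖ ^ 2 +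
      (∑ m, ‖r i m‖ ^ 2) * ‖Ω‖ ^ 2 := by
    intro i
    have e1 : ⟪∑ j, (c i j : ℂ) • Y j, bc bd (r i) Ω⟫_ℂ = 0 := by
      rw [← h.adj', bs_sum]
      simp_rw [bs_smul, hrY, smul_zero]
      rw [Finset.sum_const_zero, inner_zero_left]
    rw [@norm_add_sq ℂ, e1, h.norm_bc, hrΩ, norm_zero]
    simp
  have hZ : ∑ i, ‖∑ j, (c i j : ℂ) • Y j‖ ^ 2 ≤ κ * ∑ j, ‖Y j‖ ^ 2 := by
    have e1 : ∀ i, ∑ j, (c i j : ℂ) • Y j = ∑ m, ((g i m : ℝ) : ℂ) •
        ((Real.cos (θ m) : ℂ) • ∑ j, v j m • Y j) := by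
      intro i
      simp_rw [Finset.smul_sum]
      rw [Finset.sum_comm]
      refine Finset.sum_congr rfl fun j _ => ?_
      simp_rw [smul_smul]
      rw [← Finset.sum_smul]
      congr 1
      rw [hc, Complex.ofReal_sum]
      refine Finset.sum_congr rfl fun m _ => ?_
      rw [hvg]
      push_cast
      ring
    simp_rw [e1]
    refine (bessel g κ hκ hg _).trans ?_
    refine mul_le_mul_of_nonneg_left ?_ hκ.le
    rw [← sum_y v hv Y]
    refine Finset.sum_le_sum fun m _ => ?_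
    rw [norm_smul, mul_pow]
    refine mul_le_of_le_one_left (by positivity) ?_
    rw [Complex.norm_real, Real.norm_eq_abs, sq_abs, sq_le_one_iff_abs_le_one]
    exact Real.abs_cos_le_one _
  have hR : ∀ i, ∑ m, ‖r i m‖ ^ 2 ≤ ∑ m, g i m ^ 2 * θ m ^ 2 := by
    intro i
    have e1 := sum_orth v (r i) (fun m => f i m - g i m) (fun j => c i j - if i = j then √κ else 0)
      (hvr0 i) (fun m => by
        rw [hr]
        push_cast
        simp_rw [sub_mul]
        rw [Finset.sum_sub_distrib]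
        have e2 : ∑ j, ((if i = j then √κ else 0 : ℝ) : ℂ) * v j m = g i m := by
          rw [Finset.sum_eq_single i]
          · rw [if_pos rfl, hvg, ← Complex.ofReal_mul]
            congr 1
            field_simp
          · intro j _ hj
            rw [if_neg (Ne.symm hj), Complex.ofReal_zero, zero_mul]
          · intro hi
            exact absurd (Finset.mem_univ i) hi
        rw [e2]
        ring)
    refine e1.trans (Finset.sum_le_sum fun m _ => ?_)
    have e2 : f i m - g i m = (g i m : ℂ) * (Complex.exp (Complex.I * ((-θ m : ℝ) : ℂ)) - 1) := by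
      rw [hf]
      push_cast
      ring_nf
    rw [e2, norm_mul, mul_pow, Complex.norm_real, Real.norm_eq_abs, sq_abs]
    refine mul_le_mul_of_nonneg_left ?_ (by positivity)
    have e3 := Real.norm_exp_I_mul_ofReal_sub_one_le (x := -θ m)
    rw [Real.norm_eq_abs, abs_neg] at e3
    calc ‖Complex.exp (Complex.I * ((-θ m : ℝ) : ℂ)) - 1‖ ^ 2 ≤ |θ m| ^ 2 :=
          pow_le_pow_left₀ (norm_nonneg _) e3 2
      _ = θ m ^ 2 := sq_abs _
  simp_rw [hdec, hnorm]
  rw [Finset.sum_add_distrib, ← Finset.sum_mul]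
  simp_rw [hY] at hZ ⊢
  exact add_le_add hZ (mul_le_mul_of_nonneg_right (Finset.sum_le_sum fun i _ => hR i)
    (by positivity))

end Pool.Agent.Y660.FB
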