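import Pool.Agent.Y660.FB.Ops
import Pool.Agent.Y660.FB.Fd

/-!
# The Fock space (no particles) and the densities

MP_791321_mp (helper660)
-/

set_option autoImplicit false

namespace Pool.Agent.Y660.FB

open scoped InnerProductSpace ComplexConjugate
open MeasureTheory

variable {M : Type}

/-- the components of a vector of the Fock space -/
def om (U : Sp 0 M) (n : M → ℕ) : ℂ := U.1 default default n

lemma integral_zero (f : (Fin 0 → Fin 3 → ℝ) → ℂ) : ∫ x, f x = f default := by
  rw [Measure.volume_pi_eq_dirac (default : Fin 0 → Fin 3 → ℝ)]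
  exact integral_dirac f default

lemma inner_zero (U W : Sp 0 M) : ⟪U, W⟫_ℂ = ∑' n, conj (om U n) * om W n := by
  rw [inner_def]
  unfold ip
  rw [Fintype.sum_subsingleton _ default]
  congr 1
  funext n
  rw [integral_zero]
  rfl

lemma norm_zero' (U : Sp 0 M) : ‖U‖ ^ 2 = ∑' n, ‖om U n‖ ^ 2 := by
  rw [norm_def, ip_self U.2, Fintype.sum_subsingleton _ default]
  congr 1
  funext n
  rw [Measure.volume_pi_eq_dirac (default : Fin 0 → Fin 3 → ℝ)]
  exact integral_dirac (fun x => ‖U.1 x default n‖ ^ 2) default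

lemma om_ext {U W : Sp 0 M} (h : ∀ n, om U n = om W n) : U = W := by
  apply Subtype.ext
  funext x s n
  have e1 : x = default := Subsingleton.elim _ _
  have e2 : s = default := Subsingleton.elim _ _
  rw [e1, e2]
  exact h n

/-- the vacuum -/
noncomputable def vac : Sp 0 M := by
  classical
  exact ⟨fun _ _ n => if n = 0 then 1 else 0, {
    smooth := fun s n => contDiff_const
    supp := fun s n => HasCompactSupport.of_compactSpace _
    fin := by
      refine (Set.finite_singleton (0 : M → ℕ)).subset ?_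
      rintro n ⟨x, s, hx⟩
      by_contra hn
      apply hx
      exact if_neg hn }⟩

lemma om_vac_zero : om (vac : Sp 0 M) 0 = 1 := by
  unfold om vac
  simp

lemma om_vac_ne {n : M → ℕ} (hn : n ≠ 0) : om (vac : Sp 0 M) n = 0 := by
  unfold om vac
  simp [hn]

lemma norm_vac : ‖(vac : Sp 0 M)‖ = 1 := by
  have h1 : ‖(vac : Sp 0 M)‖ ^ 2 = 1 := by
    rw [norm_zero', tsum_eq_single 0]
    · rw [om_vac_zero]
      simp
    · intro n hn
      rw [om_vac_ne hn]
      simp
  nlinarith [norm_nonneg (vac : Sp 0 M)]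

lemma an_vac [DecidableEq M] (m : M) : anL m (vac : Sp 0 M) = 0 := by
  apply om_ext
  intro n
  have h1 : om (anL m (vac : Sp 0 M)) n = ((√(n m + 1 : ℝ) : ℝ) : ℂ) *
    om (vac : Sp 0 M) (n + Pi.single m 1) := rfl
  have h2 : om (0 : Sp 0 M) n = 0 := rfl
  rw [h1, h2, om_vac_ne, mul_zero]
  intro h
  have := congrFun h m
  simp at this

lemma om_add (U W : Sp 0 M) (n : M → ℕ) : om (U + W) n = om U n + om W n := rfl

lemma om_smul (c : ℂ) (U : Sp 0 M) (n : M → ℕ) : om (c • U) n = c * om U n := rfl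

/-- the density -/
noncomputable def dens {N : ℕ} (Ψ Φ : WF N M) (x : Fin N → Fin 3 → ℝ) : ℂ :=
  ∑ s, ∑' n, conj (Ψ x s n) * Φ x s n

lemma dens_sum {N : ℕ} {Ψ Φ : WF N M} (h : Nice Ψ) (x : Fin N → Fin 3 → ℝ) :
    dens Ψ Φ x = ∑ s, ∑ n ∈ h.fin.toFinset, conj (Ψ x s n) * Φ x s n := by
  unfold dens
  refine Finset.sum_congr rfl fun s _ => ?_
  refine tsum_eq_sum fun n hn => ?_
  have : Ψ x s n = 0 := by
    by_contra hx
    exact hn (h.fin.mem_toFinset.2 ⟨x, s, hx⟩)
  rw [this, map_zero, zero_mul]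

lemma dens_integrable {N : ℕ} {Ψ Φ : WF N M} (h : Nice Ψ) (h' : Nice Φ) :
    Integrable (dens Ψ Φ) := by
  have e1 : dens Ψ Φ = fun x => ∑ s, ∑ n ∈ h.fin.toFinset, conj (Ψ x s n) * Φ x s n :=
    funext fun x => dens_sum h x
  rw [e1]
  exact integrable_finset_sum _ fun s _ => integrable_finset_sum _ fun n _ => h.integrable h' s n

lemma ip_dens {N : ℕ} {Ψ Φ : WF N M} (h : Nice Ψ) (h' : Nice Φ) : ip Ψ Φ = ∫ x, dens Ψ Φ x := by
  have e1 : dens Ψ Φ = fun x => ∑ s, ∑ n ∈ h.fin.toFinset, conj (Ψ x s n) * Φ x s n :=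
    funext fun x => dens_sum h x
  rw [e1, integral_finset_sum _ fun s _ => integrable_finset_sum _ fun n _ => h.integrable h' s n]
  unfold ip
  refine Finset.sum_congr rfl fun s _ => ?_
  rw [integral_finset_sum _ fun n _ => h.integrable h' s n]
  refine tsum_eq_sum fun n hn => ?_
  have : ∀ x, Ψ x s n = 0 := by
    intro x
    by_contra hx
    exact hn (h.fin.mem_toFinset.2 ⟨x, s, hx⟩)
  simp [this]

end Pool.Agent.Y660.FB
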