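import Pool.Agent.Y660.FB.State

/-!
# The modes of the cube

MP_791321_mp (helper660)
-/

set_option autoImplicit false

namespace Pool.Agent.Y660.FB

open MeasureTheory

/-- the unit vector -/
noncomputable def un (L : ℝ) (n : Fin 3 → ℤ) (i : Fin 3) : ℝ := wv L n i / len (wv L n)

lemma wv_ne {L : ℝ} (hL : 0 < L) {n : Fin 3 → ℤ} (hn : n ≠ 0) : 0 < len (wv L n) := by
  unfold len
  apply Real.sqrt_pos.2
  obtain ⟨i, hi⟩ : ∃ i, n i ≠ 0 := by
    by_contra hcon
    apply hn
    funext i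
    by_contra h
    exact hcon ⟨i, h⟩
  unfold dot
  refine Finset.sum_pos' (fun i _ => mul_self_nonneg _) ⟨i, Finset.mem_univ i, ?_⟩
  have h1 : wv L n i ≠ 0 := by
    unfold wv
    have h2 : (n i : ℝ) ≠ 0 := by exact_mod_cast hi
    have := Real.pi_pos
    positivity
  exact mul_self_pos.2 h1

lemma un_sq {L : ℝ} (hL : 0 < L) {n : Fin 3 → ℤ} (hn : n ≠ 0) : ∑ i, un L n i ^ 2 = 1 := by
  have h1 := wv_ne hL hn
  have h2 : ∑ i, un L n i ^ 2 = dot (wv L n) (wv L n) / len (wv L n) ^ 2 := by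
    unfold un dot
    rw [Finset.sum_div]
    refine Finset.sum_congr rfl fun i _ => ?_
    rw [div_pow]
    ring
  rw [h2, len_sq, div_self]
  rw [← len_sq]
  positivity

/-- the completeness relation -/
lemma pol_sum {L : ℝ} (hL : 0 < L) {ε : (Fin 3 → ℤ) → Fin 2 → Fin 3 → ℝ} (hε : IsPol L ε)
    {n : Fin 3 → ℤ} (hn : n ≠ 0) (i j : Fin 3) :
    ∑ μ, ε n μ i * ε n μ j = (if i = j then 1 else 0) - un L n i * un L n j := by
  obtain ⟨h1, h2⟩ := hε n hn
  have hl := wv_ne hL hn
  obtain ⟨O, hO⟩ : ∃ O : Matrix (Fin 3) (Fin 3) ℝ, O = ![ε n 0, ε n 1, un L n] := ⟨_, rfl⟩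
  have hu : ∀ μ, dot (ε n μ) (un L n) = 0 := by
    intro μ
    have h3 := h2 μ
    unfold dot at h3 ⊢
    have h4 : ∑ i, ε n μ i * un L n i = (∑ i, ε n μ i * wv L n i) / len (wv L n) := by
      rw [Finset.sum_div]
      refine Finset.sum_congr rfl fun i _ => ?_
      unfold un
      ring
    rw [h4, h3, zero_div]
  have huu : dot (un L n) (un L n) = 1 := by
    rw [← un_sq hL hn]
    unfold dot
    exact Finset.sum_congr rfl fun i _ => by ring
  have hcomm : ∀ a b, dot a b = dot b a := fun a b => by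
    unfold dot
    exact Finset.sum_congr rfl fun i _ => mul_comm _ _
  have hOO : O * O.transpose = 1 := by
    ext a b
    rw [Matrix.mul_apply]
    have e1 : ∑ c, O a c * O.transpose c b = dot (O a) (O b) := rfl
    rw [e1, hO]
    have r0 : (![ε n 0, ε n 1, un L n] : Fin 3 → Fin 3 → ℝ) 0 = ε n 0 := rfl
    have r1 : (![ε n 0, ε n 1, un L n] : Fin 3 → Fin 3 → ℝ) 1 = ε n 1 := rfl
    have r2 : (![ε n 0, ε n 1, un L n] : Fin 3 → Fin 3 → ℝ) 2 = un L n := rfl
    fin_cases a <;> fin_cases b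
    · show dot (ε n 0) (ε n 0) = _
      rw [h1]; simp
    · show dot (ε n 0) (ε n 1) = _
      rw [h1]; simp
    · show dot (ε n 0) (un L n) = _
      rw [hu]; simp
    · show dot (ε n 1) (ε n 0) = _
      rw [h1]; simp
    · show dot (ε n 1) (ε n 1) = _
      rw [h1]; simp
    · show dot (ε n 1) (un L n) = _
      rw [hu]; simp
    · show dot (un L n) (ε n 0) = _
      rw [hcomm, hu]; simp
    · show dot (un L n) (ε n 1) = _
      rw [hcomm, hu]; simp
    · show dot (un L n) (un L n) = _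
      rw [huu]; simp
  have hOO' : O.transpose * O = 1 := mul_eq_one_comm.1 hOO
  have e2 := congrFun (congrFun hOO' i) j
  rw [Matrix.mul_apply, Fin.sum_univ_three] at e2
  have e3 : O.transpose i 0 * O 0 j + O.transpose i 1 * O 1 j + O.transpose i 2 * O 2 j =
      ε n 0 i * ε n 0 j + ε n 1 i * ε n 1 j + un L n i * un L n j := by
    rw [hO]
    rfl
  rw [e3, Matrix.one_apply] at e2
  rw [Fin.sum_univ_two]
  linarith

/-- finiteness of the set of the wave vectors -/
lemma KK_finite {Λ L : ℝ} (hL : 0 < L) : (KK Λ L).Finite := by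
  obtain ⟨B, hB⟩ : ∃ B : ℤ, B = ⌈|Λ * L|⌉ := ⟨_, rfl⟩
  refine (Set.finite_Icc (fun _ : Fin 3 => -B) (fun _ => B)).subset ?_
  rintro n ⟨-, hn⟩
  have h1 : ∀ i, |(n i : ℝ)| ≤ |Λ * L| := by
    intro i
    have h2 : |wv L n i| ≤ len (wv L n) := by
      unfold len
      rw [← Real.sqrt_sq_eq_abs]
      apply Real.sqrt_le_sqrt
      unfold dot
      rw [sq]
      exact Finset.single_le_sum (f := fun i => wv L n i * wv L n i)
        (fun i _ => mul_self_nonneg _) (Finset.mem_univ i)
    have h3 : |wv L n i| = 2 * Real.pi / L * |(n i : ℝ)| := by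
      unfold wv
      rw [abs_mul, abs_of_pos (by have := Real.pi_pos; positivity)]
    have h4 : 2 * Real.pi / L * |(n i : ℝ)| < Λ := by
      rw [← h3]
      exact h2.trans_lt hn
    have h5 : 2 * Real.pi * |(n i : ℝ)| < Λ * L := by
      rw [div_mul_eq_mul_div, div_lt_iff₀ hL] at h4
      exact h4
    have h6 : |(n i : ℝ)| ≤ 2 * Real.pi * |(n i : ℝ)| := by
      have := Real.pi_gt_three
      have h7 : 0 ≤ |(n i : ℝ)| := abs_nonneg _
      nlinarith
    exact h6.trans (h5.le.trans (le_abs_self _))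
  have h2 : ∀ i, |n i| ≤ B := by
    intro i
    have h3 : ((|n i| : ℤ) : ℝ) ≤ (B : ℝ) := by
      rw [Int.cast_abs, hB]
      exact (h1 i).trans (Int.le_ceil _)
    exact_mod_cast h3
  exact ⟨fun i => (abs_le.1 (h2 i)).1, fun i => (abs_le.1 (h2 i)).2⟩

section sums

variable {Λ L : ℝ} [Fintype (KK Λ L)]

lemma sum_inv (e : Equiv.Perm (Fin 3 → ℤ)) (he : ∀ n, n ∈ KK Λ L ↔ e n ∈ KK Λ L)
    (f : (Fin 3 → ℤ) → ℝ) : ∑ n : KK Λ L, f n = ∑ n : KK Λ L, f (e n) := by
  have h1 := Equiv.sum_comp (Equiv.subtypeEquiv e he) (fun n : KK Λ L => f n)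
  rw [← h1]
  rfl

omit [Fintype (KK Λ L)] in
/-- the negation -/
lemma KK_neg (n : Fin 3 → ℤ) : n ∈ KK Λ L ↔ (Equiv.neg (Fin 3 → ℤ)) n ∈ KK Λ L := by
  have h1 : len (wv L (-n)) = len (wv L n) := by
    unfold len dot wv
    congr 1
    refine Finset.sum_congr rfl fun i _ => ?_
    simp
  have h2 : (Equiv.neg (Fin 3 → ℤ)) n = -n := rfl
  rw [h2]
  show (n ≠ 0 ∧ _) ↔ (-n ≠ 0 ∧ _)
  rw [neg_ne_zero, h1]

/-- change of the sign of a coordinate -/
def flip (i : Fin 3) (n : Fin 3 → ℤ) : Fin 3 → ℤ := Function.update n i (-n i)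

lemma flip_inv (i : Fin 3) : Function.Involutive (flip i) := by
  intro n
  unfold flip
  simp

/-- the change of sign as a permutation -/
def fp (i : Fin 3) : Equiv.Perm (Fin 3 → ℤ) := Function.Involutive.toPerm (flip i) (flip_inv i)

lemma flip_same (i : Fin 3) (n : Fin 3 → ℤ) : flip i n i = -n i := by simp [flip]

lemma flip_ne {i j : Fin 3} (h : j ≠ i) (n : Fin 3 → ℤ) : flip i n j = n j := by simp [flip, h]

lemma len_flip (i : Fin 3) (n : Fin 3 → ℤ) : len (wv L (flip i n)) = len (wv L n) := by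
  unfold len dot wv
  congr 1
  refine Finset.sum_congr rfl fun j _ => ?_
  by_cases h : j = i
  · subst h
    rw [flip_same]
    push_cast
    ring
  · rw [flip_ne h]

lemma flip_zero {i : Fin 3} {n : Fin 3 → ℤ} : flip i n ≠ 0 ↔ n ≠ 0 := by
  have h0 : flip i (0 : Fin 3 → ℤ) = 0 := by
    funext j
    by_cases h : j = i
    · subst h
      rw [flip_same]
      simp
    · rw [flip_ne h]
  rw [not_iff_not]
  constructor
  · intro h
    have := congrArg (flip i) h
    rw [flip_inv, h0] at this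
    exact this
  · intro h
    rw [h, h0]

omit [Fintype (KK Λ L)] in
lemma KK_flip (i : Fin 3) (n : Fin 3 → ℤ) : n ∈ KK Λ L ↔ (fp i) n ∈ KK Λ L := by
  have h2 : (fp i) n = flip i n := rfl
  rw [h2]
  show (n ≠ 0 ∧ _) ↔ (flip i n ≠ 0 ∧ _)
  rw [flip_zero, len_flip]

/-- exchange of two coordinates -/
def exch (i j : Fin 3) (n : Fin 3 → ℤ) : Fin 3 → ℤ := n ∘ Equiv.swap i j

lemma exch_inv (i j : Fin 3) : Function.Involutive (exch i j) := by
  intro n
  funext l
  simp [exch]

/-- the exchange as a permutation -/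
def ep (i j : Fin 3) : Equiv.Perm (Fin 3 → ℤ) :=
  Function.Involutive.toPerm (exch i j) (exch_inv i j)

lemma len_exch (i j : Fin 3) (n : Fin 3 → ℤ) : len (wv L (exch i j n)) = len (wv L n) := by
  unfold len
  congr 1
  exact Equiv.sum_comp (Equiv.swap i j) (fun l => wv L n l * wv L n l)

lemma exch_zero {i j : Fin 3} {n : Fin 3 → ℤ} : exch i j n ≠ 0 ↔ n ≠ 0 := by
  have h0 : exch i j (0 : Fin 3 → ℤ) = 0 := rfl
  rw [not_iff_not]
  constructor
  · intro h
    have := congrArg (exch i j) h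
    rw [exch_inv, h0] at this
    exact this
  · intro h
    rw [h, h0]

omit [Fintype (KK Λ L)] in
lemma KK_exch (i j : Fin 3) (n : Fin 3 → ℤ) :
    n ∈ KK Λ L ↔ (ep i j) n ∈ KK Λ L := by
  have h2 : (ep i j) n = exch i j n := rfl
  rw [h2]
  show (n ≠ 0 ∧ _) ↔ (exch i j n ≠ 0 ∧ _)
  rw [exch_zero, len_exch]

/-- isotropy -/
lemma iso_sum (hL : 0 < L) (w : ℝ → ℝ) (i j : Fin 3) :
    ∑ n : KK Λ L, w (len (wv L n)) * ((if i = j then 1 else 0) - un L n i * un L n j) =
      if i = j then 2 / 3 * ∑ n : KK Λ L, w (len (wv L n)) else 0 := by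
  by_cases hij : i = j
  · subst hij
    simp only [if_true]
    have h1 : ∀ l, ∑ n : KK Λ L, w (len (wv L n)) * un L n l ^ 2 =
        ∑ n : KK Λ L, w (len (wv L n)) * un L n i ^ 2 := by
      intro l
      rw [sum_inv (ep l i) (KK_exch l i)
        (fun n => w (len (wv L n)) * un L n l ^ 2)]
      refine Finset.sum_congr rfl fun n _ => ?_
      show w (len (wv L (exch l i n))) * un L (exch l i n) l ^ 2 = _
      have h2 : un L (exch l i n) l = un L n i := by
        unfold un
        rw [len_exch]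
        congr 1
        unfold wv exch
        simp
      rw [len_exch, h2]
    have h3 : ∑ l : Fin 3, ∑ n : KK Λ L, w (len (wv L n)) * un L n l ^ 2 =
        ∑ n : KK Λ L, w (len (wv L n)) := by
      rw [Finset.sum_comm]
      refine Finset.sum_congr rfl fun n _ => ?_
      rw [← Finset.mul_sum, un_sq hL n.2.1, mul_one]
    simp_rw [h1] at h3
    rw [Finset.sum_const, Finset.card_univ, Fintype.card_fin, nsmul_eq_mul] at h3
    have h4 : ∑ n : KK Λ L, w (len (wv L n)) * (1 - un L n i * un L n i) =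
        ∑ n : KK Λ L, w (len (wv L n)) - ∑ n : KK Λ L, w (len (wv L n)) * un L n i ^ 2 := by
      rw [← Finset.sum_sub_distrib]
      exact Finset.sum_congr rfl fun n _ => by ring
    rw [h4]
    push_cast at h3
    linarith
  · simp only [hij, if_false]
    have h1 := sum_inv (Λ := Λ) (L := L) (fp i) (KK_flip i)
      (fun n : Fin 3 → ℤ => w (len (wv L n)) * ((0 : ℝ) - un L n i * un L n j))
    have h2 : ∀ n : KK Λ L, w (len (wv L ((fp i) n))) *
        ((0 : ℝ) - un L ((fp i) n) i * un L ((fp i) n) j) =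
        -(w (len (wv L n)) * ((0 : ℝ) - un L n i * un L n j)) := by
      intro n
      show w (len (wv L (flip i n))) * ((0 : ℝ) - un L (flip i n) i * un L (flip i n) j) = _
      have h3 : un L (flip i n) i = -un L n i := by
        unfold un
        rw [len_flip]
        unfold wv
        rw [flip_same]
        push_cast
        ring
      have h4 : un L (flip i n) j = un L n j := by
        unfold un
        rw [len_flip]
        unfold wv
        rw [flip_ne (Ne.symm hij)]
      rw [len_flip, h3, h4]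
      ring
    simp_rw [h2] at h1
    rw [Finset.sum_neg_distrib] at h1
    linarith

lemma odd_sum (w : ℝ → ℝ) (i j : Fin 3) (y : Fin 3 → ℝ) :
    ∑ n : KK Λ L, w (len (wv L n)) * ((if i = j then 1 else 0) - un L n i * un L n j) *
      Real.sin (dot (wv L n) y) = 0 := by
  have h1 := sum_inv (Λ := Λ) (L := L) (Equiv.neg (Fin 3 → ℤ)) KK_neg
    (fun n : Fin 3 → ℤ => w (len (wv L n)) * ((if i = j then 1 else 0) - un L n i * un L n j) *
      Real.sin (dot (wv L n) y))
  have h2 : ∀ n : KK Λ L, w (len (wv L (Equiv.neg (Fin 3 → ℤ) n))) *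
      ((if i = j then 1 else 0) - un L (Equiv.neg (Fin 3 → ℤ) n) i *
        un L (Equiv.neg (Fin 3 → ℤ) n) j) * Real.sin (dot (wv L (Equiv.neg (Fin 3 → ℤ) n)) y) =
      -(w (len (wv L n)) * ((if i = j then 1 else 0) - un L n i * un L n j) *
      Real.sin (dot (wv L n) y)) := by
    intro n
    have hw : ∀ l, wv L (-(n : Fin 3 → ℤ)) l = -wv L n l := by
      intro l
      unfold wv
      simp
    have hl : len (wv L (-(n : Fin 3 → ℤ))) = len (wv L n) := by
      unfold len dot
      congr 1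
      refine Finset.sum_congr rfl fun l _ => ?_
      rw [hw]
      ring
    have hd : dot (wv L (-(n : Fin 3 → ℤ))) y = -dot (wv L n) y := by
      unfold dot
      rw [← Finset.sum_neg_distrib]
      refine Finset.sum_congr rfl fun l _ => ?_
      rw [hw]
      ring
    show w (len (wv L (-(n : Fin 3 → ℤ)))) * ((if i = j then 1 else 0) -
      un L (-(n : Fin 3 → ℤ)) i * un L (-(n : Fin 3 → ℤ)) j) *
      Real.sin (dot (wv L (-(n : Fin 3 → ℤ))) y) = _
    unfold un
    rw [hl, hd, hw, hw, Real.sin_neg]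
    ring
  simp_rw [h2] at h1
  rw [Finset.sum_neg_distrib] at h1
  linarith

end sums

end Pool.Agent.Y660.FB
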