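import Pool.Agent.Y660.FB.Ops

/-!
# The lower bound for the energy of one particle

MP_791321_mp (helper660)
-/

set_option autoImplicit false

namespace Pool.Agent.Y660.FB

open scoped InnerProductSpace ComplexConjugate
open MeasureTheory

variable {M : Type} [DecidableEq M] [Fintype M]

omit [DecidableEq M] [Fintype M] in
/-- there are wave functions of one particle -/
lemma exists_one : ∃ Ψ : WF 1 M, Nice Ψ ∧ Anti Ψ ∧ Ψ ≠ 0 := by
  classical
  obtain ⟨f⟩ : Nonempty (ContDiffBump (0 : Fin 1 → Fin 3 → ℝ)) := ⟨⟨1, 2, one_pos, one_lt_two⟩⟩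
  refine ⟨fun x _ n => if n = 0 then (f x : ℂ) else 0, ⟨?_, ?_, ?_⟩, ?_, ?_⟩
  · intro s n
    by_cases hn : n = 0
    · simp only [hn, if_true]
      exact Complex.ofRealCLM.contDiff.comp f.contDiff
    · simp only [hn, if_false]
      exact contDiff_const
  · intro s n
    by_cases hn : n = 0
    · simp only [hn, if_true]
      exact f.hasCompactSupport.comp_left (g := fun t : ℝ => (t : ℂ)) (by simp)
    · simp only [hn, if_false]
      exact HasCompactSupport.zero
  · refine (Set.finite_singleton (0 : M → ℕ)).subset ?_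
    rintro n ⟨x, s, hx⟩
    by_contra hn
    apply hx
    exact if_neg hn
  · intro σ x s n
    have : σ = 1 := Subsingleton.elim _ _
    rw [this]
    simp
  · intro h
    have h1 := congrFun (congrFun (congrFun h 0) 0) 0
    simp only [if_true] at h1
    have h2 : f 0 = 1 := f.one_of_mem_closedBall (Metric.mem_closedBall_self f.rIn_pos.le)
    rw [h2] at h1
    simp at h1

/-- the lower bound for one particle -/
theorem E0_one (F : Fld M) (α : ℝ) (hα : 0 ≤ α) (hV : 0 < F.V) (G : ℝ) (hG : 0 < G)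
    (he : ∀ i j, ∑ m, F.e m i * F.e m j = if i = j then G else 0)
    (he1 : ∀ m, ∑ i, F.e m i ^ 2 = 1) (hek : ∀ m, ∑ i, F.e m i * F.k m i = 0)
    (hw : ∀ m, 0 < len (F.k m)) (Λ : ℝ) (hΛ : ∀ m, len (F.k m) ≤ Λ) :
    3 / 2 * √(α * (G / F.V)) - 3 / 2 * Λ ≤ E0 F α 1 := by
  unfold E0
  apply le_csInf
  · obtain ⟨Ψ, h1, h2, h3⟩ := exists_one (M := M)
    exact ⟨_, Ψ, h1, h2, h3, rfl⟩
  rintro E ⟨Ψ, hn, -, h0, rfl⟩
  obtain ⟨u, hu⟩ : ∃ u : Sp 1 M, u = ⟨Ψ, hn⟩ := ⟨_, rfl⟩
  have hu1 : u.1 = Ψ := by rw [hu]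
  have hpos := ip_pos hn h0
  rw [le_div_iff₀ hpos, ← hu1, energy, ← norm_def]
  have h := lower (bL_ccr F (0 : Fin 1)) (fun i => moL 0 i) (fun i u v => mo_symm 0 i u v)
    F.k F.e (fun i m u => mo_b F 0 i m u) (fun i m u => mo_bd F 0 i m u) (fun m => len (F.k m))
    hw Λ hΛ F.V G α hV hG hα he he1 hek u
  refine h.trans (le_of_eq ?_)
  congr 1
  · refine Finset.sum_congr rfl fun m _ => ?_
    rw [norm_b]
  · rw [Fin.sum_univ_one]
    congr 1
    refine Finset.sum_congr rfl fun i _ => ?_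
    unfold kiL
    rw [vpL_eq]
    rfl

end Pool.Agent.Y660.FB
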