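import Pool.Agent.Y660.FB.Low
import Pool.Agent.Y660.FB.Bump
import Pool.Agent.Y660.FB.Box

/-!
# Fermions bind

MP_791321_mp (helper660)
-/

set_option autoImplicit false

namespace Pool.Agent.Y660.FB

open MeasureTheory

/-- the cross product -/
def crs (a b : Fin 3 → ℝ) : Fin 3 → ℝ :=
  ![a 1 * b 2 - a 2 * b 1, a 2 * b 0 - a 0 * b 2, a 0 * b 1 - a 1 * b 0]

lemma dot3 (a b : Fin 3 → ℝ) : dot a b = a 0 * b 0 + a 1 * b 1 + a 2 * b 2 := by
  unfold dot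
  rw [Fin.sum_univ_three]

lemma crs0 (a b : Fin 3 → ℝ) : crs a b 0 = a 1 * b 2 - a 2 * b 1 := rfl

lemma crs1 (a b : Fin 3 → ℝ) : crs a b 1 = a 2 * b 0 - a 0 * b 2 := rfl

lemma crs2 (a b : Fin 3 → ℝ) : crs a b 2 = a 0 * b 1 - a 1 * b 0 := rfl

lemma dot_crs (a b : Fin 3 → ℝ) : dot (crs a b) a = 0 := by
  rw [dot3, crs0, crs1, crs2]
  ring

lemma dot_crs' (a b : Fin 3 → ℝ) : dot b (crs a b) = 0 := by
  rw [dot3, crs0, crs1, crs2]
  ring

lemma lagr (a b : Fin 3 → ℝ) : dot (crs a b) (crs a b) = dot a a * dot b b - dot a b ^ 2 := by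
  rw [dot3, dot3, dot3, dot3, crs0, crs1, crs2]
  ring

lemma dot_smul (c d : ℝ) (a b : Fin 3 → ℝ) :
    dot (fun i => c * a i) (fun i => d * b i) = c * d * dot a b := by
  unfold dot
  rw [Finset.mul_sum]
  exact Finset.sum_congr rfl fun i _ => by ring

lemma dot_comm' (a b : Fin 3 → ℝ) : dot a b = dot b a := by
  unfold dot
  exact Finset.sum_congr rfl fun i _ => mul_comm _ _

/-- there are polarisation vectors -/
lemma exists_pair (k : Fin 3 → ℝ) (hk : 0 < dot k k) : ∃ e : Fin 2 → Fin 3 → ℝ,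
    (∀ μ ν, dot (e μ) (e ν) = if μ = ν then 1 else 0) ∧ ∀ μ, dot (e μ) k = 0 := by
  obtain ⟨v, hv⟩ : ∃ v : Fin 3 → ℝ, 0 < dot (crs k v) (crs k v) := by
    by_contra hcon
    have h1 : ∀ v : Fin 3 → ℝ, dot (crs k v) (crs k v) = 0 := by
      intro v
      have h2 : 0 ≤ dot (crs k v) (crs k v) := dot_nonneg _
      by_contra h3
      exact hcon ⟨v, lt_of_le_of_ne h2 (Ne.symm h3)⟩
    have a1 := h1 ![1, 0, 0]
    have a2 := h1 ![0, 1, 0]
    rw [dot3, crs0, crs1, crs2] at a1 a2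
    rw [dot3] at hk
    simp at a1 a2
    nlinarith
  obtain ⟨e0, he0⟩ : ∃ e0 : Fin 3 → ℝ, e0 = fun i => (1 / √(dot (crs k v) (crs k v))) * crs k v i :=
    ⟨_, rfl⟩
  have h00 : dot e0 e0 = 1 := by
    rw [he0, dot_smul, ← sq, div_pow, Real.sq_sqrt hv.le, one_pow, one_div, inv_mul_cancel₀ hv.ne']
  have h0k : dot e0 k = 0 := by
    have h1 : dot e0 k = 1 / √(dot (crs k v) (crs k v)) * 1 * dot (crs k v) k := by
      rw [he0, ← dot_smul]
      simp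
    rw [h1, dot_crs, mul_zero]
  obtain ⟨e1, he1⟩ : ∃ e1 : Fin 3 → ℝ, e1 = fun i => (1 / √(dot k k)) * crs k e0 i := ⟨_, rfl⟩
  have h11 : dot e1 e1 = 1 := by
    have h2 : dot k e0 = 0 := by rw [dot_comm', h0k]
    rw [he1, dot_smul, ← sq, div_pow, Real.sq_sqrt hk.le, lagr, h00, h2, one_pow]
    field_simp
    ring
  have h1k : dot e1 k = 0 := by
    have h1 : dot e1 k = 1 / √(dot k k) * 1 * dot (crs k e0) k := by
      rw [he1, ← dot_smul]
      simp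
    rw [h1, dot_crs, mul_zero]
  have h01 : dot e0 e1 = 0 := by
    have h1 : dot e0 e1 = 1 * (1 / √(dot k k)) * dot e0 (crs k e0) := by
      rw [he1, ← dot_smul]
      simp
    rw [h1, dot_crs', mul_zero]
  refine ⟨![e0, e1], ?_, ?_⟩
  · intro μ ν
    fin_cases μ <;> fin_cases ν
    · exact h00
    · exact h01
    · exact (dot_comm' _ _).trans h01
    · exact h11
  · intro μ
    fin_cases μ
    · exact h0k
    · exact h1k

lemma exists_pol {L : ℝ} (hL : 0 < L) : ∃ ε, IsPol L ε := by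
  classical
  have h1 : ∀ n : Fin 3 → ℤ, ∃ e : Fin 2 → Fin 3 → ℝ, n ≠ 0 →
      (∀ μ ν, dot (e μ) (e ν) = if μ = ν then 1 else 0) ∧ ∀ μ, dot (e μ) (wv L n) = 0 := by
    intro n
    by_cases hn : n = 0
    · exact ⟨0, fun h => absurd hn h⟩
    · have h2 := wv_ne hL hn
      have h3 : 0 < dot (wv L n) (wv L n) := by
        rw [← len_sq]
        positivity
      obtain ⟨e, he⟩ := exists_pair _ h3
      exact ⟨e, fun _ => he⟩
  choose e he using h1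
  exact ⟨e, fun n hn => he n hn⟩

/-- the main estimate -/
theorem bind (N : ℕ) (hN : 2 ≤ N) : ∃ c : ℝ, 0 < c ∧ ∀ Λ α L : ℝ, 0 < Λ → Λ ≤ c →
    1 ≤ c * (Λ * α) → 1 ≤ c * (Λ * L) → ∀ ε, IsPol L ε →
      E0 (boxF Λ L ε) α N + Λ ≤ N * E0 (boxF Λ L ε) α 1 := by
  have hpi := Real.pi_pos
  have hN2 : (2 : ℝ) ≤ N := by exact_mod_cast hN
  have hN0 : (0 : ℝ) < N := by linarith
  obtain ⟨C, hC, hbump⟩ := exists_bump N
  obtain ⟨c0, hc0⟩ : ∃ c0 : ℝ, c0 = 2 / 3 / (8 * Real.pi) ^ 3 := ⟨_, rfl⟩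
  have hc0' : 0 < c0 := by rw [hc0]; positivity
  obtain ⟨c1, hc1⟩ : ∃ c1 : ℝ, c1 = (2 / (5 * (2 * C + 3))) ^ 2 := ⟨_, rfl⟩
  have hc1' : 0 < c1 := by rw [hc1]; positivity
  obtain ⟨c, hc⟩ : ∃ c : ℝ, c = min c1 (min (c0 / (64 * N)) (1 / (8 * Real.pi))) := ⟨_, rfl⟩
  have hcpos : 0 < c := by rw [hc]; positivity
  have hcc1 : c ≤ c1 := by rw [hc]; exact min_le_left _ _
  have hcc2 : c ≤ c0 / (64 * N) := by rw [hc]; exact (min_le_right _ _).trans (min_le_left _ _)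
  have hcc3 : c ≤ 1 / (8 * Real.pi) := by rw [hc]; exact (min_le_right _ _).trans (min_le_right _ _)
  refine ⟨c, hcpos, fun Λ α L hΛ hΛc hα hL ε hε => ?_⟩
  have hΛα : 0 < Λ * α := by
    by_contra hcon
    have : c * (Λ * α) ≤ 0 := mul_nonpos_of_nonneg_of_nonpos hcpos.le (not_lt.1 hcon)
    linarith
  have hα0 : 0 < α := (mul_pos_iff_of_pos_left hΛ).1 hΛα
  have hΛL : 0 < Λ * L := by
    by_contra hcon
    have : c * (Λ * L) ≤ 0 := mul_nonpos_of_nonneg_of_nonpos hcpos.le (not_lt.1 hcon)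
    linarith
  have hL0 : 0 < L := (mul_pos_iff_of_pos_left hΛ).1 hΛL
  have hΛL8 : 8 * Real.pi ≤ Λ * L := by
    have h1 : 1 ≤ 1 / (8 * Real.pi) * (Λ * L) :=
      hL.trans (mul_le_mul_of_nonneg_right hcc3 hΛL.le)
    rw [one_div, inv_mul_eq_div, le_div_iff₀ (by positivity)] at h1
    linarith
  let _ : Fintype (KK Λ L) := (KK_finite hL0).fintype
  obtain ⟨ν, hν⟩ : ∃ ν, ν = GG Λ L / L ^ 3 := ⟨_, rfl⟩
  have hνge := nu_ge (Λ := Λ) hL0 hΛ hΛL8
  have hν0 : 0 < ν := by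
    rw [hν]
    refine lt_of_lt_of_le ?_ hνge
    positivity
  have hcard : 0 < Fintype.card (KK Λ L) := by
    have h1 := card_ge (Λ := Λ) hL0 hΛ hΛL8
    have h2 : 0 < (Λ * L / (8 * Real.pi)) ^ 3 := by positivity
    have h3 : (0 : ℝ) < Fintype.card (KK Λ L) := h2.trans_le h1
    exact_mod_cast h3
  have hiso := box_iso (Λ := Λ) hL0 hε hcard
  have hκge := kk_ge (Λ := Λ) hL0 hΛ
  rw [← hν] at hνge hκge
  obtain ⟨κ, hκ⟩ : ∃ κ, κ = kk Λ L := ⟨_, rfl⟩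
  rw [← hκ] at hκge hiso
  have hκ0 : 0 < κ := hiso.hκ0
  have hVL : (boxF Λ L ε).V = L ^ 3 := rfl
  -- the energy scale
  obtain ⟨E, hE⟩ : ∃ E, E = √(N * (α * ν)) := ⟨_, rfl⟩
  have hE0 : 0 < E := by rw [hE]; exact Real.sqrt_pos.2 (by positivity)
  have hEE : E * E = N * (α * ν) := by rw [hE]; exact Real.mul_self_sqrt (by positivity)
  have hE8 : 8 * N * Λ ≤ E := by
    rw [hE]
    apply Real.le_sqrt_of_sq_le
    have h1 : 1 ≤ c0 / (64 * N) * (Λ * α) := hα.trans (mul_le_mul_of_nonneg_right hcc2 hΛα.le)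
    have h1' : 64 * N ≤ c0 * (Λ * α) := by
      rw [div_mul_eq_mul_div, le_div_iff₀ (by positivity)] at h1
      linarith
    have h2 : c0 * Λ ^ 3 ≤ ν := by
      refine le_trans (le_of_eq ?_) hνge
      rw [hc0, div_pow]
      ring
    have h3 : α * (c0 * Λ ^ 3) ≤ α * ν := mul_le_mul_of_nonneg_left h2 hα0.le
    have h4 : 0 < N * Λ ^ 2 := by positivity
    have h5 : N * Λ ^ 2 * (64 * N) ≤ N * Λ ^ 2 * (c0 * (Λ * α)) :=
      mul_le_mul_of_nonneg_left h1' h4.le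
    have h6 : N * (α * (c0 * Λ ^ 3)) ≤ N * (α * ν) := mul_le_mul_of_nonneg_left h3 hN0.le
    calc (8 * N * Λ) ^ 2 = N * Λ ^ 2 * (64 * N) := by ring
      _ ≤ N * Λ ^ 2 * (c0 * (Λ * α)) := h5
      _ = N * (α * (c0 * Λ ^ 3)) := by ring
      _ ≤ N * (α * ν) := h6
  -- one particle
  have hone := E0_one (boxF Λ L ε) α hα0.le hiso.hV (GG Λ L) hiso.hG hiso.he hiso.he1 hiso.hek
    hiso.hw Λ hiso.hΛ
  rw [hVL, ← hν] at hone
  have hone' : 21 / 10 * E - 3 / 2 * N * Λ ≤ N * E0 (boxF Λ L ε) α 1 := by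
    have h1 : N * (3 / 2 * √(α * ν) - 3 / 2 * Λ) ≤ N * E0 (boxF Λ L ε) α 1 :=
      mul_le_mul_of_nonneg_left hone hN0.le
    have h2 : 14 / 10 * E ≤ N * √(α * ν) := by
      have h3 : E = √N * √(α * ν) := by rw [hE, Real.sqrt_mul hN0.le]
      have h4 : 14 / 10 ≤ √(N : ℝ) := by
        apply Real.le_sqrt_of_sq_le
        norm_num
        linarith
      have h5 : √(N : ℝ) * √N = N := Real.mul_self_sqrt hN0.le
      have h6 : N * √(α * ν) = √N * E := by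
        rw [h3, ← mul_assoc, h5]
      rw [h6]
      exact mul_le_mul_of_nonneg_right h4 hE0.le
    linarith
  -- `N` particles
  obtain ⟨s, hs⟩ : ∃ s, s = ν / E / (2 * κ) := ⟨_, rfl⟩
  have hs0 : 0 < s := by rw [hs]; positivity
  have hs1 : s < 1 := by
    rw [hs, div_lt_one (by positivity), div_lt_iff₀ hE0]
    have h1 : ν ≤ κ * (2 * Λ) := by
      rw [div_le_iff₀ (by positivity)] at hκge
      exact hκge
    have h2 : Λ < E := by
      have : 8 * 2 * Λ ≤ 8 * N * Λ := by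
        refine mul_le_mul_of_nonneg_right ?_ hΛ.le
        linarith
      linarith
    have h3 : κ * (2 * Λ) < κ * (2 * E) := by
      refine mul_lt_mul_of_pos_left ?_ hκ0
      linarith
    linarith
  obtain ⟨Q, hQ⟩ : ∃ Q, Q = √Λ * E := ⟨_, rfl⟩
  have hsΛ0 : 0 < √Λ := Real.sqrt_pos.2 hΛ
  have hQ0 : 0 < Q := by rw [hQ]; positivity
  have hQQ : Q * Q = N * (α * ν) * Λ := by
    rw [hQ, ← hEE]
    have h1 : √Λ * √Λ = Λ := Real.mul_self_sqrt hΛ.le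
    calc √Λ * E * (√Λ * E) = (√Λ * √Λ) * (E * E) := by ring
      _ = E * E * Λ := by rw [h1]; ring
  obtain ⟨R, hR⟩ : ∃ R, R = √(1 / Q) := ⟨_, rfl⟩
  have hR0 : 0 < R := by rw [hR]; exact Real.sqrt_pos.2 (by positivity)
  have hR2 : R ^ 2 = 1 / Q := by rw [hR]; exact Real.sq_sqrt (by positivity)
  obtain ⟨Φ, p1, p2, p3, p4, p5, p6⟩ := hbump R hR0
  have htwo := E0_N p1 p2 hiso α hα0.le R s hs0 hs1 p3 p4 p5
  rw [hVL, ← hν] at htwo
  have t1 : ν / (2 * κ) * (3 / (4 * s)) = 3 / 4 * E := by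
    rw [hs]
    field_simp
  have t2 : N / 2 * α * (κ * (3 * s) + 3 / 2 * Λ * ν * R ^ 2) = 3 / 4 * E + 3 / 4 * Q := by
    rw [hR2, mul_add]
    congr 1
    · rw [hs]
      have : N / 2 * α * (κ * (3 * (ν / E / (2 * κ)))) = 3 / 4 * (N * (α * ν)) / E := by
        field_simp
        ring
      rw [this, ← hEE]
      field_simp
    · have : N / 2 * α * (3 / 2 * Λ * ν * (1 / Q)) = 3 / 4 * (N * (α * ν) * Λ) / Q := by ring
      rw [this, ← hQQ]
      field_simp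
  have t3 : (∫ x, gr Φ x) / (2 * ∫ x, Φ x ^ 2) ≤ C / 2 * Q := by
    rw [div_le_iff₀ (by positivity)]
    refine p6.trans (le_of_eq ?_)
    rw [hR2]
    field_simp
  rw [t1, t2] at htwo
  have hsΛ : √Λ ≤ 2 / (5 * (2 * C + 3)) := by
    have h1 : Λ ≤ (2 / (5 * (2 * C + 3))) ^ 2 := by
      rw [← hc1]
      exact hΛc.trans hcc1
    calc √Λ ≤ √((2 / (5 * (2 * C + 3))) ^ 2) := Real.sqrt_le_sqrt h1
      _ = 2 / (5 * (2 * C + 3)) := Real.sqrt_sq (by positivity)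
  have t4 : (2 * C + 3) / 4 * Q ≤ 1 / 10 * E := by
    rw [hQ]
    have h1 : (2 * C + 3) / 4 * √Λ ≤ 1 / 10 := by
      calc (2 * C + 3) / 4 * √Λ ≤ (2 * C + 3) / 4 * (2 / (5 * (2 * C + 3))) :=
            mul_le_mul_of_nonneg_left hsΛ (by positivity)
        _ = 1 / 10 := by
            field_simp
            norm_num
    calc (2 * C + 3) / 4 * (√Λ * E) = (2 * C + 3) / 4 * √Λ * E := by ring
      _ ≤ 1 / 10 * E := mul_le_mul_of_nonneg_right h1 hE0.le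
  have h9 : 2 * Λ ≤ N * Λ := mul_le_mul_of_nonneg_right hN2 hΛ.le
  have h10 : 8 * N * Λ = 8 * (N * Λ) := by ring
  have h11 : 3 / 2 * (N : ℝ) * Λ = 3 / 2 * (N * Λ) := by ring
  rw [h10] at hE8
  rw [h11] at hone'
  linarith

end Pool.Agent.Y660.FB
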