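import Pool.Agent.Y660.FB.Core

/-!
# The momentum operators, the field, and the Hamiltonian on the nice wave functions

MP_791321_mp (helper660)
-/

set_option autoImplicit false

namespace Pool.Agent.Y660.FB

open scoped InnerProductSpace ComplexConjugate
open MeasureTheory

variable {N : ℕ} {M : Type}

/-- multiplication by a smooth function -/
noncomputable def muL (c : (Fin N → Fin 3 → ℝ) → ℂ) (hc : ContDiff ℝ (⊤ : ℕ∞) c) :
    Sp N M →ₗ[ℂ] Sp N M where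
  toFun Ψ := ⟨fun x s n => c x * Ψ.1 x s n, Nice.mulc Ψ.2 hc⟩
  map_add' Ψ Φ := by
    apply Subtype.ext
    funext x s n
    exact mul_add _ _ _
  map_smul' z Ψ := by
    apply Subtype.ext
    funext x s n
    exact mul_left_comm _ _ _

/-- the momentum -/
noncomputable def moL (j : Fin N) (i : Fin 3) : Sp N M →ₗ[ℂ] Sp N M where
  toFun Ψ := ⟨mom j i Ψ.1, Nice.mom Ψ.2 j i⟩
  map_add' Ψ Φ := by
    apply Subtype.ext
    funext x s n
    show -Complex.I * fderiv ℝ (fun y => Ψ.1 y s n + Φ.1 y s n) x _ = _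
    have h1 : DifferentiableAt ℝ (fun y => Ψ.1 y s n) x :=
      ((Ψ.2.smooth s n).differentiable (by simp)) x
    have h2 : DifferentiableAt ℝ (fun y => Φ.1 y s n) x :=
      ((Φ.2.smooth s n).differentiable (by simp)) x
    rw [fderiv_fun_add h1 h2]
    exact mul_add _ _ _
  map_smul' z Ψ := by
    apply Subtype.ext
    funext x s n
    show -Complex.I * fderiv ℝ (fun y => z • Ψ.1 y s n) x _ = z * (-Complex.I * _)
    have h1 : DifferentiableAt ℝ (fun y => Ψ.1 y s n) x :=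
      ((Ψ.2.smooth s n).differentiable (by simp)) x
    rw [fderiv_fun_const_smul h1]
    simp only [ContinuousLinearMap.smul_apply, smul_eq_mul]
    ring

lemma fderiv_conj' {X : Type*} [NormedAddCommGroup X] [NormedSpace ℝ X] {f : X → ℂ} {x : X}
    (hf : DifferentiableAt ℝ f x) (v : X) :
    fderiv ℝ (fun y => conj (f y)) x v = conj (fderiv ℝ f x v) := by
  have h1 := ((Complex.conjCLE : ℂ ≃L[ℝ] ℂ).toContinuousLinearMap.hasFDerivAt (x := f x)).comp x
    hf.hasFDerivAt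
  have h2 : fderiv ℝ (fun y => conj (f y)) x =
      (Complex.conjCLE : ℂ ≃L[ℝ] ℂ).toContinuousLinearMap.comp (fderiv ℝ f x) := h1.fderiv
  rw [h2]
  rfl

/-- the momentum operators are symmetric -/
lemma mo_symm (j : Fin N) (i : Fin 3) (Ψ Φ : Sp N M) : ⟪moL j i Ψ, Φ⟫_ℂ = ⟪Ψ, moL j i Φ⟫_ℂ := by
  rw [inner_def, inner_def]
  unfold ip
  refine Finset.sum_congr rfl fun s _ => ?_
  congr 1
  funext n
  obtain ⟨v, hv⟩ : ∃ v : Fin N → Fin 3 → ℝ, v = Pi.single j (Pi.single i 1) := ⟨_, rfl⟩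
  have hΨ := Ψ.2
  have hΦ := Φ.2
  have hdΨ := Nice.diff hΨ v
  have hdΦ := Nice.diff hΦ v
  have hd : ∀ x, DifferentiableAt ℝ (fun y => Ψ.1 y s n) x :=
    fun x => ((hΨ.smooth s n).differentiable (by simp)) x
  have hd' : ∀ x, DifferentiableAt ℝ (fun y => Φ.1 y s n) x :=
    fun x => ((hΦ.smooth s n).differentiable (by simp)) x
  have hdc : ∀ x, DifferentiableAt ℝ (fun y => conj (Ψ.1 y s n)) x := fun x =>
    (Complex.conjCLE : ℂ ≃L[ℝ] ℂ).differentiableAt.comp x (hd x)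
  have h1 := integral_mul_fderiv_eq_neg_fderiv_mul_of_integrable (μ := volume)
    (f := fun y : Fin N → Fin 3 → ℝ => conj (Ψ.1 y s n)) (g := fun y => Φ.1 y s n) (v := v)
    (by
      simp_rw [fderiv_conj' (hd _)]
      exact Nice.integrable hdΨ hΦ s n)
    (Nice.integrable hΨ hdΦ s n) (Nice.integrable hΨ hΦ s n) (fun x _ => hdc x) (fun x _ => hd' x)
  simp_rw [fderiv_conj' (hd _)] at h1
  have e1 : ∀ x, conj ((moL j i Ψ).1 x s n) * Φ.1 x s n =
      Complex.I * (conj (fderiv ℝ (fun y => Ψ.1 y s n) x v) * Φ.1 x s n) := by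
    intro x
    show conj (-Complex.I * fderiv ℝ (fun y => Ψ.1 y s n) x (Pi.single j (Pi.single i 1))) * _ = _
    rw [← hv, map_mul, map_neg, Complex.conj_I, neg_neg, mul_assoc]
  have e2 : ∀ x, conj (Ψ.1 x s n) * (moL j i Φ).1 x s n =
      -Complex.I * (conj (Ψ.1 x s n) * fderiv ℝ (fun y => Φ.1 y s n) x v) := by
    intro x
    show _ * (-Complex.I * fderiv ℝ (fun y => Φ.1 y s n) x (Pi.single j (Pi.single i 1))) = _
    rw [← hv]
    ring
  simp_rw [e1, e2]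
  rw [integral_const_mul, integral_const_mul, h1]
  ring

/-- the phase `exp (i k x_j)` -/
noncomputable def ph (k : Fin 3 → ℝ) (j : Fin N) (x : Fin N → Fin 3 → ℝ) : ℂ :=
  Complex.exp (Complex.I * dot k (x j))

/-- the phase `exp (- i k x_j)` -/
noncomputable def ph' (k : Fin 3 → ℝ) (j : Fin N) (x : Fin N → Fin 3 → ℝ) : ℂ :=
  Complex.exp (-(Complex.I * dot k (x j)))

/-- the linear form `k x_j` -/
noncomputable def dotL (k : Fin 3 → ℝ) (j : Fin N) : (Fin N → Fin 3 → ℝ) →L[ℝ] ℝ :=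
  ∑ i, k i • ((ContinuousLinearMap.proj (R := ℝ) (φ := fun _ : Fin 3 => ℝ) i) ∘L
    (ContinuousLinearMap.proj (R := ℝ) (φ := fun _ : Fin N => Fin 3 → ℝ) j))

lemma dotL_apply (k : Fin 3 → ℝ) (j : Fin N) (x : Fin N → Fin 3 → ℝ) :
    dotL k j x = dot k (x j) := by
  unfold dotL dot
  simp

lemma ph_smooth (k : Fin 3 → ℝ) (j : Fin N) : ContDiff ℝ (⊤ : ℕ∞) (ph k j) := by
  unfold ph
  simp_rw [← dotL_apply]
  exact (contDiff_const.mul (Complex.ofRealCLM.contDiff.comp (dotL k j).contDiff)).cexp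

lemma ph'_smooth (k : Fin 3 → ℝ) (j : Fin N) : ContDiff ℝ (⊤ : ℕ∞) (ph' k j) := by
  unfold ph'
  simp_rw [← dotL_apply]
  exact (contDiff_const.mul (Complex.ofRealCLM.contDiff.comp (dotL k j).contDiff)).neg.cexp

lemma ph_mul (k : Fin 3 → ℝ) (j : Fin N) (x : Fin N → Fin 3 → ℝ) : ph k j x * ph' k j x = 1 := by
  unfold ph ph'
  rw [← Complex.exp_add, add_neg_cancel, Complex.exp_zero]

lemma ph_conj (k : Fin 3 → ℝ) (j : Fin N) (x : Fin N → Fin 3 → ℝ) :
    conj (ph k j x) = ph' k j x := by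
  unfold ph ph'
  rw [← Complex.exp_conj, map_mul, Complex.conj_I, Complex.conj_ofReal, neg_mul]

lemma ph_fderiv (k : Fin 3 → ℝ) (j : Fin N) (i : Fin 3) (x : Fin N → Fin 3 → ℝ) :
    fderiv ℝ (ph k j) x (Pi.single j (Pi.single i 1)) = Complex.I * k i * ph k j x := by
  have h1 : HasFDerivAt (ph k j) (ph k j x • (Complex.I • Complex.ofRealCLM.comp (dotL k j))) x := by
    unfold ph
    simp_rw [← dotL_apply]
    exact (((Complex.ofRealCLM.hasFDerivAt).comp x (dotL k j).hasFDerivAt).const_mul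
      Complex.I).cexp
  rw [h1.fderiv]
  show ph k j x * (Complex.I * ((dotL k j (Pi.single j (Pi.single i 1)) : ℝ) : ℂ)) = _
  rw [dotL_apply, Pi.single_eq_same]
  have : dot k (Pi.single i 1) = k i := by
    unfold dot
    simp [Pi.single_apply]
  rw [this]
  ring

lemma ph'_fderiv (k : Fin 3 → ℝ) (j : Fin N) (i : Fin 3) (x : Fin N → Fin 3 → ℝ) :
    fderiv ℝ (ph' k j) x (Pi.single j (Pi.single i 1)) = -(Complex.I * k i * ph' k j x) := by
  have h1 : HasFDerivAt (ph' k j)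
      (ph' k j x • (-(Complex.I • Complex.ofRealCLM.comp (dotL k j)))) x := by
    unfold ph'
    simp_rw [← dotL_apply]
    exact (((Complex.ofRealCLM.hasFDerivAt).comp x (dotL k j).hasFDerivAt).const_mul
      Complex.I).neg.cexp
  rw [h1.fderiv]
  show ph' k j x * (-(Complex.I * ((dotL k j (Pi.single j (Pi.single i 1)) : ℝ) : ℂ))) = _
  rw [dotL_apply, Pi.single_eq_same]
  have : dot k (Pi.single i 1) = k i := by
    unfold dot
    simp [Pi.single_apply]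
  rw [this]
  ring

section field

variable [DecidableEq M]

/-- annihilation with the phase -/
noncomputable def bL (F : Fld M) (j : Fin N) (m : M) : Sp N M →ₗ[ℂ] Sp N M :=
  (muL (ph (F.k m) j) (ph_smooth _ _)).comp (anL m)

/-- creation with the phase -/
noncomputable def bdL (F : Fld M) (j : Fin N) (m : M) : Sp N M →ₗ[ℂ] Sp N M :=
  (muL (ph' (F.k m) j) (ph'_smooth _ _)).comp (crL m)

omit [DecidableEq M] in
lemma mu_adj (k : Fin 3 → ℝ) (j : Fin N) (Ψ Φ : Sp N M) :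
    ⟪muL (ph k j) (ph_smooth _ _) Ψ, Φ⟫_ℂ = ⟪Ψ, muL (ph' k j) (ph'_smooth _ _) Φ⟫_ℂ := by
  rw [inner_def, inner_def]
  unfold ip
  refine Finset.sum_congr rfl fun s _ => ?_
  congr 1
  funext n
  congr 1
  funext x
  show conj (ph k j x * Ψ.1 x s n) * Φ.1 x s n = conj (Ψ.1 x s n) * (ph' k j x * Φ.1 x s n)
  rw [map_mul, ph_conj]
  ring

lemma bL_ccr (F : Fld M) (j : Fin N) : CCR (bL F j) (bdL F j) where
  adj m Ψ Φ := by
    show ⟪muL (ph (F.k m) j) (ph_smooth _ _) (anL m Ψ), Φ⟫_ℂ =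
      ⟪Ψ, muL (ph' (F.k m) j) (ph'_smooth _ _) (crL m Φ)⟫_ℂ
    rw [mu_adj, ccr.adj]
    congr 1
    apply Subtype.ext
    funext x s n
    exact mul_left_comm _ _ _
  com m m' Ψ := by
    apply Subtype.ext
    funext x s n
    have h0 := congrFun (congrFun (congrFun (an_cr m m' Ψ.1) x) s) n
    have h1 : (bL F j m (bdL F j m' Ψ)).1 x s n =
        ph (F.k m) j x * (ph' (F.k m') j x * an m (cr m' Ψ.1) x s n) := by
      show ph (F.k m) j x * (_ * (ph' (F.k m') j x * _)) = _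
      show ph (F.k m) j x * (_ * (ph' (F.k m') j x * _)) =
        ph (F.k m) j x * (ph' (F.k m') j x * (_ * _))
      congr 1
      exact mul_left_comm _ _ _
    have h2 : (bdL F j m' (bL F j m Ψ) + if m = m' then Ψ else 0).1 x s n =
        ph' (F.k m') j x * (ph (F.k m) j x * cr m' (an m Ψ.1) x s n) +
          (if m = m' then Ψ.1 else 0 : WF N M) x s n := by
      have e1 : (bdL F j m' (bL F j m Ψ) + if m = m' then Ψ else 0).1 x s n =
        (bdL F j m' (bL F j m Ψ)).1 x s n + (if m = m' then Ψ else 0 : Sp N M).1 x s n := rfl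
      rw [e1]
      congr 1
      · show ph' (F.k m') j x * (_ * (ph (F.k m) j x * _)) =
          ph' (F.k m') j x * (ph (F.k m) j x * (_ * _))
        congr 1
        exact mul_left_comm _ _ _
      · split_ifs <;> rfl
    rw [h1, h2, h0]
    by_cases hm : m = m'
    · subst hm
      rw [if_pos rfl]
      show ph (F.k m) j x * (ph' (F.k m) j x * (cr m (an m Ψ.1) x s n + Ψ.1 x s n)) =
        ph' (F.k m) j x * (ph (F.k m) j x * cr m (an m Ψ.1) x s n) + Ψ.1 x s n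
      have := ph_mul (F.k m) j x
      linear_combination Ψ.1 x s n * this
    · rw [if_neg hm]
      show ph (F.k m) j x * (ph' (F.k m') j x * (cr m' (an m Ψ.1) x s n + 0)) =
        ph' (F.k m') j x * (ph (F.k m) j x * cr m' (an m Ψ.1) x s n) + 0
      ring
  comb m m' Ψ := by
    apply Subtype.ext
    funext x s n
    have h0 := congrFun (congrFun (congrFun (an_an m m' Ψ.1) x) s) n
    show ph (F.k m) j x * (((√(n m + 1 : ℝ) : ℝ) : ℂ) * (ph (F.k m') j x *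
      an m' Ψ.1 x s (n + Pi.single m 1))) = ph (F.k m') j x * (((√(n m' + 1 : ℝ) : ℝ) : ℂ) *
      (ph (F.k m) j x * an m Ψ.1 x s (n + Pi.single m' 1)))
    have h1 : ((√(n m + 1 : ℝ) : ℝ) : ℂ) * an m' Ψ.1 x s (n + Pi.single m 1) =
      ((√(n m' + 1 : ℝ) : ℝ) : ℂ) * an m Ψ.1 x s (n + Pi.single m' 1) := h0
    linear_combination ph (F.k m) j x * ph (F.k m') j x * h1
  comd m m' Ψ := by
    apply Subtype.ext
    funext x s n
    have h0 := congrFun (congrFun (congrFun (cr_cr m m' Ψ.1) x) s) n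
    show ph' (F.k m) j x * (((√(n m : ℝ) : ℝ) : ℂ) * (ph' (F.k m') j x *
      cr m' Ψ.1 x s (n - Pi.single m 1))) = ph' (F.k m') j x * (((√(n m' : ℝ) : ℝ) : ℂ) *
      (ph' (F.k m) j x * cr m Ψ.1 x s (n - Pi.single m' 1)))
    have h1 : ((√(n m : ℝ) : ℝ) : ℂ) * cr m' Ψ.1 x s (n - Pi.single m 1) =
      ((√(n m' : ℝ) : ℝ) : ℂ) * cr m Ψ.1 x s (n - Pi.single m' 1) := h0
    linear_combination ph' (F.k m) j x * ph' (F.k m') j x * h1

/-- the commutator of the momentum and the annihilation operators -/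
lemma mo_b (F : Fld M) (j : Fin N) (i : Fin 3) (m : M) (Ψ : Sp N M) :
    moL j i (bL F j m Ψ) = bL F j m (moL j i Ψ) + (F.k m i : ℂ) • bL F j m Ψ := by
  apply Subtype.ext
  funext x s n
  have hd : DifferentiableAt ℝ (fun y => Ψ.1 y s (n + Pi.single m 1)) x :=
    ((Ψ.2.smooth s _).differentiable (by simp)) x
  have hp : DifferentiableAt ℝ (ph (F.k m) j) x :=
    ((ph_smooth (F.k m) j).differentiable (by simp)) x
  have e1 : fderiv ℝ (fun y => ph (F.k m) j y * (((√(n m + 1 : ℝ) : ℝ) : ℂ) *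
      Ψ.1 y s (n + Pi.single m 1))) x (Pi.single j (Pi.single i 1)) =
      ph (F.k m) j x * (((√(n m + 1 : ℝ) : ℝ) : ℂ) * fderiv ℝ (fun y => Ψ.1 y s
        (n + Pi.single m 1)) x (Pi.single j (Pi.single i 1))) +
      (((√(n m + 1 : ℝ) : ℝ) : ℂ) * Ψ.1 x s (n + Pi.single m 1)) *
        (Complex.I * F.k m i * ph (F.k m) j x) := by
    rw [← ph_fderiv, fderiv_fun_mul hp (hd.const_mul _), fderiv_const_mul hd]
    simp only [ContinuousLinearMap.add_apply, ContinuousLinearMap.smul_apply, smul_eq_mul]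
  show -Complex.I * fderiv ℝ (fun y => ph (F.k m) j y * (((√(n m + 1 : ℝ) : ℝ) : ℂ) *
      Ψ.1 y s (n + Pi.single m 1))) x (Pi.single j (Pi.single i 1)) =
      ph (F.k m) j x * (((√(n m + 1 : ℝ) : ℝ) : ℂ) * (-Complex.I * fderiv ℝ (fun y => Ψ.1 y s
        (n + Pi.single m 1)) x (Pi.single j (Pi.single i 1)))) + (F.k m i : ℂ) *
      (ph (F.k m) j x * (((√(n m + 1 : ℝ) : ℝ) : ℂ) * Ψ.1 x s (n + Pi.single m 1)))
  rw [e1]
  have hI : Complex.I * Complex.I = -1 := Complex.I_mul_I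
  linear_combination (-(F.k m i : ℂ) * ph (F.k m) j x * (((√(n m + 1 : ℝ) : ℝ) : ℂ) *
    Ψ.1 x s (n + Pi.single m 1))) * hI

lemma mo_bd (F : Fld M) (j : Fin N) (i : Fin 3) (m : M) (Ψ : Sp N M) :
    moL j i (bdL F j m Ψ) = bdL F j m (moL j i Ψ) - (F.k m i : ℂ) • bdL F j m Ψ := by
  apply Subtype.ext
  funext x s n
  have hd : DifferentiableAt ℝ (fun y => Ψ.1 y s (n - Pi.single m 1)) x :=
    ((Ψ.2.smooth s _).differentiable (by simp)) x
  have hp : DifferentiableAt ℝ (ph' (F.k m) j) x :=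
    ((ph'_smooth (F.k m) j).differentiable (by simp)) x
  have e1 : fderiv ℝ (fun y => ph' (F.k m) j y * (((√(n m : ℝ) : ℝ) : ℂ) *
      Ψ.1 y s (n - Pi.single m 1))) x (Pi.single j (Pi.single i 1)) =
      ph' (F.k m) j x * (((√(n m : ℝ) : ℝ) : ℂ) * fderiv ℝ (fun y => Ψ.1 y s
        (n - Pi.single m 1)) x (Pi.single j (Pi.single i 1))) +
      (((√(n m : ℝ) : ℝ) : ℂ) * Ψ.1 x s (n - Pi.single m 1)) *
        (-(Complex.I * F.k m i * ph' (F.k m) j x)) := by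
    rw [← ph'_fderiv, fderiv_fun_mul hp (hd.const_mul _), fderiv_const_mul hd]
    simp only [ContinuousLinearMap.add_apply, ContinuousLinearMap.smul_apply, smul_eq_mul]
  show -Complex.I * fderiv ℝ (fun y => ph' (F.k m) j y * (((√(n m : ℝ) : ℝ) : ℂ) *
      Ψ.1 y s (n - Pi.single m 1))) x (Pi.single j (Pi.single i 1)) =
      ph' (F.k m) j x * (((√(n m : ℝ) : ℝ) : ℂ) * (-Complex.I * fderiv ℝ (fun y => Ψ.1 y s
        (n - Pi.single m 1)) x (Pi.single j (Pi.single i 1)))) - (F.k m i : ℂ) *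
      (ph' (F.k m) j x * (((√(n m : ℝ) : ℝ) : ℂ) * Ψ.1 x s (n - Pi.single m 1)))
  rw [e1]
  have hI : Complex.I * Complex.I = -1 := Complex.I_mul_I
  linear_combination ((F.k m i : ℂ) * ph' (F.k m) j x * (((√(n m : ℝ) : ℝ) : ℂ) *
    Ψ.1 x s (n - Pi.single m 1))) * hI

variable [Fintype M]

/-- the coefficients of the vector potential -/
noncomputable def gc (F : Fld M) (i : Fin 3) (m : M) : ℝ := F.e m i / √(2 * F.V * len (F.k m))

/-- the vector potential -/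
noncomputable def vpL (F : Fld M) (j : Fin N) (i : Fin 3) (Ψ : Sp N M) : Sp N M :=
  ∑ m, ((gc F i m : ℝ) : ℂ) • (bL F j m Ψ + bdL F j m Ψ)

omit [DecidableEq M] [Fintype M] in
lemma coe_sum {ι : Type*} (t : Finset ι) (f : ι → Sp N M) :
    (∑ i ∈ t, f i : Sp N M).1 = ∑ i ∈ t, (f i).1 :=
  map_sum (Nc N M).subtype f t

lemma vp_eq (F : Fld M) (j : Fin N) (i : Fin 3) (Ψ : Sp N M) :
    vp F j i Ψ.1 = (vpL F j i Ψ).1 := by
  funext x s n
  unfold vp vpL
  rw [finsum_eq_sum_of_fintype, coe_sum, Finset.sum_apply, Finset.sum_apply, Finset.sum_apply]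
  rfl

lemma vpL_eq (F : Fld M) (j : Fin N) (i : Fin 3) (Ψ : Sp N M) :
    vpL F j i Ψ = bs (bL F j) (fun m => ((gc F i m : ℝ) : ℂ)) Ψ +
      bc (bdL F j) (fun m => ((gc F i m : ℝ) : ℂ)) Ψ := by
  unfold vpL bs bc
  rw [← Finset.sum_add_distrib]
  refine Finset.sum_congr rfl fun m _ => ?_
  rw [smul_add, Complex.conj_ofReal]

/-- `p + √α A` -/
noncomputable def kiL (F : Fld M) (α : ℝ) (j : Fin N) (i : Fin 3) (Ψ : Sp N M) : Sp N M :=
  moL j i Ψ + ((√α : ℝ) : ℂ) • vpL F j i Ψ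

lemma kin_eq (F : Fld M) (α : ℝ) (j : Fin N) (i : Fin 3) (Ψ : Sp N M) :
    kin F α j i Ψ.1 = (kiL F α j i Ψ).1 := by
  unfold kin
  rw [vp_eq]
  rfl

/-- the Hamiltonian -/
noncomputable def HaL (F : Fld M) (α : ℝ) (Ψ : Sp N M) : Sp N M :=
  ∑ m, ((len (F.k m) : ℝ) : ℂ) • crL m (anL m Ψ) +
    (1 / 2 : ℂ) • ∑ j, ∑ i, kiL F α j i (kiL F α j i Ψ)

lemma Ham_eq (F : Fld M) (α : ℝ) (Ψ : Sp N M) : Ham F α Ψ.1 = (HaL F α Ψ).1 := by
  have h1 : Hf F Ψ.1 = (∑ m, ((len (F.k m) : ℝ) : ℂ) • crL m (anL m Ψ) : Sp N M).1 := by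
    funext x s n
    unfold Hf
    rw [finsum_eq_sum_of_fintype, coe_sum, Finset.sum_apply, Finset.sum_apply, Finset.sum_apply]
    rfl
  have h2 : (∑ j, ∑ i, kin F α j i (kin F α j i Ψ.1)) =
      (∑ j, ∑ i, kiL F α j i (kiL F α j i Ψ) : Sp N M).1 := by
    rw [coe_sum]
    refine Finset.sum_congr rfl fun j _ => ?_
    rw [coe_sum]
    refine Finset.sum_congr rfl fun i _ => ?_
    rw [kin_eq, kin_eq]
  unfold Ham
  rw [h1, h2]
  rfl

lemma vp_symm (F : Fld M) (j : Fin N) (i : Fin 3) (Ψ Φ : Sp N M) :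
    ⟪vpL F j i Ψ, Φ⟫_ℂ = ⟪Ψ, vpL F j i Φ⟫_ℂ := by
  have h := bL_ccr (N := N) F j
  rw [vpL_eq, vpL_eq, inner_add_left, inner_add_right, h.adj', h.adj2, add_comm]

lemma ki_symm (F : Fld M) (α : ℝ) (j : Fin N) (i : Fin 3) (Ψ Φ : Sp N M) :
    ⟪kiL F α j i Ψ, Φ⟫_ℂ = ⟪Ψ, kiL F α j i Φ⟫_ℂ := by
  unfold kiL
  rw [inner_add_left, inner_add_right, mo_symm, inner_smul_left, inner_smul_right, vp_symm,
    Complex.conj_ofReal]

/-- the energy as a sum of squares -/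
lemma energy (F : Fld M) (α : ℝ) (Ψ : Sp N M) : (ip Ψ.1 (Ham F α Ψ.1)).re =
    ∑ m, len (F.k m) * ‖anL m Ψ‖ ^ 2 + 1 / 2 * ∑ j, ∑ i, ‖kiL F α j i Ψ‖ ^ 2 := by
  rw [Ham_eq, ← inner_def]
  unfold HaL
  rw [inner_add_right, inner_smul_right, inner_sum, inner_sum, Complex.add_re, Complex.re_sum]
  congr 1
  · refine Finset.sum_congr rfl fun m _ => ?_
    rw [inner_smul_right, ← ccr.adj, Complex.re_ofReal_mul, re_self]
  · have h1 : (1 / 2 : ℂ) = ((1 / 2 : ℝ) : ℂ) := by push_cast; rfl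
    rw [h1, Complex.re_ofReal_mul, Complex.re_sum]
    congr 1
    refine Finset.sum_congr rfl fun j _ => ?_
    rw [inner_sum, Complex.re_sum]
    refine Finset.sum_congr rfl fun i _ => ?_
    rw [← ki_symm, re_self]

omit [Fintype M] in
lemma norm_b (F : Fld M) (j : Fin N) (m : M) (Ψ : Sp N M) : ‖bL F j m Ψ‖ ^ 2 = ‖anL m Ψ‖ ^ 2 := by
  rw [← re_self, ← re_self]
  congr 1
  show ⟪muL (ph (F.k m) j) (ph_smooth _ _) (anL m Ψ), muL (ph (F.k m) j) (ph_smooth _ _)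
    (anL m Ψ)⟫_ℂ = _
  rw [mu_adj]
  congr 1
  apply Subtype.ext
  funext x s n
  show ph' (F.k m) j x * (ph (F.k m) j x * an m Ψ.1 x s n) = an m Ψ.1 x s n
  rw [← mul_assoc, mul_comm (ph' _ _ _), ph_mul, one_mul]

end field

end Pool.Agent.Y660.FB
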