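import Pool.Agent.Y660.FB.Abs

/-!
# Truncated squeezed states in three modes

MP_791321_mp (helper660)
-/

set_option autoImplicit false

namespace Pool.Agent.Y660.FB

open scoped InnerProductSpace ComplexConjugate

variable {E : Type*} [SeminormedAddCommGroup E] [InnerProductSpace ℂ E]
variable {M : Type*} [Fintype M] [DecidableEq M]
variable {b bd : M → E →ₗ[ℂ] E}

lemma CCR.com1 (h : CCR b bd) (m : M) (f : M → ℂ) (u : E) :
    b m (bc bd f u) = bc bd f (b m u) + f m • u := by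
  unfold bc
  rw [map_sum]
  simp only [map_smul, h.com, smul_add, Finset.sum_add_distrib]
  congr 1
  rw [Finset.sum_eq_single m]
  · rw [if_pos rfl]
  · intro m' _ hm
    rw [if_neg (Ne.symm hm), smul_zero]
  · intro hm
    exact absurd (Finset.mem_univ m) hm

/-- the terms of the squeezed state -/
noncomputable def wt (bd : M → E →ₗ[ℂ] E) (v : Fin 3 → M → ℂ) (t : ℝ) (Ω0 : E) : ℕ → E
  | 0 => Ω0
  | j + 1 => ((t / (2 * (j + 1)) : ℝ) : ℂ) • ∑ i, bc bd (v i) (bc bd (v i) (wt bd v t Ω0 j))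

section

variable (v : Fin 3 → M → ℂ) (t : ℝ) (Ω0 : E)

omit [DecidableEq M] in
lemma wt_def (j : ℕ) : wt bd v t Ω0 (j + 1) = ((t / (2 * (j + 1)) : ℝ) : ℂ) •
    ∑ i, bc bd (v i) (bc bd (v i) (wt bd v t Ω0 j)) := rfl

omit [DecidableEq M] in
lemma wt_succ (j : ℕ) : (t : ℂ) • ∑ i, bc bd (v i) (bc bd (v i) (wt bd v t Ω0 j)) =
    ((2 * (j + 1) : ℝ) : ℂ) • wt bd v t Ω0 (j + 1) := by
  rw [wt_def, smul_smul, ← Complex.ofReal_mul]
  congr 2
  have : (2 * ((j : ℝ) + 1)) ≠ 0 := by positivity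
  field_simp

lemma b_wt (h : CCR b bd) (h0 : ∀ m, b m Ω0 = 0) (j : ℕ) (m : M) :
    b m (wt bd v t Ω0 (j + 1)) = (t : ℂ) • ∑ i, v i m • bc bd (v i) (wt bd v t Ω0 j) := by
  induction j with
  | zero =>
    have e1 : ∀ i, b m (bc bd (v i) (bc bd (v i) (wt bd v t Ω0 0))) =
        (2 : ℂ) • (v i m • bc bd (v i) (wt bd v t Ω0 0)) := by
      intro i
      have e2 : b m (wt bd v t Ω0 0) = 0 := h0 m
      rw [h.com1, h.com1, e2]
      have e3 : bc bd (v i) 0 = (0 : E) := by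
        unfold bc
        simp
      rw [e3, zero_add, bc_smul]
      module
    rw [wt_def, map_smul, map_sum]
    simp_rw [e1]
    rw [← Finset.smul_sum, smul_smul]
    congr 1
    push_cast
    ring
  | succ j ih =>
    have e1 : ∀ i, b m (bc bd (v i) (bc bd (v i) (wt bd v t Ω0 (j + 1)))) =
        (t : ℂ) • ∑ l, v l m • bc bd (v l) (bc bd (v i) (bc bd (v i) (wt bd v t Ω0 j))) +
        (2 : ℂ) • (v i m • bc bd (v i) (wt bd v t Ω0 (j + 1))) := by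
      intro i
      rw [h.com1, h.com1, ih, bc_smul, bc_sum, bc_add, bc_smul, bc_smul, bc_sum]
      have e2 : ∀ l, bc bd (v i) (bc bd (v i) (v l m • bc bd (v l) (wt bd v t Ω0 j))) =
          v l m • bc bd (v l) (bc bd (v i) (bc bd (v i) (wt bd v t Ω0 j))) := by
        intro l
        rw [bc_smul, bc_smul, h.comd' (v i) (v l), h.comd' (v i) (v l)]
      simp_rw [e2]
      module
    rw [wt_def, map_smul, map_sum]
    simp_rw [e1]
    rw [Finset.sum_add_distrib, ← Finset.smul_sum, ← Finset.smul_sum, Finset.sum_comm]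
    simp_rw [← Finset.smul_sum]
    have e3 : ∀ l, (t : ℂ) • ∑ i, bc bd (v l) (bc bd (v i) (bc bd (v i) (wt bd v t Ω0 j))) =
        ((2 * (j + 1) : ℝ) : ℂ) • bc bd (v l) (wt bd v t Ω0 (j + 1)) := by
      intro l
      rw [← bc_sum, ← bc_smul, wt_succ, bc_smul]
    rw [Finset.smul_sum (r := (t : ℂ))]
    simp_rw [smul_comm (t : ℂ) (v _ m)]
    simp_rw [e3]
    simp_rw [smul_comm (v _ m) (((2 * (j + 1) : ℝ) : ℂ))]
    rw [← Finset.smul_sum, ← add_smul, smul_smul]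
    congr 1
    have : ((t / (2 * (((j + 1 : ℕ) : ℝ) + 1)) : ℝ) : ℂ) * (((2 * (j + 1) : ℝ) : ℂ) + 2) =
        ((t / (2 * (((j + 1 : ℕ) : ℝ) + 1)) * (2 * (j + 1) + 2) : ℝ) : ℂ) := by push_cast; ring
    rw [this]
    congr 1
    have h2 : (2 * (((j + 1 : ℕ) : ℝ) + 1)) ≠ 0 := by positivity
    push_cast at h2 ⊢
    field_simp

variable {v t Ω0}

lemma bs_wt (h : CCR b bd) (h0 : ∀ m, b m Ω0 = 0)
    (hv : ∀ i j, ∑ m, conj (v i m) * v j m = if i = j then 1 else 0) (j : ℕ) (i : Fin 3) :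
    bs b (v i) (wt bd v t Ω0 (j + 1)) = (t : ℂ) • bc bd (v i) (wt bd v t Ω0 j) := by
  have e1 : bs b (v i) (wt bd v t Ω0 (j + 1)) =
      (t : ℂ) • ∑ l, (∑ m, conj (v i m) * v l m) • bc bd (v l) (wt bd v t Ω0 j) := by
    unfold bs
    simp_rw [b_wt v t Ω0 h h0, Finset.sum_smul]
    rw [Finset.sum_comm, Finset.smul_sum]
    refine Finset.sum_congr rfl fun m _ => ?_
    rw [smul_comm]
    congr 1
    rw [Finset.smul_sum]
    refine Finset.sum_congr rfl fun l _ => ?_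
    rw [smul_smul]
  rw [e1]
  simp_rw [hv]
  congr 1
  rw [Finset.sum_eq_single i]
  · rw [if_pos rfl, one_smul]
  · intro l _ hl
    rw [if_neg (Ne.symm hl), zero_smul]
  · intro hi
    exact absurd (Finset.mem_univ i) hi

omit [DecidableEq M] in
lemma bs_wt0 (h0 : ∀ m, b m Ω0 = 0) (i : Fin 3) :
    bs b (v i) (wt bd v t Ω0 0) = 0 := by
  unfold bs
  refine Finset.sum_eq_zero fun m _ => ?_
  have : b m (wt bd v t Ω0 0) = 0 := h0 m
  rw [this, smul_zero]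

lemma num_wt (h : CCR b bd) (h0 : ∀ m, b m Ω0 = 0)
    (hv : ∀ i j, ∑ m, conj (v i m) * v j m = if i = j then 1 else 0) (j : ℕ) :
    ∑ i, bc bd (v i) (bs b (v i) (wt bd v t Ω0 j)) = ((2 * j : ℝ) : ℂ) • wt bd v t Ω0 j := by
  cases j with
  | zero =>
    simp_rw [bs_wt0 h0]
    have e3 : ∀ i, bc bd (v i) 0 = (0 : E) := by
      intro i
      unfold bc
      simp
    simp [e3]
  | succ j =>
    simp_rw [bs_wt h h0 hv, bc_smul]
    rw [← Finset.smul_sum, wt_succ]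
    congr 2
    push_cast
    ring

lemma orth_wt (h : CCR b bd) (h0 : ∀ m, b m Ω0 = 0)
    (hv : ∀ i j, ∑ m, conj (v i m) * v j m = if i = j then 1 else 0) {j l : ℕ} (hjl : j ≠ l) :
    ⟪wt bd v t Ω0 j, wt bd v t Ω0 l⟫_ℂ = 0 := by
  have e1 : ⟪∑ i, bc bd (v i) (bs b (v i) (wt bd v t Ω0 j)), wt bd v t Ω0 l⟫_ℂ =
      ⟪wt bd v t Ω0 j, ∑ i, bc bd (v i) (bs b (v i) (wt bd v t Ω0 l))⟫_ℂ := by
    rw [sum_inner, inner_sum]
    refine Finset.sum_congr rfl fun i _ => ?_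
    rw [h.adj2, h.adj']
  rw [num_wt h h0 hv, num_wt h h0 hv, inner_smul_left, inner_smul_right, Complex.conj_ofReal] at e1
  have e2 : (((2 * j : ℝ) : ℂ) - ((2 * l : ℝ) : ℂ)) * ⟪wt bd v t Ω0 j, wt bd v t Ω0 l⟫_ℂ = 0 := by
    rw [sub_mul, e1, sub_self]
  rcases mul_eq_zero.1 e2 with e3 | e3
  · exfalso
    apply hjl
    rw [← Complex.ofReal_sub, Complex.ofReal_eq_zero] at e3
    have : (j : ℝ) = l := by linarith
    exact_mod_cast this
  · exact e3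

/-- `∑ ‖a_i w_j‖² = 2 j ‖w_j‖²` -/
lemma sum_bs_wt (h : CCR b bd) (h0 : ∀ m, b m Ω0 = 0)
    (hv : ∀ i j, ∑ m, conj (v i m) * v j m = if i = j then 1 else 0) (j : ℕ) :
    ∑ i, ‖bs b (v i) (wt bd v t Ω0 j)‖ ^ 2 = 2 * j * ‖wt bd v t Ω0 j‖ ^ 2 := by
  have e1 : ∀ i, ‖bs b (v i) (wt bd v t Ω0 j)‖ ^ 2 =
      (⟪wt bd v t Ω0 j, bc bd (v i) (bs b (v i) (wt bd v t Ω0 j))⟫_ℂ).re := by
    intro i
    rw [← h.adj', re_self]
  simp_rw [e1]
  rw [← Complex.re_sum, ← inner_sum, num_wt h h0 hv, inner_smul_right, Complex.re_ofReal_mul,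
    re_self]

omit [DecidableEq M] in
lemma norm_v (hv : ∀ i j, ∑ m, conj (v i m) * v j m = if i = j then 1 else 0) (i : Fin 3) :
    ∑ m, ‖v i m‖ ^ 2 = 1 := by
  have e1 := hv i i
  rw [if_pos rfl] at e1
  have e2 : ∀ m, conj (v i m) * v i m = ((‖v i m‖ ^ 2 : ℝ) : ℂ) := by
    intro m
    rw [← Complex.normSq_eq_conj_mul_self, Complex.normSq_eq_norm_sq]
  simp_rw [e2] at e1
  rw [← Complex.ofReal_sum] at e1
  exact_mod_cast e1

/-- the recursion of the norms -/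
lemma rec_wt (h : CCR b bd) (h0 : ∀ m, b m Ω0 = 0)
    (hv : ∀ i j, ∑ m, conj (v i m) * v j m = if i = j then 1 else 0) (j : ℕ) :
    2 * (j + 1) * ‖wt bd v t Ω0 (j + 1)‖ ^ 2 = t ^ 2 * ((2 * j + 3) * ‖wt bd v t Ω0 j‖ ^ 2) := by
  have e1 := sum_bs_wt (t := t) h h0 hv (j + 1)
  simp_rw [bs_wt h h0 hv, norm_smul, mul_pow, Complex.norm_real, Real.norm_eq_abs, sq_abs,
    h.norm_bc, norm_v hv] at e1
  rw [← Finset.mul_sum, Finset.sum_add_distrib, sum_bs_wt h h0 hv] at e1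
  simp only [one_mul, Finset.sum_const, Finset.card_univ, Fintype.card_fin, nsmul_eq_mul] at e1
  push_cast at e1
  linarith

lemma wt_le (h : CCR b bd) (h0 : ∀ m, b m Ω0 = 0) (h1 : ‖Ω0‖ = 1)
    (hv : ∀ i j, ∑ m, conj (v i m) * v j m = if i = j then 1 else 0) (j : ℕ) :
    ‖wt bd v t Ω0 j‖ ^ 2 ≤ (j + 1) * (t ^ 2) ^ j := by
  induction j with
  | zero =>
    have : wt bd v t Ω0 0 = Ω0 := rfl
    rw [this, h1]
    simp
  | succ j ih =>
    have e1 := rec_wt (t := t) h h0 hv j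
    have e2 : t ^ 2 * ((2 * j + 3) * ‖wt bd v t Ω0 j‖ ^ 2) ≤
        t ^ 2 * ((2 * j + 3) * ((j + 1) * (t ^ 2) ^ j)) :=
      mul_le_mul_of_nonneg_left (mul_le_mul_of_nonneg_left ih (by positivity)) (by positivity)
    rw [← e1] at e2
    have e3 : 2 * ((j : ℝ) + 1) * ((((j + 1 : ℕ) : ℝ) + 1) * (t ^ 2) ^ (j + 1)) =
        t ^ 2 * ((2 * j + 4) * ((j + 1) * (t ^ 2) ^ j)) := by
      push_cast
      ring
    have e4 : t ^ 2 * ((2 * j + 3) * ((j + 1) * (t ^ 2) ^ j)) ≤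
        t ^ 2 * ((2 * j + 4) * ((j + 1) * (t ^ 2) ^ j)) := by
      refine mul_le_mul_of_nonneg_left (mul_le_mul_of_nonneg_right ?_ (by positivity))
        (by positivity)
      linarith
    rw [← e3] at e4
    have e5 := e2.trans e4
    exact le_of_mul_le_mul_left e5 (by positivity)

/-- the truncated squeezed state -/
noncomputable def sqs (bd : M → E →ₗ[ℂ] E) (v : Fin 3 → M → ℂ) (t : ℝ) (Ω0 : E) (J : ℕ) : E :=
  ∑ j ∈ Finset.range (J + 1), wt bd v t Ω0 j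

lemma inner_sqs (h : CCR b bd) (h0 : ∀ m, b m Ω0 = 0)
    (hv : ∀ i j, ∑ m, conj (v i m) * v j m = if i = j then 1 else 0) (J : ℕ) (c : ℕ → ℝ) :
    (⟪sqs bd v t Ω0 J, ∑ j ∈ Finset.range (J + 1), (c j : ℂ) • wt bd v t Ω0 j⟫_ℂ).re =
      ∑ j ∈ Finset.range (J + 1), c j * ‖wt bd v t Ω0 j‖ ^ 2 := by
  unfold sqs
  rw [sum_inner, Complex.re_sum]
  refine Finset.sum_congr rfl fun j hj => ?_
  rw [inner_sum, Complex.re_sum, Finset.sum_eq_single j]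
  · rw [inner_smul_right, Complex.re_ofReal_mul, re_self]
  · intro l _ hl
    rw [inner_smul_right, orth_wt h h0 hv (Ne.symm hl), mul_zero, Complex.zero_re]
  · intro hj'
    exact absurd hj hj'

lemma norm_sqs (h : CCR b bd) (h0 : ∀ m, b m Ω0 = 0)
    (hv : ∀ i j, ∑ m, conj (v i m) * v j m = if i = j then 1 else 0) (J : ℕ) :
    ‖sqs bd v t Ω0 J‖ ^ 2 = ∑ j ∈ Finset.range (J + 1), ‖wt bd v t Ω0 j‖ ^ 2 := by
  have e1 := inner_sqs (t := t) h h0 hv J (fun _ => 1)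
  simp only [Complex.ofReal_one, one_smul, one_mul] at e1
  rw [← e1, ← re_self]
  rfl

/-- the mean photon number -/
lemma sum_bs_sqs (h : CCR b bd) (h0 : ∀ m, b m Ω0 = 0)
    (hv : ∀ i j, ∑ m, conj (v i m) * v j m = if i = j then 1 else 0) (J : ℕ) :
    ∑ i, ‖bs b (v i) (sqs bd v t Ω0 J)‖ ^ 2 =
      ∑ j ∈ Finset.range (J + 1), 2 * j * ‖wt bd v t Ω0 j‖ ^ 2 := by
  have e1 : ∀ i, ‖bs b (v i) (sqs bd v t Ω0 J)‖ ^ 2 =
      (⟪sqs bd v t Ω0 J, bc bd (v i) (bs b (v i) (sqs bd v t Ω0 J))⟫_ℂ).re := by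
    intro i
    rw [← h.adj', re_self]
  simp_rw [e1]
  rw [← Complex.re_sum, ← inner_sum]
  have e2 : ∑ i, bc bd (v i) (bs b (v i) (sqs bd v t Ω0 J)) =
      ∑ j ∈ Finset.range (J + 1), ((2 * j : ℝ) : ℂ) • wt bd v t Ω0 j := by
    unfold sqs
    simp_rw [bs_sum, bc_sum]
    rw [Finset.sum_comm]
    refine Finset.sum_congr rfl fun j _ => ?_
    rw [num_wt h h0 hv]
  rw [e2]
  exact inner_sqs h h0 hv J (fun j => 2 * j)

/-- the annihilation operators on the truncated squeezed state -/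
lemma b_sqs (h : CCR b bd) (h0 : ∀ m, b m Ω0 = 0)
    (hv : ∀ i j, ∑ m, conj (v i m) * v j m = if i = j then 1 else 0) (J : ℕ) (m : M) :
    b m (sqs bd v t Ω0 J) = ∑ i, v i m • bs b (v i) (sqs bd v t Ω0 J) := by
  unfold sqs
  simp_rw [bs_sum, map_sum, Finset.smul_sum]
  rw [Finset.sum_comm]
  refine Finset.sum_congr rfl fun j _ => ?_
  cases j with
  | zero =>
    simp_rw [bs_wt0 h0]
    have : b m (wt bd v t Ω0 0) = 0 := h0 m
    simp [this]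
  | succ j =>
    simp_rw [bs_wt h h0 hv]
    rw [b_wt v t Ω0 h h0, Finset.smul_sum]
    refine Finset.sum_congr rfl fun i _ => ?_
    rw [smul_comm]

/-- the squeezed quadratures -/
lemma sum_q_sqs (h : CCR b bd) (h0 : ∀ m, b m Ω0 = 0)
    (hv : ∀ i j, ∑ m, conj (v i m) * v j m = if i = j then 1 else 0) (J : ℕ) :
    t * ∑ i, ‖bs b (v i) (sqs bd v t Ω0 J) + bc bd (v i) (sqs bd v t Ω0 J)‖ ^ 2 =
      3 * t * ∑ j ∈ Finset.range (J + 1), ‖wt bd v t Ω0 j‖ ^ 2 +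
      2 * (1 + t) * ∑ j ∈ Finset.range (J + 1), 2 * j * ‖wt bd v t Ω0 j‖ ^ 2 := by
  have e1 : ∀ i, ‖bs b (v i) (sqs bd v t Ω0 J) + bc bd (v i) (sqs bd v t Ω0 J)‖ ^ 2 =
      2 * ‖bs b (v i) (sqs bd v t Ω0 J)‖ ^ 2 + ‖sqs bd v t Ω0 J‖ ^ 2 +
        2 * (⟪sqs bd v t Ω0 J, bc bd (v i) (bc bd (v i) (sqs bd v t Ω0 J))⟫_ℂ).re := by
    intro i
    have e0 := h.adj' (v i) (sqs bd v t Ω0 J) (bc bd (v i) (sqs bd v t Ω0 J))
    rw [@norm_add_sq ℂ, h.norm_bc, norm_v hv, e0]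
    have : RCLike.re ⟪sqs bd v t Ω0 J, bc bd (v i) (bc bd (v i) (sqs bd v t Ω0 J))⟫_ℂ =
      (⟪sqs bd v t Ω0 J, bc bd (v i) (bc bd (v i) (sqs bd v t Ω0 J))⟫_ℂ).re := rfl
    rw [this]
    ring
  simp_rw [e1]
  rw [Finset.sum_add_distrib, Finset.sum_add_distrib, ← Finset.mul_sum, ← Finset.mul_sum,
    sum_bs_sqs h h0 hv, ← Complex.re_sum, ← inner_sum]
  have e2 : t * (⟪sqs bd v t Ω0 J, ∑ i, bc bd (v i) (bc bd (v i) (sqs bd v t Ω0 J))⟫_ℂ).re =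
      ∑ j ∈ Finset.range (J + 1), 2 * j * ‖wt bd v t Ω0 j‖ ^ 2 := by
    rw [← Complex.re_ofReal_mul, ← inner_smul_right]
    have e3 : (t : ℂ) • ∑ i, bc bd (v i) (bc bd (v i) (sqs bd v t Ω0 J)) =
        ∑ j ∈ Finset.range (J + 1), ((2 * j : ℝ) : ℂ) • wt bd v t Ω0 j +
          ((2 * (J + 1) : ℝ) : ℂ) • wt bd v t Ω0 (J + 1) := by
      have e4 : ∑ i, bc bd (v i) (bc bd (v i) (sqs bd v t Ω0 J)) =
          ∑ j ∈ Finset.range (J + 1), ∑ i, bc bd (v i) (bc bd (v i) (wt bd v t Ω0 j)) := by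
        unfold sqs
        simp_rw [bc_sum]
        rw [Finset.sum_comm]
      rw [e4, Finset.smul_sum]
      simp_rw [wt_succ]
      rw [Finset.sum_range_succ]
      congr 1
      rw [Finset.sum_range_succ' (fun j => ((2 * (j : ℝ) : ℝ) : ℂ) • wt bd v t Ω0 j)]
      simp
    rw [e3, inner_add_right, Complex.add_re, inner_smul_right, Complex.re_ofReal_mul]
    have e5 : (⟪sqs bd v t Ω0 J, wt bd v t Ω0 (J + 1)⟫_ℂ).re = 0 := by
      unfold sqs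
      rw [sum_inner, Complex.re_sum]
      refine Finset.sum_eq_zero fun j hj => ?_
      rw [Finset.mem_range] at hj
      rw [orth_wt h h0 hv (by omega), Complex.zero_re]
    rw [e5, mul_zero, add_zero]
    exact inner_sqs h h0 hv J (fun j => 2 * j)
  have e6 := norm_sqs (t := t) h h0 hv J
  simp only [Finset.sum_const, Finset.card_univ, Fintype.card_fin, nsmul_eq_mul]
  rw [e6]
  push_cast
  linear_combination 2 * e2

/-- the mean photon number in terms of the norm -/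
lemma mean_sqs (h : CCR b bd) (h0 : ∀ m, b m Ω0 = 0)
    (hv : ∀ i j, ∑ m, conj (v i m) * v j m = if i = j then 1 else 0) (J : ℕ) :
    (1 - t ^ 2) * ∑ j ∈ Finset.range (J + 1), 2 * j * ‖wt bd v t Ω0 j‖ ^ 2 =
      t ^ 2 * (3 * ∑ j ∈ Finset.range (J + 1), ‖wt bd v t Ω0 j‖ ^ 2 -
        (2 * J + 3) * ‖wt bd v t Ω0 J‖ ^ 2) := by
  induction J with
  | zero =>
    simp
  | succ J ih =>
    rw [Finset.sum_range_succ, Finset.sum_range_succ (fun j => ‖wt bd v t Ω0 j‖ ^ 2), mul_add, ih]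
    have e1 := rec_wt (t := t) h h0 hv J
    push_cast
    linear_combination e1

/-- squeezed states with finitely many photons -/
theorem squeeze (h : CCR b bd) (h0 : ∀ m, b m Ω0 = 0) (h1 : ‖Ω0‖ = 1)
    (hv : ∀ i j, ∑ m, conj (v i m) * v j m = if i = j then 1 else 0) (s η : ℝ) (hs : 0 < s)
    (hs1 : s < 1) (hη : 0 < η) : ∃ Ω : E, 1 ≤ ‖Ω‖ ^ 2 ∧
      (∀ m, b m Ω = ∑ i, v i m • bs b (v i) Ω) ∧
      ∑ i, ‖bs b (v i) Ω‖ ^ 2 ≤ 3 / (4 * s) * ‖Ω‖ ^ 2 ∧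
      ∑ i, ‖bs b (v i) Ω + bc bd (v i) Ω‖ ^ 2 ≤ (3 * s + η) * ‖Ω‖ ^ 2 := by
  obtain ⟨τ, hτ⟩ : ∃ τ : ℝ, τ = (1 - s) / (1 + s) := ⟨_, rfl⟩
  have hτ0 : 0 < τ := by rw [hτ]; exact div_pos (by linarith) (by linarith)
  have hτ1 : τ < 1 := by rw [hτ, div_lt_one (by linarith)]; linarith
  have hsτ : s * (1 + τ) = 1 - τ := by rw [hτ]; field_simp; ring
  have hlim : Filter.Tendsto (fun J : ℕ => ((2 * J + 3) * (J + 1) : ℝ) * (τ ^ 2) ^ J)
      Filter.atTop (nhds 0) := by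
    have q1 : |τ ^ 2| < 1 := by
      rw [abs_of_pos (by positivity)]
      nlinarith
    have a1 := tendsto_pow_const_mul_const_pow_of_abs_lt_one 2 q1
    have a2 := tendsto_pow_const_mul_const_pow_of_abs_lt_one 1 q1
    have a3 := tendsto_pow_const_mul_const_pow_of_abs_lt_one 0 q1
    have a4 := ((a1.const_mul 2).add (a2.const_mul 5)).add (a3.const_mul 3)
    simp only [mul_zero, add_zero] at a4
    refine a4.congr fun J => ?_
    ring
  obtain ⟨J, hJ⟩ := ((hlim.eventually (gt_mem_nhds hη)).exists)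
  have hW := wt_le (t := -τ) h h0 h1 hv J
  have hX := mean_sqs (t := -τ) h h0 hv J
  have hq := sum_q_sqs (t := -τ) h h0 hv J
  have hb := sum_bs_sqs (t := -τ) h h0 hv J
  have hN := norm_sqs (t := -τ) h h0 hv J
  rw [← hN] at hX hq
  rw [← hb] at hX hq
  obtain ⟨N, hNN⟩ : ∃ N, N = ‖sqs bd v (-τ) Ω0 J‖ ^ 2 := ⟨_, rfl⟩
  obtain ⟨X, hXX⟩ : ∃ X, X = ∑ i, ‖bs b (v i) (sqs bd v (-τ) Ω0 J)‖ ^ 2 := ⟨_, rfl⟩
  obtain ⟨Y, hYY⟩ : ∃ Y, Y = ∑ i, ‖bs b (v i) (sqs bd v (-τ) Ω0 J) +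
    bc bd (v i) (sqs bd v (-τ) Ω0 J)‖ ^ 2 := ⟨_, rfl⟩
  obtain ⟨W, hWW⟩ : ∃ W, W = ‖wt bd v (-τ) Ω0 J‖ ^ 2 := ⟨_, rfl⟩
  rw [← hNN, ← hXX, ← hWW] at hX
  rw [← hNN, ← hXX, ← hYY] at hq
  rw [← hWW] at hW
  have hW0 : 0 ≤ W := by rw [hWW]; positivity
  have hX0 : 0 ≤ X := by rw [hXX]; positivity
  have hN1 : 1 ≤ N := by
    rw [hNN, hN]
    have e1 : ‖wt bd v (-τ) Ω0 0‖ ^ 2 ≤ ∑ j ∈ Finset.range (J + 1), ‖wt bd v (-τ) Ω0 j‖ ^ 2 :=
      Finset.single_le_sum (f := fun j => ‖wt bd v (-τ) Ω0 j‖ ^ 2)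
        (fun j _ => by positivity) (Finset.mem_range.2 (Nat.succ_pos J))
    have e2 : wt bd v (-τ) Ω0 0 = Ω0 := rfl
    rw [e2, h1] at e1
    linarith
  have hWη : (2 * J + 3) * W ≤ η := by
    have e1 : (2 * J + 3) * W ≤ (2 * J + 3) * ((J + 1) * ((-τ) ^ 2) ^ J) :=
      mul_le_mul_of_nonneg_left hW (by positivity)
    have e2 : (2 * (J : ℝ) + 3) * ((J + 1) * ((-τ) ^ 2) ^ J) =
        ((2 * J + 3) * (J + 1) : ℝ) * (τ ^ 2) ^ J := by
      rw [neg_sq]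
      ring
    rw [e2] at e1
    exact e1.trans hJ.le
  refine ⟨sqs bd v (-τ) Ω0 J, ?_, b_sqs h h0 hv J, ?_, ?_⟩
  · rw [← hNN]
    exact hN1
  · rw [← hNN, ← hXX]
    have e1 : (1 - τ ^ 2) * X ≤ 3 * τ ^ 2 * N := by
      have : (1 - τ ^ 2) * X = τ ^ 2 * (3 * N - (2 * J + 3) * W) := by
        linear_combination hX
      have h2 : 0 ≤ τ ^ 2 * ((2 * J + 3) * W) := by positivity
      linarith
    have e2 : 4 * s * (τ ^ 2) ≤ 1 - τ ^ 2 := by
      have h3 : 1 - τ ^ 2 = s * (1 + τ) ^ 2 := by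
        have : 1 - τ ^ 2 = (1 - τ) * (1 + τ) := by ring
        rw [this, ← hsτ]
        ring
      rw [h3]
      have h4 : 4 * τ ^ 2 ≤ (1 + τ) ^ 2 := by nlinarith
      nlinarith
    rw [div_mul_eq_mul_div, le_div_iff₀ (by positivity)]
    have hτ2 : 0 < τ ^ 2 := by positivity
    have e3 : τ ^ 2 * (X * (4 * s)) ≤ τ ^ 2 * (3 * N) := by
      calc τ ^ 2 * (X * (4 * s)) = (4 * s * τ ^ 2) * X := by ring
        _ ≤ (1 - τ ^ 2) * X := mul_le_mul_of_nonneg_right e2 hX0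
        _ ≤ 3 * τ ^ 2 * N := e1
        _ = _ := by ring
    exact le_of_mul_le_mul_left e3 hτ2
  · rw [← hNN, ← hYY]
    -- `Y = 3 s N + (2 τ / (1 + τ)) (2 J + 3) W`
    have e1 : (1 + τ) * Y = 3 * (1 - τ) * N + 2 * τ * ((2 * J + 3) * W) := by
      have h3 : τ * ((1 + τ) * Y) = τ * (3 * (1 - τ) * N + 2 * τ * ((2 * J + 3) * W)) := by
        linear_combination (-(1 + τ)) * hq + (-2) * hX
      exact mul_left_cancel₀ hτ0.ne' h3
    have e2 : (1 + τ) * Y ≤ (1 + τ) * ((3 * s + η) * N) := by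
      rw [e1, ← hsτ]
      have h3 : 2 * τ * ((2 * J + 3) * W) ≤ (1 + τ) * η * N := by
        calc 2 * τ * ((2 * J + 3) * W) ≤ 2 * τ * η :=
              mul_le_mul_of_nonneg_left hWη (by positivity)
          _ ≤ (1 + τ) * η := by nlinarith
          _ ≤ (1 + τ) * η * N := le_mul_of_one_le_right (by positivity) hN1
      nlinarith
    exact le_of_mul_le_mul_left e2 (by linarith)

end

end Pool.Agent.Y660.FB
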