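import Pool.Agent.Y660.FB.Fock

/-!
# The photon state

MP_791321_mp (helper660)
-/

set_option autoImplicit false

namespace Pool.Agent.Y660.FB

open scoped InnerProductSpace ComplexConjugate
open MeasureTheory

/-- a matrix of inner products with an orthogonal system -/
lemma sum_y' {E : Type*} [SeminormedAddCommGroup E] [InnerProductSpace ℂ E] {M : Type*} [Fintype M]
    (r : Fin 3 → M → ℂ) (c : ℝ)
    (hr : ∀ i j, ∑ m, conj (r i m) * r j m = if i = j then (c : ℂ) else 0) (Y : Fin 3 → E) :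
    ∑ m, ‖∑ j, r j m • Y j‖ ^ 2 = c * ∑ j, ‖Y j‖ ^ 2 := by
  have e1 : ∀ m, ‖∑ j, r j m • Y j‖ ^ 2 = (∑ i, ∑ j, conj (r i m) * r j m * ⟪Y i, Y j⟫_ℂ).re := by
    intro m
    rw [← re_self, sum_inner]
    congr 1
    refine Finset.sum_congr rfl fun i _ => ?_
    rw [inner_smul_left, inner_sum, Finset.mul_sum]
    refine Finset.sum_congr rfl fun j _ => ?_
    rw [inner_smul_right]
    ring
  simp_rw [e1]
  rw [← Complex.re_sum, Finset.sum_comm, Complex.re_sum, Finset.mul_sum]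
  refine Finset.sum_congr rfl fun i _ => ?_
  rw [Finset.sum_comm]
  simp_rw [← Finset.sum_mul, hr]
  rw [Finset.sum_eq_single i]
  · rw [if_pos rfl, Complex.re_ofReal_mul, re_self]
  · intro j _ hj
    rw [if_neg (Ne.symm hj), zero_mul]
  · intro hi
    exact absurd (Finset.mem_univ i) hi

variable {M : Type} [DecidableEq M] [Fintype M]

/-- the properties of the modes that are used -/
structure Iso (F : Fld M) (Λ G κ : ℝ) : Prop where
  hV : 0 < F.V
  hG : 0 < G
  hκ0 : 0 < κ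
  he : ∀ i j, ∑ m, F.e m i * F.e m j = if i = j then G else 0
  he1 : ∀ m, ∑ i, F.e m i ^ 2 = 1
  hek : ∀ m, ∑ i, F.e m i * F.k m i = 0
  hw : ∀ m, 0 < len (F.k m)
  hΛ : ∀ m, len (F.k m) ≤ Λ
  hκ : ∀ i j, ∑ m, gc F i m * gc F j m = if i = j then κ else 0
  hodd : ∀ y i j, ∑ m, gc F i m * gc F j m * Real.sin (dot (F.k m) y) = 0

/-- the vector potential at the point `y` -/
noncomputable def Ay (F : Fld M) (i : Fin 3) (y : Fin 3 → ℝ) (Ω : Sp 0 M) : Sp 0 M :=
  ∑ m, ((gc F i m : ℝ) : ℂ) • (Complex.exp (Complex.I * dot (F.k m) y) • anL m Ω +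
    Complex.exp (-(Complex.I * dot (F.k m) y)) • crL m Ω)

lemma Ay_real (F : Fld M) (i : Fin 3) (y : Fin 3 → ℝ) (Ω : Sp 0 M) :
    (⟪Ω, Ay F i y Ω⟫_ℂ).im = 0 := by
  unfold Ay
  rw [inner_sum, Complex.im_sum]
  refine Finset.sum_eq_zero fun m _ => ?_
  rw [inner_smul_right, Complex.im_ofReal_mul, inner_add_right, inner_smul_right,
    inner_smul_right, ← ccr.adj]
  have h1 : ⟪anL m Ω, Ω⟫_ℂ = conj ⟪Ω, anL m Ω⟫_ℂ := (inner_conj_symm _ _).symm
  have h2 : Complex.exp (-(Complex.I * dot (F.k m) y)) =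
      conj (Complex.exp (Complex.I * dot (F.k m) y)) := by
    rw [← Complex.exp_conj, map_mul, Complex.conj_I, Complex.conj_ofReal, neg_mul]
  rw [h1, h2, ← map_mul, Complex.add_im, Complex.conj_im, add_neg_cancel, mul_zero]

omit [DecidableEq M] in
lemma Iso.card {F : Fld M} {Λ G κ : ℝ} (h : Iso F Λ G κ) : (Fintype.card M : ℝ) = 3 * G := by
  have h1 : ∑ i : Fin 3, ∑ m, F.e m i * F.e m i = 3 * G := by
    simp_rw [h.he]
    simp
  rw [Finset.sum_comm] at h1
  rw [← h1]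
  have h2 : ∀ m, ∑ i, F.e m i * F.e m i = 1 := fun m => by
    rw [← h.he1 m]
    exact Finset.sum_congr rfl fun i _ => by ring
  simp_rw [h2]
  simp

lemma dot_sq_le (k y : Fin 3 → ℝ) : dot k y ^ 2 ≤ dot k k * dot y y := by
  unfold dot
  have := Finset.sum_mul_sq_le_sq_mul_sq Finset.univ k y
  refine this.trans (le_of_eq ?_)
  congr 1
  · exact Finset.sum_congr rfl fun i _ => by ring
  · exact Finset.sum_congr rfl fun i _ => by ring

lemma dot_nonneg (y : Fin 3 → ℝ) : 0 ≤ dot y y :=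
  Finset.sum_nonneg fun i _ => mul_self_nonneg _

lemma len_sq (k : Fin 3 → ℝ) : len k ^ 2 = dot k k := Real.sq_sqrt (dot_nonneg k)

omit [DecidableEq M] in
lemma Iso.gc_sq {F : Fld M} {Λ G κ : ℝ} (h : Iso F Λ G κ) (m : M) (i : Fin 3) :
    gc F i m ^ 2 = F.e m i ^ 2 / (2 * F.V * len (F.k m)) := by
  have h1 := h.hV
  have h2 := h.hw m
  unfold gc
  rw [div_pow, Real.sq_sqrt (by positivity)]

omit [DecidableEq M] in
lemma Iso.sum_gc {F : Fld M} {Λ G κ : ℝ} (h : Iso F Λ G κ) (y : Fin 3 → ℝ) :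
    ∑ i, ∑ m, gc F i m ^ 2 * dot (F.k m) y ^ 2 ≤ 3 / 2 * Λ * (G / F.V) * dot y y := by
  have hV := h.hV
  rw [Finset.sum_comm]
  have h1 : ∀ m, ∑ i, gc F i m ^ 2 * dot (F.k m) y ^ 2 ≤ Λ / (2 * F.V) * dot y y := by
    intro m
    have hw := h.hw m
    rw [← Finset.sum_mul]
    simp_rw [h.gc_sq]
    rw [← Finset.sum_div, h.he1]
    have h2 : dot (F.k m) y ^ 2 ≤ len (F.k m) ^ 2 * dot y y := by
      rw [len_sq]
      exact dot_sq_le _ _
    calc 1 / (2 * F.V * len (F.k m)) * dot (F.k m) y ^ 2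
        ≤ 1 / (2 * F.V * len (F.k m)) * (len (F.k m) ^ 2 * dot y y) :=
          mul_le_mul_of_nonneg_left h2 (by positivity)
      _ = len (F.k m) / (2 * F.V) * dot y y := by
          field_simp
      _ ≤ Λ / (2 * F.V) * dot y y := by
          refine mul_le_mul_of_nonneg_right ?_ (dot_nonneg y)
          exact div_le_div_of_nonneg_right (h.hΛ m) (by positivity)
  refine (Finset.sum_le_sum fun m _ => h1 m).trans (le_of_eq ?_)
  rw [Finset.sum_const, Finset.card_univ, nsmul_eq_mul, h.card]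
  field_simp

/-- the photon state -/
theorem state {F : Fld M} {Λ G κ : ℝ} (h : Iso F Λ G κ) (s η : ℝ) (hs : 0 < s) (hs1 : s < 1)
    (hη : 0 < η) : ∃ Ω : Sp 0 M, 1 ≤ ‖Ω‖ ^ 2 ∧
      ∑ m, len (F.k m) * ‖anL m Ω‖ ^ 2 ≤ G / F.V / (2 * κ) * (3 / (4 * s)) * ‖Ω‖ ^ 2 ∧
      ∀ y, ∑ i, ‖Ay F i y Ω‖ ^ 2 ≤ (κ * (3 * s + η) + 3 / 2 * Λ * (G / F.V) * dot y y) *
        ‖Ω‖ ^ 2 := by
  have hκ0 := h.hκ0
  have hV := h.hV
  have hG := h.hG
  have hsκ : 0 < √κ := Real.sqrt_pos.2 hκ0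
  have hκ2 : √κ * √κ = κ := Real.mul_self_sqrt hκ0.le
  obtain ⟨v, hvg⟩ : ∃ v : Fin 3 → M → ℂ, ∀ i m, v i m = ((gc F i m / √κ : ℝ) : ℂ) :=
    ⟨fun i m => ((gc F i m / √κ : ℝ) : ℂ), fun _ _ => rfl⟩
  have hvr : ∀ i m, conj (v i m) = v i m := fun i m => by rw [hvg, Complex.conj_ofReal]
  have hv : ∀ i j, ∑ m, conj (v i m) * v j m = if i = j then 1 else 0 := by
    intro i j
    have e1 : ∀ m, conj (v i m) * v j m = ((1 / κ * (gc F i m * gc F j m) : ℝ) : ℂ) := by
      intro m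
      rw [hvr, hvg, hvg, ← Complex.ofReal_mul]
      congr 1
      rw [div_mul_div_comm, hκ2]
      ring
    simp_rw [e1]
    rw [← Complex.ofReal_sum, ← Finset.mul_sum, h.hκ]
    split_ifs
    · rw [one_div, inv_mul_cancel₀ hκ0.ne', Complex.ofReal_one]
    · rw [mul_zero, Complex.ofReal_zero]
  obtain ⟨Ω, h1, h2, h3, h4⟩ := squeeze (Ω0 := (vac : Sp 0 M)) (v := v) ccr an_vac norm_vac hv s η
    hs hs1 hη
  refine ⟨Ω, h1, ?_, fun y => ?_⟩
  · have e1 : ∀ m, len (F.k m) * ‖anL m Ω‖ ^ 2 =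
        ‖∑ j, (((√(len (F.k m)) : ℝ) : ℂ) * v j m) • bs anL (v j) Ω‖ ^ 2 := by
      intro m
      have e2 : ∑ j, (((√(len (F.k m)) : ℝ) : ℂ) * v j m) • bs anL (v j) Ω =
          ((√(len (F.k m)) : ℝ) : ℂ) • anL m Ω := by
        rw [h2, Finset.smul_sum]
        simp_rw [smul_smul]
      rw [e2, norm_smul, mul_pow, Complex.norm_real, Real.norm_eq_abs, sq_abs,
        Real.sq_sqrt (h.hw m).le]
    simp_rw [e1]
    have e3 := sum_y' (fun j m => (((√(len (F.k m)) : ℝ) : ℂ) * v j m)) (G / F.V / (2 * κ))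
      (fun i j => by
        have e4 : ∀ m, conj (((√(len (F.k m)) : ℝ) : ℂ) * v i m) *
            (((√(len (F.k m)) : ℝ) : ℂ) * v j m) =
            ((1 / (2 * F.V * κ) * (F.e m i * F.e m j) : ℝ) : ℂ) := by
          intro m
          have hw := h.hw m
          rw [map_mul, hvr, Complex.conj_ofReal, hvg, hvg, ← Complex.ofReal_mul,
            ← Complex.ofReal_mul, ← Complex.ofReal_mul]
          congr 1
          unfold gc
          have e5 : √(len (F.k m)) * √(len (F.k m)) = len (F.k m) := Real.mul_self_sqrt hw.le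
          have e6 : √(2 * F.V * len (F.k m)) * √(2 * F.V * len (F.k m)) =
            2 * F.V * len (F.k m) := Real.mul_self_sqrt (by positivity)
          calc √(len (F.k m)) * (F.e m i / √(2 * F.V * len (F.k m)) / √κ) *
              (√(len (F.k m)) * (F.e m j / √(2 * F.V * len (F.k m)) / √κ))
              = (√(len (F.k m)) * √(len (F.k m))) * (F.e m i * F.e m j) /
                ((√(2 * F.V * len (F.k m)) * √(2 * F.V * len (F.k m))) * (√κ * √κ)) := by ring
            _ = 1 / (2 * F.V * κ) * (F.e m i * F.e m j) := by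
              rw [e5, e6, hκ2]
              field_simp
        simp_rw [e4]
        rw [← Complex.ofReal_sum, ← Finset.mul_sum, h.he]
        split_ifs
        · congr 1
          field_simp
        · rw [mul_zero, Complex.ofReal_zero]) (fun j => bs anL (v j) Ω)
    rw [e3, mul_assoc]
    exact mul_le_mul_of_nonneg_left h3 (by positivity)
  · have e1 := field_bound ccr (gc F) κ hκ0 h.hκ (fun m => dot (F.k m) y) (fun i j => h.hodd y i j)
      v hvg Ω h2
    refine e1.trans ?_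
    rw [add_mul]
    refine add_le_add ?_ ?_
    · rw [mul_assoc]
      exact mul_le_mul_of_nonneg_left h4 hκ0.le
    · exact mul_le_mul_of_nonneg_right (h.sum_gc y) (by positivity)

end Pool.Agent.Y660.FB
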