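import Pool.Agent.Y660.FB.State

/-!
# The upper bound for the energy of `N` particles

MP_791321_mp (helper660)
-/

set_option autoImplicit false

namespace Pool.Agent.Y660.FB

open scoped InnerProductSpace ComplexConjugate
open MeasureTheory

variable {N : ℕ}

/-- the spin function: all spins are up -/
def chz (s : Fin N → Fin 2) : ℤ := if s = 0 then 1 else 0

lemma chz_anti (σ : Equiv.Perm (Fin N)) (s : Fin N → Fin 2) : chz (s ∘ σ) = chz s := by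
  unfold chz
  have h1 : s ∘ σ = 0 ↔ s = 0 := by
    constructor
    · intro h
      funext i
      have h2 := congrFun h (σ.symm i)
      simpa using h2
    · intro h
      rw [h]
      rfl
  simp only [h1]

lemma chz_sum : ∑ s : Fin N → Fin 2, chz s * chz s = 1 := by
  unfold chz
  simp

variable {M : Type}

/-- the trial function -/
noncomputable def tr (Φ : (Fin N → Fin 3 → ℝ) → ℝ) (Ω : Sp 0 M) : WF N M := fun x s n =>
  (Φ x : ℂ) * ((chz s : ℂ) * om Ω n)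

lemma tr_nice {Φ : (Fin N → Fin 3 → ℝ) → ℝ} (h1 : ContDiff ℝ (⊤ : ℕ∞) Φ)
    (h2 : HasCompactSupport Φ) (Ω : Sp 0 M) : Nice (tr Φ Ω) where
  smooth s n := (Complex.ofRealCLM.contDiff.comp h1).mul contDiff_const
  supp s n := (h2.comp_left (g := fun t : ℝ => (t : ℂ)) (by simp)).mul_right
  fin := by
    refine Ω.2.fin.subset ?_
    rintro n ⟨x, s, hx⟩
    refine ⟨default, default, fun h0 => hx ?_⟩
    have h3 : om Ω n = 0 := h0
    unfold tr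
    rw [h3, mul_zero, mul_zero]

lemma tr_anti {Φ : (Fin N → Fin 3 → ℝ) → ℝ} (h : ∀ (σ : Equiv.Perm (Fin N)) x,
    Φ (x ∘ σ) = ((Equiv.Perm.sign σ : ℤ) : ℝ) * Φ x) (Ω : Sp 0 M) : Anti (tr Φ Ω) := by
  intro σ x s n
  unfold tr
  rw [h, chz_anti]
  push_cast
  ring

/-- the density of a product -/
lemma dens_prod {Ψ : WF N M} {x : Fin N → Fin 3 → ℝ} {U : Sp 0 M}
    (h : ∀ s n, Ψ x s n = (chz s : ℂ) * om U n) : dens Ψ Ψ x = ((‖U‖ ^ 2 : ℝ) : ℂ) := by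
  unfold dens
  simp_rw [h]
  have e1 : ∀ s : Fin N → Fin 2, ∑' n, conj ((chz s : ℂ) * om U n) * ((chz s : ℂ) * om U n) =
      ((chz s * chz s : ℤ) : ℂ) * ⟪U, U⟫_ℂ := by
    intro s
    rw [inner_zero, ← tsum_mul_left]
    congr 1
    funext n
    rw [map_mul, map_intCast]
    push_cast
    ring
  simp_rw [e1]
  rw [← Finset.sum_mul, ← Int.cast_sum, chz_sum, Int.cast_one, one_mul]
  have e2 : ⟪U, U⟫_ℂ = ((‖U‖ ^ 2 : ℝ) : ℂ) := by
    rw [inner_self_eq_norm_sq_to_K]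
    push_cast
    rfl
  rw [e2]

section

variable {Φ : (Fin N → Fin 3 → ℝ) → ℝ} (h1 : ContDiff ℝ (⊤ : ℕ∞) Φ) (h2 : HasCompactSupport Φ)
  (Ω : Sp 0 M)

/-- the trial function as an element of the space -/
noncomputable def trS : Sp N M := ⟨tr Φ Ω, tr_nice h1 h2 Ω⟩

/-- the norm of the trial function -/
lemma norm_trS : ‖trS h1 h2 Ω‖ ^ 2 = (∫ x, Φ x ^ 2) * ‖Ω‖ ^ 2 := by
  rw [norm_def, ip_dens (trS h1 h2 Ω).2 (trS h1 h2 Ω).2]
  have e1 : ∀ x, dens (trS h1 h2 Ω).1 (trS h1 h2 Ω).1 x = ((‖Ω‖ ^ 2 * Φ x ^ 2 : ℝ) : ℂ) := by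
    intro x
    have e2 := dens_prod (Ψ := (trS h1 h2 Ω).1) (x := x) (U := ((Φ x : ℝ) : ℂ) • Ω)
      (fun s n => by
        show (Φ x : ℂ) * ((chz s : ℂ) * om Ω n) = (chz s : ℂ) * ((Φ x : ℂ) * om Ω n)
        ring)
    rw [e2, norm_smul, mul_pow, Complex.norm_real, Real.norm_eq_abs, sq_abs]
    congr 1
    ring
  simp_rw [e1]
  rw [integral_complex_ofReal, Complex.ofReal_re, integral_const_mul]
  ring

variable [DecidableEq M]

lemma norm_an_trS (m : M) : ‖anL m (trS h1 h2 Ω)‖ ^ 2 = (∫ x, Φ x ^ 2) * ‖anL m Ω‖ ^ 2 := by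
  rw [norm_def, ip_dens (anL m (trS h1 h2 Ω)).2 (anL m (trS h1 h2 Ω)).2]
  have e1 : ∀ x, dens (anL m (trS h1 h2 Ω)).1 (anL m (trS h1 h2 Ω)).1 x =
      ((‖anL m Ω‖ ^ 2 * Φ x ^ 2 : ℝ) : ℂ) := by
    intro x
    have e2 := dens_prod (Ψ := (anL m (trS h1 h2 Ω)).1) (x := x)
      (U := ((Φ x : ℝ) : ℂ) • anL m Ω)
      (fun s n => by
        show ((√(n m + 1 : ℝ) : ℝ) : ℂ) * ((Φ x : ℂ) * ((chz s : ℂ) * om Ω (n + Pi.single m 1))) =
          (chz s : ℂ) * ((Φ x : ℂ) * (((√(n m + 1 : ℝ) : ℝ) : ℂ) * om Ω (n + Pi.single m 1)))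
        ring)
    rw [e2, norm_smul, mul_pow, Complex.norm_real, Real.norm_eq_abs, sq_abs]
    congr 1
    ring
  simp_rw [e1]
  rw [integral_complex_ofReal, Complex.ofReal_re, integral_const_mul]
  ring

variable [Fintype M]

/-- the value of `p + √α A` -/
lemma kin_trS (F : Fld M) (α : ℝ) (j : Fin N) (i : Fin 3) (x : Fin N → Fin 3 → ℝ)
    (s : Fin N → Fin 2) (n : M → ℕ) : (kiL F α j i (trS h1 h2 Ω)).1 x s n = (chz s : ℂ) *
      om ((-Complex.I * ((fderiv ℝ Φ x (Pi.single j (Pi.single i 1)) : ℝ) : ℂ)) • Ω +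
        ((√α * Φ x : ℝ) : ℂ) • Ay F i (x j) Ω) n := by
  have hd : DifferentiableAt ℝ Φ x := (h1.differentiable (by simp)) x
  have e1 : (moL j i (trS h1 h2 Ω)).1 x s n = -Complex.I *
      (((fderiv ℝ Φ x (Pi.single j (Pi.single i 1)) : ℝ) : ℂ) * ((chz s : ℂ) * om Ω n)) := by
    show -Complex.I * fderiv ℝ (fun y => (Φ y : ℂ) * ((chz s : ℂ) * om Ω n)) x
      (Pi.single j (Pi.single i 1)) = _
    have e2 : HasFDerivAt (fun y => (Φ y : ℂ)) (Complex.ofRealCLM.comp (fderiv ℝ Φ x)) x :=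
      Complex.ofRealCLM.hasFDerivAt.comp x hd.hasFDerivAt
    have e3 := e2.mul_const ((chz s : ℂ) * om Ω n)
    rw [e3.fderiv]
    congr 1
    show ((chz s : ℂ) * om Ω n) * ((fderiv ℝ Φ x (Pi.single j (Pi.single i 1)) : ℝ) : ℂ) = _
    ring
  have e4 : (vpL F j i (trS h1 h2 Ω)).1 x s n = (Φ x : ℂ) * ((chz s : ℂ) *
      om (Ay F i (x j) Ω) n) := by
    unfold vpL Ay
    have e5 : om (∑ m, ((gc F i m : ℝ) : ℂ) • (Complex.exp (Complex.I * dot (F.k m) (x j)) •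
        anL m Ω + Complex.exp (-(Complex.I * dot (F.k m) (x j))) • crL m Ω)) n =
        ∑ m, om (((gc F i m : ℝ) : ℂ) • (Complex.exp (Complex.I * dot (F.k m) (x j)) •
        anL m Ω + Complex.exp (-(Complex.I * dot (F.k m) (x j))) • crL m Ω)) n := by
      unfold om
      rw [coe_sum, Finset.sum_apply, Finset.sum_apply, Finset.sum_apply]
    rw [e5, coe_sum, Finset.sum_apply, Finset.sum_apply, Finset.sum_apply, Finset.mul_sum,
      Finset.mul_sum]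
    refine Finset.sum_congr rfl fun m _ => ?_
    show ((gc F i m : ℝ) : ℂ) * (ph (F.k m) j x * (((√(n m + 1 : ℝ) : ℝ) : ℂ) * ((Φ x : ℂ) *
      ((chz s : ℂ) * om Ω (n + Pi.single m 1)))) + ph' (F.k m) j x * (((√(n m : ℝ) : ℝ) : ℂ) *
      ((Φ x : ℂ) * ((chz s : ℂ) * om Ω (n - Pi.single m 1))))) = (Φ x : ℂ) * ((chz s : ℂ) *
      (((gc F i m : ℝ) : ℂ) * (Complex.exp (Complex.I * dot (F.k m) (x j)) *
      (((√(n m + 1 : ℝ) : ℝ) : ℂ) * om Ω (n + Pi.single m 1)) +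
      Complex.exp (-(Complex.I * dot (F.k m) (x j))) * (((√(n m : ℝ) : ℝ) : ℂ) *
      om Ω (n - Pi.single m 1)))))
    unfold ph ph'
    ring
  show (moL j i (trS h1 h2 Ω)).1 x s n + ((√α : ℝ) : ℂ) * (vpL F j i (trS h1 h2 Ω)).1 x s n = _
  rw [e1, e4, om_add, om_smul, om_smul]
  push_cast
  ring

/-- the density of `(p + √α A) Ψ` -/
lemma dens_kin (F : Fld M) (α : ℝ) (hα : 0 ≤ α) (j : Fin N) (i : Fin 3) (x : Fin N → Fin 3 → ℝ) :
    dens (kiL F α j i (trS h1 h2 Ω)).1 (kiL F α j i (trS h1 h2 Ω)).1 x =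
      ((fderiv ℝ Φ x (Pi.single j (Pi.single i 1)) ^ 2 * ‖Ω‖ ^ 2 +
        α * Φ x ^ 2 * ‖Ay F i (x j) Ω‖ ^ 2 : ℝ) : ℂ) := by
  rw [dens_prod (fun s n => kin_trS h1 h2 Ω F α j i x s n)]
  congr 2
  rw [@norm_add_sq ℂ, norm_smul, norm_smul, mul_pow, mul_pow, norm_mul, norm_neg, Complex.norm_I,
    one_mul, Complex.norm_real, Complex.norm_real, Real.norm_eq_abs, Real.norm_eq_abs, sq_abs,
    sq_abs, mul_pow, Real.sq_sqrt hα, inner_smul_left, inner_smul_right]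
  have e1 : RCLike.re (conj (-Complex.I * ((fderiv ℝ Φ x (Pi.single j (Pi.single i 1)) : ℝ) : ℂ)) *
      (((√α * Φ x : ℝ) : ℂ) * ⟪Ω, Ay F i (x j) Ω⟫_ℂ)) = 0 := by
    have e2 : conj (-Complex.I * ((fderiv ℝ Φ x (Pi.single j (Pi.single i 1)) : ℝ) : ℂ)) *
      (((√α * Φ x : ℝ) : ℂ) * ⟪Ω, Ay F i (x j) Ω⟫_ℂ) =
      Complex.I * (((fderiv ℝ Φ x (Pi.single j (Pi.single i 1)) * (√α * Φ x) : ℝ) : ℂ) *
        ⟪Ω, Ay F i (x j) Ω⟫_ℂ) := by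
      rw [map_mul, map_neg, Complex.conj_I, neg_neg, Complex.conj_ofReal]
      push_cast
      ring
    rw [e2]
    show (Complex.I * (((fderiv ℝ Φ x (Pi.single j (Pi.single i 1)) * (√α * Φ x) : ℝ) : ℂ) *
        ⟪Ω, Ay F i (x j) Ω⟫_ℂ)).re = 0
    rw [Complex.I_mul_re, Complex.im_ofReal_mul, Ay_real, mul_zero, neg_zero]
  rw [e1]
  ring

/-- the sum of the squares of the derivatives -/
noncomputable def gr (Φ : (Fin N → Fin 3 → ℝ) → ℝ) (x : Fin N → Fin 3 → ℝ) : ℝ :=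
  ∑ j : Fin N, ∑ i : Fin 3, fderiv ℝ Φ x (Pi.single j (Pi.single i 1)) ^ 2

lemma gr_integrable {Φ : (Fin N → Fin 3 → ℝ) → ℝ} (h1 : ContDiff ℝ (⊤ : ℕ∞) Φ)
    (h2 : HasCompactSupport Φ) : Integrable (gr Φ) := by
  unfold gr
  refine integrable_finset_sum _ fun j _ => integrable_finset_sum _ fun i _ => ?_
  refine Continuous.integrable_of_hasCompactSupport ?_ ?_
  · exact (((h1.continuous_fderiv (by simp)).clm_apply continuous_const)).pow 2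
  · exact (h2.fderiv_apply ℝ _).comp_left (g := fun t : ℝ => t ^ 2) (by norm_num)

lemma sq_integrable {Φ : (Fin N → Fin 3 → ℝ) → ℝ} (h1 : ContDiff ℝ (⊤ : ℕ∞) Φ)
    (h2 : HasCompactSupport Φ) : Integrable (fun x => Φ x ^ 2) :=
  Continuous.integrable_of_hasCompactSupport (h1.continuous.pow 2)
    (h2.comp_left (g := fun t : ℝ => t ^ 2) (by norm_num))

/-- the kinetic energy of the trial function -/
lemma kin_le (F : Fld M) (α : ℝ) (hα : 0 ≤ α) (R B : ℝ)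
    (hR : ∀ x, Φ x ≠ 0 → ∀ j, dot (x j) (x j) ≤ R ^ 2)
    (hΩ : ∀ y, dot y y ≤ R ^ 2 → ∑ i, ‖Ay F i y Ω‖ ^ 2 ≤ B * ‖Ω‖ ^ 2) :
    ∑ j, ∑ i, ‖kiL F α j i (trS h1 h2 Ω)‖ ^ 2 ≤
      ‖Ω‖ ^ 2 * ((∫ x, gr Φ x) + N * (α * B) * ∫ x, Φ x ^ 2) := by
  obtain ⟨q, hq⟩ : ∃ q : Fin N → Fin 3 → (Fin N → Fin 3 → ℝ) → ℝ, ∀ j i x, q j i x =
    fderiv ℝ Φ x (Pi.single j (Pi.single i 1)) ^ 2 * ‖Ω‖ ^ 2 +
        α * Φ x ^ 2 * ‖Ay F i (x j) Ω‖ ^ 2 := ⟨_, fun _ _ _ => rfl⟩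
  have e1 : ∀ j i, ‖kiL F α j i (trS h1 h2 Ω)‖ ^ 2 = ∫ x, q j i x := by
    intro j i
    rw [norm_def, ip_dens (kiL F α j i (trS h1 h2 Ω)).2 (kiL F α j i (trS h1 h2 Ω)).2]
    have e2 : ∀ x, dens (kiL F α j i (trS h1 h2 Ω)).1 (kiL F α j i (trS h1 h2 Ω)).1 x =
        ((q j i x : ℝ) : ℂ) := fun x => by rw [dens_kin h1 h2 Ω F α hα, hq]
    simp_rw [e2]
    rw [integral_complex_ofReal, Complex.ofReal_re]
  have hi : ∀ j i, Integrable (q j i) := by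
    intro j i
    have e3 := (dens_integrable (kiL F α j i (trS h1 h2 Ω)).2 (kiL F α j i (trS h1 h2 Ω)).2).re
    refine e3.congr (Filter.Eventually.of_forall fun x => ?_)
    show (dens (kiL F α j i (trS h1 h2 Ω)).1 (kiL F α j i (trS h1 h2 Ω)).1 x).re = q j i x
    rw [dens_kin h1 h2 Ω F α hα, hq, Complex.ofReal_re]
  simp_rw [e1]
  have e4 : ∑ j, ∑ i, ∫ x, q j i x = ∫ x, ∑ j, ∑ i, q j i x := by
    rw [integral_finset_sum _ fun j _ => integrable_finset_sum _ fun i _ => hi j i]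
    refine Finset.sum_congr rfl fun j _ => ?_
    rw [integral_finset_sum _ fun i _ => hi j i]
  rw [e4]
  have e5 : ∀ x, ∑ j, ∑ i, q j i x ≤ ‖Ω‖ ^ 2 * gr Φ x + ‖Ω‖ ^ 2 * (N * (α * B)) *
      Φ x ^ 2 := by
    intro x
    have e6 : ∀ j, ∑ i, q j i x = ‖Ω‖ ^ 2 * ∑ i, fderiv ℝ Φ x (Pi.single j (Pi.single i 1)) ^ 2
        + (α * Φ x ^ 2) * ∑ i, ‖Ay F i (x j) Ω‖ ^ 2 := by
      intro j
      rw [Finset.mul_sum, Finset.mul_sum, ← Finset.sum_add_distrib]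
      refine Finset.sum_congr rfl fun i _ => ?_
      rw [hq]
      ring
    have e7 : ∀ j, (α * Φ x ^ 2) * ∑ i, ‖Ay F i (x j) Ω‖ ^ 2 ≤
        (α * Φ x ^ 2) * (B * ‖Ω‖ ^ 2) := by
      intro j
      by_cases h0 : Φ x = 0
      · rw [h0]
        simp
      · exact mul_le_mul_of_nonneg_left (hΩ _ (hR x h0 j)) (by positivity)
    simp_rw [e6]
    rw [Finset.sum_add_distrib, ← Finset.mul_sum]
    have e8 : ∑ j : Fin N, (α * Φ x ^ 2) * ∑ i, ‖Ay F i (x j) Ω‖ ^ 2 ≤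
        ∑ _j : Fin N, (α * Φ x ^ 2) * (B * ‖Ω‖ ^ 2) := Finset.sum_le_sum fun j _ => e7 j
    rw [Finset.sum_const, Finset.card_univ, Fintype.card_fin, nsmul_eq_mul] at e8
    unfold gr
    linarith
  have e9 : Integrable (fun x => ‖Ω‖ ^ 2 * gr Φ x + ‖Ω‖ ^ 2 * (N * (α * B)) * Φ x ^ 2) :=
    ((gr_integrable h1 h2).const_mul _).add ((sq_integrable h1 h2).const_mul _)
  refine (integral_mono (integrable_finset_sum _ fun j _ => integrable_finset_sum _ fun i _ =>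
    hi j i) e9 e5).trans (le_of_eq ?_)
  rw [integral_add ((gr_integrable h1 h2).const_mul _) ((sq_integrable h1 h2).const_mul _),
    integral_const_mul, integral_const_mul]
  ring

end

/-- the upper bound for `N` particles -/
theorem E0_N [DecidableEq M] [Fintype M] {Φ : (Fin N → Fin 3 → ℝ) → ℝ}
    (h1 : ContDiff ℝ (⊤ : ℕ∞) Φ) (h2 : HasCompactSupport Φ)
    {F : Fld M} {Λ G κ : ℝ} (h : Iso F Λ G κ) (α : ℝ) (hα : 0 ≤ α) (R : ℝ) (s : ℝ)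
    (hs : 0 < s) (hs1 : s < 1)
    (hsym : ∀ (σ : Equiv.Perm (Fin N)) x, Φ (x ∘ σ) = ((Equiv.Perm.sign σ : ℤ) : ℝ) * Φ x)
    (hR : ∀ x, Φ x ≠ 0 → ∀ j, dot (x j) (x j) ≤ R ^ 2) (hpos : 0 < ∫ x, Φ x ^ 2) :
    E0 F α N ≤ G / F.V / (2 * κ) * (3 / (4 * s)) + (∫ x, gr Φ x) / (2 * ∫ x, Φ x ^ 2) +
      N / 2 * α * (κ * (3 * s) + 3 / 2 * Λ * (G / F.V) * R ^ 2) := by
  have hκ0 := h.hκ0
  have hV := h.hV
  have hG := h.hG
  refine le_of_forall_pos_le_add fun δ hδ => ?_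
  obtain ⟨η, hη⟩ : ∃ η, η = δ / (N / 2 * α * κ + 1) := ⟨_, rfl⟩
  have hακ : 0 < N / 2 * α * κ + 1 := by positivity
  have hη0 : 0 < η := by rw [hη]; positivity
  have hηδ : N / 2 * α * κ * η ≤ δ := by
    rw [hη, mul_div_assoc', div_le_iff₀ hακ]
    nlinarith
  obtain ⟨Ω, k1, k2, k3⟩ := state h s η hs hs1 hη0
  have hΩ0 : 0 < ‖Ω‖ ^ 2 := by linarith
  obtain ⟨I2, hI2⟩ : ∃ I2, I2 = ∫ x, Φ x ^ 2 := ⟨_, rfl⟩
  obtain ⟨T, hT⟩ : ∃ T, T = ∫ x, gr Φ x := ⟨_, rfl⟩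
  obtain ⟨B, hB⟩ : ∃ B, B = κ * (3 * s + η) + 3 / 2 * Λ * (G / F.V) * R ^ 2 := ⟨_, rfl⟩
  have hΛ0 : 0 ≤ Λ := by
    by_contra hcon
    have hc := h.card
    have h3 : (0 : ℝ) < Fintype.card M := by rw [hc]; positivity
    have h4 : 0 < Fintype.card M := by exact_mod_cast h3
    obtain ⟨m⟩ := Fintype.card_pos_iff.1 h4
    have := h.hw m
    have := h.hΛ m
    linarith
  have hB0 : 0 ≤ B := by rw [hB]; positivity
  have hΩB : ∀ y, dot y y ≤ R ^ 2 → ∑ i, ‖Ay F i y Ω‖ ^ 2 ≤ B * ‖Ω‖ ^ 2 := by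
    intro y hy
    refine (k3 y).trans (mul_le_mul_of_nonneg_right ?_ hΩ0.le)
    rw [hB]
    have : 3 / 2 * Λ * (G / F.V) * dot y y ≤ 3 / 2 * Λ * (G / F.V) * R ^ 2 :=
      mul_le_mul_of_nonneg_left hy (by positivity)
    linarith
  have hkin := kin_le h1 h2 Ω F α hα R B hR hΩB
  rw [← hI2, ← hT] at hkin
  have hnorm := norm_trS h1 h2 Ω
  rw [← hI2] at hnorm hpos
  have hn0 : 0 < ‖trS h1 h2 Ω‖ ^ 2 := by rw [hnorm]; positivity
  have hne : (trS h1 h2 Ω).1 ≠ 0 := by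
    intro h0
    have : trS h1 h2 Ω = 0 := Subtype.ext h0
    rw [this] at hn0
    simp at hn0
  have hen := energy F α (trS h1 h2 Ω)
  have hmem : (ip (trS h1 h2 Ω).1 (Ham F α (trS h1 h2 Ω).1)).re /
      (ip (trS h1 h2 Ω).1 (trS h1 h2 Ω).1).re ∈ {E : ℝ | ∃ Ψ : WF N M, Nice Ψ ∧ Anti Ψ ∧ Ψ ≠ 0 ∧
        E = (ip Ψ (Ham F α Ψ)).re / (ip Ψ Ψ).re} :=
    ⟨(trS h1 h2 Ω).1, (trS h1 h2 Ω).2, tr_anti hsym Ω, hne, rfl⟩
  have hbdd : BddBelow {E : ℝ | ∃ Ψ : WF N M, Nice Ψ ∧ Anti Ψ ∧ Ψ ≠ 0 ∧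
        E = (ip Ψ (Ham F α Ψ)).re / (ip Ψ Ψ).re} := by
    refine ⟨0, ?_⟩
    rintro E ⟨Ψ, hn, -, -, rfl⟩
    obtain ⟨u, hu⟩ : ∃ u : Sp N M, u = ⟨Ψ, hn⟩ := ⟨_, rfl⟩
    have hu1 : u.1 = Ψ := by rw [hu]
    rw [← hu1, energy, ← norm_def]
    refine div_nonneg (add_nonneg (Finset.sum_nonneg fun m _ => ?_) ?_) (by positivity)
    · exact mul_nonneg (h.hw m).le (by positivity)
    · exact mul_nonneg (by norm_num) (Finset.sum_nonneg fun j _ => Finset.sum_nonneg fun i _ => by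
        positivity)
  refine (csInf_le hbdd hmem).trans ?_
  rw [hen, ← norm_def, hnorm]
  have hf : ∑ m, len (F.k m) * ‖anL m (trS h1 h2 Ω)‖ ^ 2 ≤
      I2 * (G / F.V / (2 * κ) * (3 / (4 * s)) * ‖Ω‖ ^ 2) := by
    simp_rw [norm_an_trS, ← hI2]
    have e1 : ∑ m, len (F.k m) * (I2 * ‖anL m Ω‖ ^ 2) =
        I2 * ∑ m, len (F.k m) * ‖anL m Ω‖ ^ 2 := by
      rw [Finset.mul_sum]
      exact Finset.sum_congr rfl fun m _ => by ring
    rw [e1]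
    exact mul_le_mul_of_nonneg_left k2 (by positivity)
  rw [div_le_iff₀ (by positivity)]
  have hfin : (G / F.V / (2 * κ) * (3 / (4 * s)) + T / (2 * I2) +
      N / 2 * α * (κ * (3 * s) + 3 / 2 * Λ * (G / F.V) * R ^ 2) + δ) * (I2 * ‖Ω‖ ^ 2) =
      I2 * (G / F.V / (2 * κ) * (3 / (4 * s)) * ‖Ω‖ ^ 2) +
      1 / 2 * (‖Ω‖ ^ 2 * (T + 2 * (N / 2 * α * (κ * (3 * s) + 3 / 2 * Λ * (G / F.V) * R ^ 2) + δ)
        * I2)) := by
    field_simp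
    ring
  rw [← hT, ← hI2, hfin]
  refine add_le_add hf (mul_le_mul_of_nonneg_left ?_ (by norm_num))
  refine hkin.trans (mul_le_mul_of_nonneg_left ?_ (by positivity))
  have hBδ : N / 2 * α * B ≤ N / 2 * α * (κ * (3 * s) + 3 / 2 * Λ * (G / F.V) * R ^ 2) + δ := by
    rw [hB]
    have : N / 2 * α * (κ * (3 * s + η) + 3 / 2 * Λ * (G / F.V) * R ^ 2) =
      N / 2 * α * (κ * (3 * s) + 3 / 2 * Λ * (G / F.V) * R ^ 2) + N / 2 * α * κ * η := by ring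
    rw [this]
    linarith
  have := mul_le_mul_of_nonneg_right hBδ hpos.le
  linarith

end Pool.Agent.Y660.FB
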